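import Pool.Agent.Work.MP_7ca543_pr.Final

/-!
# From coins to the averaged law of the excited random walk
-/

set_option linter.unusedSectionVars false

namespace Pool.Agent.Work.MP_7ca543_pr

open MeasureTheory Measure ProbabilityTheory Finset Filter Topology
open scoped ENNReal

theorem measurableSet_speed (v : ℝ) :
    MeasurableSet {x : ℕ → ℤ | Tendsto (fun n : ℕ => (x n : ℝ) / n) atTop (𝓝 v)} := by
  refine measurableSet_tendsto (𝓝 v) (fun n => ?_)
  have h1 : Measurable (fun z : ℤ => (z : ℝ) / n) := Measurable.of_discrete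
  exact h1.comp (measurable_pi_apply n)

theorem main_averaged (P : Measure (ℤ → ℕ → ℝ)) [IsProbabilityMeasure P]
    (hindep : iIndepFun (fun (z : ℤ) (ω : ℤ → ℕ → ℝ) => ω z) P)
    (hident : ∀ z : ℤ, P.map (fun ω : ℤ → ℕ → ℝ => ω z) = P.map (fun ω : ℤ → ℕ → ℝ => ω 0))
    (hpos : ∀ᵐ ω ∂P, ∀ z i, 1 / 2 ≤ ω z i ∧ ω z i ≤ 1)
    (hwel : 0 < P {ω | ∀ i, ω 0 i < 1})
    (Q : Kernel (ℤ → ℕ → ℝ) (ℕ → ℤ)) (hQ : ∀ᵐ ω ∂P, IsQuenchedLaw ω (Q ω)) :
    ∃ v : ℝ, (∀ᵐ x ∂(P.bind Q), Tendsto (fun n : ℕ => (x n : ℝ) / n) atTop (𝓝 v)) ∧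
      (∫⁻ ω, ∑' i, ENNReal.ofReal (2 * ω 0 i - 1) ∂P ≤ 2 → v = 0) ∧
      (2 < ∫⁻ ω, ∑' i, ENNReal.ofReal (2 * ω 0 i - 1) ∂P → 0 < v) := by
  have hm0 : Measurable (fun ω : ℤ → ℕ → ℝ => ω 0) := measurable_pi_apply 0
  set μ : Measure (ℕ → ℝ) := P.map (fun ω : ℤ → ℕ → ℝ => ω 0) with hμdef
  have hμp : IsProbabilityMeasure μ := isProbabilityMeasure_map hm0.aemeasurable
  have hPE : P = Env μ := by
    have h1 := (iIndepFun_iff_map_fun_eq_infinitePi_map (P := P)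
      (X := fun (z : ℤ) (ω : ℤ → ℕ → ℝ) => ω z) (fun z => measurable_pi_apply z)).1 hindep
    have h2 : P.map (fun (ω : ℤ → ℕ → ℝ) (z : ℤ) => ω z) = P := Measure.map_id
    rw [h2] at h1
    unfold Env
    have h3 : (fun z : ℤ => P.map (fun ω : ℤ → ℕ → ℝ => ω z)) = fun _ : ℤ => μ := by
      funext z
      exact hident z
    have h4 : ∀ (ν : ℤ → Measure (ℕ → ℝ)) (_ : ∀ z, IsProbabilityMeasure (ν z)),
        ν = (fun _ : ℤ => μ) → infinitePi ν = infinitePi (fun _ : ℤ => μ) := by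
      intro ν _ hν
      subst hν
      rfl
    rw [h1]
    exact h4 _ (fun z => isProbabilityMeasure_map (measurable_pi_apply z).aemeasurable) h3
  have hPos : PosLaw μ := by
    unfold PosLaw Adm
    have hms : MeasurableSet {w : ℕ → ℝ | ∀ i, 1 / 2 ≤ w i ∧ w i ≤ 1} := by
      have : {w : ℕ → ℝ | ∀ i, 1 / 2 ≤ w i ∧ w i ≤ 1}
          = ⋂ i, ({w | 1 / 2 ≤ w i} ∩ {w | w i ≤ 1}) := by
        ext w
        simp
      rw [this]
      exact MeasurableSet.iInter (fun i =>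
        (measurableSet_le measurable_const (measurable_pi_apply i)).inter
          (measurableSet_le (measurable_pi_apply i) measurable_const))
    rw [hμdef, ae_map_iff hm0.aemeasurable hms]
    filter_upwards [hpos] with ω hω
    exact hω 0
  have hWel : 0 < μ {w | ∀ i, w i < 1} := by
    have hms : MeasurableSet {w : ℕ → ℝ | ∀ i, w i < 1} := by
      have : {w : ℕ → ℝ | ∀ i, w i < 1} = ⋂ i, {w | w i < 1} := by
        ext w
        simp
      rw [this]
      exact MeasurableSet.iInter (fun i =>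
        measurableSet_lt (measurable_pi_apply i) measurable_const)
    rw [hμdef, Measure.map_apply hm0 hms]
    exact hwel
  have hδ : ∫⁻ ω, ∑' i, ENNReal.ofReal (2 * ω 0 i - 1) ∂P = dbar μ := by
    unfold dbar
    rw [hμdef, lintegral_map (Measurable.tsum (fun i => measurable_drift i)) hm0]
  rw [hδ]
  obtain ⟨v, h1, h2, h3⟩ := main_coins hPos hWel
  refine ⟨v, ?_, h2, h3⟩
  have hQ' : ∀ᵐ ω ∂(Env μ), IsQuenchedLaw ω (Q ω) := by rw [← hPE]; exact hQ
  rw [hPE, averaged_eq hPos Q hQ', ae_map_iff measurable_path.aemeasurable (measurableSet_speed v)]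
  exact h1

/-- A measurable family of quenched laws exists. -/
theorem exists_quenched_kernel : ∃ Q : Kernel (ℤ → ℕ → ℝ) (ℕ → ℤ),
    ∀ ω : ℤ → ℕ → ℝ, (∀ z i, 0 ≤ ω z i ∧ ω z i ≤ 1) → IsQuenchedLaw ω (Q ω) := by
  refine ⟨Kernel.map (Kernel.id ×ₖ Kernel.const _ UUU) (fun q => pos (coinZ q.1 q.2)),
    fun ω hω => ?_⟩
  have hm : Measurable (fun q : (ℤ → ℕ → ℝ) × (ℤ → ℕ → ℝ) => pos (coinZ q.1 q.2)) :=
    measurable_path.comp measurable_coinZ
  rw [Kernel.map_apply _ hm, Kernel.prod_apply, Kernel.id_apply, Kernel.const_apply,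
    Measure.dirac_prod, Measure.map_map hm (by fun_prop)]
  exact isQuenchedLaw_coins ω hω

end Pool.Agent.Work.MP_7ca543_pr
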