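import Pool.Agent.Work.MP_7ca543_pr.Core

/-!
# The branching chain on configurations of coins
-/

set_option linter.unusedSectionVars false

namespace Pool.Agent.Work.MP_7ca543_pr

open MeasureTheory Measure ProbabilityTheory Finset Filter Topology
open scoped ENNReal

/-- A configuration of coins: a row of coins at each site of `ℤ`. -/
abbrev Cfg := ℤ → ℕ → Bool

/-- The annealed law of the coins. -/
noncomputable def Lam (μ : Measure (ℕ → ℝ)) [IsProbabilityMeasure μ] : Measure Cfg :=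
  infinitePi (fun _ : ℤ => rho μ)

instance (μ : Measure (ℕ → ℝ)) [IsProbabilityMeasure μ] : IsProbabilityMeasure (Lam μ) := by
  unfold Lam; infer_instance

/-- The number of steps to the left from `n - i` before the walk hits `n`. -/
noncomputable def V (ξ : Cfg) (n : ℤ) : ℕ → ℕ
  | 0 => 0
  | i + 1 => F (ξ (n - i - 1)) (V ξ n i)

theorem measurable_V (n : ℤ) (i : ℕ) : Measurable (fun ξ : Cfg => V ξ n i) := by
  induction i with
  | zero => simp only [V]; exact measurable_const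
  | succ i ih =>
    simp only [V]
    exact measurable_F2.comp ((measurable_pi_apply (n - i - 1)).prodMk ih)

theorem V_update (ξ : Cfg) (n z : ℤ) (i : ℕ) (h : z < n - i) (r : ℕ → Bool) :
    V (Function.update ξ z r) n i = V ξ n i := by
  induction i with
  | zero => simp [V]
  | succ i ih =>
    push_cast at h
    rw [V, V, ih (by linarith), Function.update_of_ne (by omega)]

theorem V_shift (ξ : Cfg) (a n : ℤ) (i : ℕ) :
    V (fun z => ξ (z + a)) n i = V ξ (n + a) i := by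
  induction i with
  | zero => simp [V]
  | succ i ih =>
    rw [V, V, ih]
    congr 2
    ring

theorem V_mono {ξ : Cfg} (h : ∀ z, Good (ξ z)) (n : ℤ) (i : ℕ) :
    V ξ n i ≤ V ξ (n + 1) (i + 1) := by
  induction i with
  | zero => simp [V]
  | succ i ih =>
    rw [V, V]
    have : n + 1 - ((i + 1 : ℕ) : ℤ) - 1 = n - i - 1 := by push_cast; ring
    rw [this]
    exact (h _).F_mono ih

variable {μ : Measure (ℕ → ℝ)} [IsProbabilityMeasure μ]

theorem ae_good_all (hμ : PosLaw μ) : ∀ᵐ ξ ∂(Lam μ), ∀ z, Good (ξ z) := by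
  rw [ae_all_iff]
  intro z
  exact (measurePreserving_eval_infinitePi (fun _ : ℤ => rho μ) z).quasiMeasurePreserving.ae
    (ae_good hμ)

theorem lam_shift (a : ℤ) : (Lam μ).map (fun ξ z => ξ (z + a)) = Lam μ := by
  unfold Lam
  exact map_infinitePi_infinitePi_of_inj (P := fun _ : ℤ => rho μ) (f := fun z : ℤ => z + a)
    (add_left_injective a)

theorem measurable_shift (a : ℤ) : Measurable (fun (ξ : Cfg) (z : ℤ) => ξ (z + a)) := by
  rw [measurable_pi_iff]
  intro z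
  exact measurable_pi_apply (z + a)

theorem lintegral_shift (a : ℤ) {f : Cfg → ℝ≥0∞} (hf : Measurable f) :
    ∫⁻ ξ, f (fun z => ξ (z + a)) ∂(Lam μ) = ∫⁻ ξ, f ξ ∂(Lam μ) := by
  conv_rhs => rw [← lam_shift (μ := μ) a]
  rw [lintegral_map hf (measurable_shift a)]

theorem measurable_phi_V (φ : ℕ → ℝ≥0∞) (n : ℤ) (i : ℕ) :
    Measurable (fun ξ : Cfg => φ (V ξ n i)) :=
  (Measurable.of_discrete (f := φ)).comp (measurable_V n i)

/-- Expectation of `φ` of the chain at time `i`. -/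
noncomputable def mI (μ : Measure (ℕ → ℝ)) [IsProbabilityMeasure μ] (φ : ℕ → ℝ≥0∞) (i : ℕ) :
    ℝ≥0∞ := ∫⁻ ξ, φ (V ξ 0 i) ∂(Lam μ)

theorem mI_eq (φ : ℕ → ℝ≥0∞) (n : ℤ) (i : ℕ) : ∫⁻ ξ, φ (V ξ n i) ∂(Lam μ) = mI μ φ i := by
  unfold mI
  rw [← lintegral_shift n (measurable_phi_V φ 0 i)]
  refine lintegral_congr (fun ξ => ?_)
  rw [V_shift, zero_add]

/-- If `g` does not depend on row `z` then `F (ξ z) (g ξ)` is one step of the chain. -/
theorem one_step (φ : ℕ → ℝ≥0∞) (z : ℤ) {g : Cfg → ℕ} (hg : Measurable g)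
    (hinv : ∀ ξ r, g (Function.update ξ z r) = g ξ) :
    ∫⁻ ξ, φ (F (ξ z) (g ξ)) ∂(Lam μ) = ∫⁻ ξ, PP μ φ (g ξ) ∂(Lam μ) := by
  have hm : Measurable (fun ξ : Cfg => φ (F (ξ z) (g ξ))) :=
    (Measurable.of_discrete (f := φ)).comp
      (measurable_F2.comp ((measurable_pi_apply z).prodMk hg))
  unfold Lam
  rw [lintegral_resample (fun _ : ℤ => rho μ) z hm]
  refine lintegral_congr (fun ξ => ?_)
  unfold PP
  refine lintegral_congr (fun r => ?_)
  rw [hinv, Function.update_self]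

/-- Same with an additional weight which does not depend on row `z`. -/
theorem one_step_weight (φ : ℕ → ℝ≥0∞) (z : ℤ) {g : Cfg → ℕ} (hg : Measurable g)
    (hinv : ∀ ξ r, g (Function.update ξ z r) = g ξ) {h : Cfg → ℝ≥0∞} (hh : Measurable h)
    (hinv' : ∀ ξ r, h (Function.update ξ z r) = h ξ) :
    ∫⁻ ξ, h ξ * φ (F (ξ z) (g ξ)) ∂(Lam μ) = ∫⁻ ξ, h ξ * PP μ φ (g ξ) ∂(Lam μ) := by
  have hm : Measurable (fun ξ : Cfg => h ξ * φ (F (ξ z) (g ξ))) :=
    hh.mul ((Measurable.of_discrete (f := φ)).comp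
      (measurable_F2.comp ((measurable_pi_apply z).prodMk hg)))
  unfold Lam
  rw [lintegral_resample (fun _ : ℤ => rho μ) z hm]
  refine lintegral_congr (fun ξ => ?_)
  unfold PP
  rw [← lintegral_const_mul _ (measurable_comp_F φ (g ξ))]
  refine lintegral_congr (fun r => ?_)
  rw [hinv, hinv', Function.update_self]

theorem mI_succ (φ : ℕ → ℝ≥0∞) (i : ℕ) : mI μ φ (i + 1) = mI μ (PP μ φ) i := by
  unfold mI
  simp only [V]
  exact one_step φ (0 - i - 1) (measurable_V 0 i) (fun ξ r => V_update ξ 0 _ i (by linarith) r)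

theorem mI_mono_succ (hμ : PosLaw μ) {φ : ℕ → ℝ≥0∞} (hφ : Monotone φ) (i : ℕ) :
    mI μ φ i ≤ mI μ φ (i + 1) := by
  rw [← mI_eq φ 0 i, ← mI_eq φ 1 (i + 1)]
  refine lintegral_mono_ae ?_
  filter_upwards [ae_good_all hμ] with ξ hξ
  exact hφ (by simpa using V_mono hξ 0 i)

theorem mI_mono (hμ : PosLaw μ) {φ : ℕ → ℝ≥0∞} (hφ : Monotone φ) : Monotone (mI μ φ) :=
  monotone_nat_of_le_succ (mI_mono_succ hμ hφ)

theorem mI_add (φ ψ : ℕ → ℝ≥0∞) (i : ℕ) :
    mI μ (fun g => φ g + ψ g) i = mI μ φ i + mI μ ψ i := by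
  unfold mI
  rw [lintegral_add_left (measurable_phi_V φ 0 i)]

theorem mI_const_mul (c : ℝ≥0∞) (φ : ℕ → ℝ≥0∞) (i : ℕ) :
    mI μ (fun g => c * φ g) i = c * mI μ φ i := by
  unfold mI
  rw [lintegral_const_mul _ (measurable_phi_V φ 0 i)]

theorem mI_const (c : ℝ≥0∞) (i : ℕ) : mI μ (fun _ => c) i = c := by
  unfold mI
  simp

theorem mI_le {φ ψ : ℕ → ℝ≥0∞} (h : ∀ g, φ g ≤ ψ g) (i : ℕ) : mI μ φ i ≤ mI μ ψ i :=
  lintegral_mono (fun _ => h _)

/-! ### Case `δ > 2`: bounded means -/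

theorem mI_sq_ne_top (hμ : PosLaw μ) (i : ℕ) : mI μ (fun g => (g : ℝ≥0∞) ^ 2) i ≠ ⊤ := by
  induction i with
  | zero => simp [mI, V]
  | succ i ih =>
    rw [mI_succ]
    have h1 : mI μ (PP μ fun g => (g : ℝ≥0∞) ^ 2) i
        ≤ mI μ (fun g => 6 * ((g : ℝ≥0∞) ^ 2) + 6) i := by
      refine mI_le (fun g => ?_) i
      refine (E2_le hμ g).trans ?_
      have : (g + 1) ^ 2 + 2 * (g + 1) ≤ 6 * g ^ 2 + 6 := by
        rcases Nat.eq_zero_or_pos g with h | h
        · subst h; norm_num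
        · nlinarith
      exact_mod_cast this
    refine ne_top_of_le_ne_top ?_ h1
    rw [mI_add, mI_const_mul, mI_const]
    finiteness

theorem mI_mean_bounded (hμ : PosLaw μ) (hd : 2 < dbar μ) :
    ∃ C : ℝ≥0∞, C ≠ ⊤ ∧ ∀ i, mI μ (fun g => (g : ℝ≥0∞)) i ≤ C := by
  rw [dbar_eq_iSup] at hd
  obtain ⟨M, hM⟩ := lt_iSup_iff.1 hd
  -- choose a real `η` with `2 + η ≤ DM`
  obtain ⟨a, ha2, haM⟩ := exists_between hM
  have hane : a ≠ ⊤ := ne_top_of_lt haM
  obtain ⟨η, hη⟩ : ∃ η : ℝ≥0∞, a = 2 + η := ⟨a - 2, (add_tsub_cancel_of_le ha2.le).symm⟩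
  have hηpos : 0 < η := by
    rw [hη] at ha2
    by_contra hc
    have : η = 0 := le_antisymm (not_lt.1 hc) bot_le
    rw [this, add_zero] at ha2
    exact lt_irrefl _ ha2
  have hηne : η ≠ ⊤ := by
    intro h
    rw [h] at hη
    exact hane (by rw [hη]; simp)
  -- pointwise inequality
  have hpt : ∀ j : ℕ, E2 μ j + 2 * η * j
      ≤ (j : ℝ≥0∞) ^ 2 + ((M + 1 : ℕ) ^ 2 + 4 * (M + 1 : ℕ) + 2 * η * M + 3 + 4 * M) := by
    intro j
    rcases lt_or_ge j M with hj | hj
    · calc E2 μ j + 2 * η * j ≤ (((j : ℝ≥0∞) + 1) ^ 2 + 2 * ((j : ℝ≥0∞) + 1)) + 2 * η * M := by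
            gcongr
            exact E2_le hμ j
        _ ≤ ((M + 1 : ℕ) ^ 2 + 2 * (M + 1 : ℕ)) + 2 * η * M := by
            gcongr
            · push_cast
              gcongr
            · push_cast
              gcongr
        _ ≤ _ := by
            have : ((M + 1 : ℕ) : ℝ≥0∞) ^ 2 + 2 * (M + 1 : ℕ) + 2 * η * M
                ≤ ((M + 1 : ℕ) : ℝ≥0∞) ^ 2 + 4 * (M + 1 : ℕ) + 2 * η * M := by
              gcongr
              norm_num
            refine this.trans ?_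
            refine le_trans ?_ le_add_self
            rw [add_assoc (_ + 2 * η * M)]
            exact le_self_add
    · have h1 := E2_add_le hμ j M (by omega)
      have hDM : ((2 * (j + 1 - M) + 1 : ℕ) : ℝ≥0∞) * (2 + η)
          ≤ ((2 * (j + 1 - M) + 1 : ℕ) : ℝ≥0∞) * DM μ M := by
        gcongr
        rw [← hη]
        exact haM.le
      have h2 : E2 μ j + ((2 * (j + 1 - M) + 1 : ℕ) : ℝ≥0∞) * (2 + η)
          ≤ ((j : ℝ≥0∞) + 1) ^ 2 + 2 * ((j : ℝ≥0∞) + 1) :=
        (add_le_add_right hDM _).trans h1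
      have hE2 := E2_ne_top hμ j
      -- pass to reals
      have h3 : (E2 μ j).toReal + ((2 * (j + 1 - M) + 1 : ℕ) : ℝ) * (2 + η.toReal)
          ≤ ((j : ℝ) + 1) ^ 2 + 2 * (j + 1) := by
        have := ENNReal.toReal_mono (by finiteness) h2
        rw [ENNReal.toReal_add hE2 (by finiteness), ENNReal.toReal_mul,
          ENNReal.toReal_add (by finiteness) hηne, cast_sq,
          ENNReal.toReal_ofReal (by positivity), ENNReal.toReal_natCast] at this
        simpa using this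
      have e : ((2 * (j + 1 - M) + 1 : ℕ) : ℝ) = 2 * ((j : ℝ) + 1 - M) + 1 := by
        push_cast [Nat.cast_sub (show M ≤ j + 1 by omega)]
        ring
      rw [e] at h3
      have hηr : 0 ≤ η.toReal := ENNReal.toReal_nonneg
      have hMr : (0 : ℝ) ≤ M := Nat.cast_nonneg M
      have hjr : (M : ℝ) ≤ j := by exact_mod_cast hj
      have h4 : (E2 μ j).toReal + 2 * η.toReal * j
          ≤ (j : ℝ) ^ 2 + (((M : ℝ) + 1) ^ 2 + 4 * (M + 1) + 2 * η.toReal * M + 3 + 4 * M) := by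
        nlinarith
      have h5 : E2 μ j + 2 * η * j
          = ENNReal.ofReal ((E2 μ j).toReal + 2 * η.toReal * j) := by
        rw [ENNReal.ofReal_add ENNReal.toReal_nonneg (by positivity),
          ENNReal.ofReal_mul (by positivity), ENNReal.ofReal_mul (by positivity),
          ENNReal.ofReal_toReal hE2, ENNReal.ofReal_toReal hηne, ENNReal.ofReal_natCast,
          ENNReal.ofReal_ofNat]
      have h6 : (j : ℝ≥0∞) ^ 2 + ((M + 1 : ℕ) ^ 2 + 4 * (M + 1 : ℕ) + 2 * η * M + 3 + 4 * M)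
          = ENNReal.ofReal ((j : ℝ) ^ 2 + (((M : ℝ) + 1) ^ 2 + 4 * (M + 1)
            + 2 * η.toReal * M + 3 + 4 * M)) := by
        refine (ENNReal.toReal_eq_toReal_iff' (by finiteness) (by finiteness)).1 ?_
        rw [ENNReal.toReal_ofReal (by positivity)]
        rw [ENNReal.toReal_add (by finiteness) (by finiteness),
          ENNReal.toReal_add (by finiteness) (by finiteness),
          ENNReal.toReal_add (by finiteness) (by finiteness),
          ENNReal.toReal_add (by finiteness) (by finiteness),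
          ENNReal.toReal_add (by finiteness) (by finiteness)]
        have hM1 : ((M : ℝ≥0∞) + 1).toReal = (M : ℝ) + 1 := by
          rw [ENNReal.toReal_add (by finiteness) (by finiteness)]
          simp
        simp [hM1]
      rw [h5, h6]
      exact ENNReal.ofReal_le_ofReal h4
  set C : ℝ≥0∞ := ((M + 1 : ℕ) ^ 2 + 4 * (M + 1 : ℕ) + 2 * η * M + 3 + 4 * M) with hC
  have hCne : C ≠ ⊤ := by rw [hC]; finiteness
  refine ⟨C / (2 * η), ENNReal.div_ne_top hCne (by positivity), fun i => ?_⟩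
  have h1 : mI μ (fun g => (g : ℝ≥0∞) ^ 2) i + 2 * η * mI μ (fun g => (g : ℝ≥0∞)) i
      ≤ mI μ (fun g => (g : ℝ≥0∞) ^ 2) i + C := by
    calc mI μ (fun g => (g : ℝ≥0∞) ^ 2) i + 2 * η * mI μ (fun g => (g : ℝ≥0∞)) i
        ≤ mI μ (fun g => (g : ℝ≥0∞) ^ 2) (i + 1) + 2 * η * mI μ (fun g => (g : ℝ≥0∞)) i := by
          gcongr
          refine mI_mono_succ hμ ?_ i
          intro a b hab
          show (a : ℝ≥0∞) ^ 2 ≤ (b : ℝ≥0∞) ^ 2
          gcongr
      _ = mI μ (fun g => E2 μ g + 2 * η * g) i := by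
          rw [mI_succ, mI_add, mI_const_mul]
          rfl
      _ ≤ mI μ (fun g => (g : ℝ≥0∞) ^ 2 + C) i := mI_le hpt i
      _ = _ := by rw [mI_add, mI_const]
  have h2 : 2 * η * mI μ (fun g => (g : ℝ≥0∞)) i ≤ C :=
    (ENNReal.add_le_add_iff_left (mI_sq_ne_top hμ i)).1 h1
  rw [ENNReal.le_div_iff_mul_le (Or.inl (by positivity)) (Or.inl (by finiteness)), mul_comm]
  exact h2

end Pool.Agent.Work.MP_7ca543_pr
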