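import Pool.Agent.Work.MP_7ca543_pr.Moments

/-!
# The test functions for the case `δ ≤ 2`
-/

set_option linter.unusedSectionVars false

namespace Pool.Agent.Work.MP_7ca543_pr

open MeasureTheory Measure ProbabilityTheory Finset Filter Topology
open scoped ENNReal

/-- `y (y - A)^+`. -/
def fA (A y : ℕ) : ℕ := y * (y - A)

/-- `fA` linearised beyond `K`. -/
def fK (A K y : ℕ) : ℕ := fA A (min y K) + (2 * K - A) * (y - min y K)

/-- `((y - K)^+)^2`. -/
def gK (K y : ℕ) : ℕ := (y - K) ^ 2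

theorem fA_eq (A K y : ℕ) (h : A ≤ K) : fA A y = fK A K y + gK K y := by
  unfold fK gK
  rcases le_total y K with hy | hy
  · rw [min_eq_left hy, Nat.sub_self, Nat.sub_eq_zero_of_le hy]
    simp
  · rw [min_eq_right hy]
    unfold fA
    obtain ⟨a, rfl⟩ := Nat.exists_eq_add_of_le h
    obtain ⟨b, rfl⟩ := Nat.exists_eq_add_of_le hy
    have e1 : A + a + b - A = a + b := by omega
    have e2 : A + a - A = a := by omega
    have e3 : 2 * (A + a) - A = A + 2 * a := by omega
    have e4 : A + a + b - (A + a) = b := by omega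
    rw [e1, e2, e3, e4]
    ring

theorem fA_mono (A : ℕ) : Monotone (fA A) := by
  intro x y h
  unfold fA
  exact Nat.mul_le_mul h (Nat.sub_le_sub_right h A)

theorem fK_mono (A K : ℕ) : Monotone (fK A K) := by
  intro x y h
  unfold fK
  refine Nat.add_le_add (fA_mono A (min_le_min_right K h)) (Nat.mul_le_mul_left _ ?_)
  omega

theorem fK_le (A K y : ℕ) : fK A K y ≤ K * K + 2 * K * y := by
  unfold fK fA
  have h1 : min y K * (min y K - A) ≤ K * K :=
    Nat.mul_le_mul (min_le_right _ _) ((Nat.sub_le _ _).trans (min_le_right _ _))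
  have h2 : (2 * K - A) * (y - min y K) ≤ 2 * K * y :=
    Nat.mul_le_mul (Nat.sub_le _ _) (Nat.sub_le _ _)
  omega

theorem fK_eq_of_le (A K y : ℕ) (h : y ≤ K) : fK A K y = fA A y := by
  unfold fK
  rw [min_eq_left h]
  simp

theorem fK_int_low (A K y : ℕ) (hA : A ≤ K) : ((y : ℤ) * y - A * y) ≤ (fK A K y : ℤ) + (gK K y) := by
  have h := fA_eq A K y hA
  have h1 : (fA A y : ℤ) = fK A K y + gK K y := by exact_mod_cast h
  rw [← h1]
  unfold fA
  rcases le_total A y with hy | hy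
  · push_cast [Nat.cast_sub hy]
    nlinarith
  · rw [Nat.sub_eq_zero_of_le hy]
    have : (y : ℤ) ≤ A := by exact_mod_cast hy
    push_cast
    nlinarith

theorem convex (A K x g : ℕ) (hA : 2 * A ≤ K) (hx : K < 2 * x) :
    fK A K x + (2 * min x K - A) * g ≤ fK A K g + (2 * min x K - A) * x := by
  have hxA : A ≤ x := by omega
  have hKA : A ≤ K := by omega
  have key : ∀ y : ℕ, K ≤ y → (fK A K y : ℤ) = (K : ℤ) * K - A * K + (2 * K - A) * (y - K) := by
    intro y hy
    unfold fK fA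
    rw [min_eq_right hy]
    push_cast [Nat.cast_sub hKA, Nat.cast_sub hy, Nat.cast_sub (show A ≤ 2 * K by omega)]
    ring
  have key2 : ∀ y : ℕ, A ≤ y → y ≤ K → (fK A K y : ℤ) = (y : ℤ) * y - A * y := by
    intro y hy1 hy2
    rw [fK_eq_of_le A K y hy2]
    unfold fA
    push_cast [Nat.cast_sub hy1]
    ring
  have key3 : ∀ y : ℕ, y ≤ K → (y : ℤ) * y - A * y ≤ (fK A K y : ℤ) := by
    intro y hy
    have := fK_int_low A K y hKA
    unfold gK at this
    rw [Nat.sub_eq_zero_of_le hy] at this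
    simpa using this
  have hgoal : (fK A K x : ℤ) + (2 * min x K - A : ℕ) * g
      ≤ (fK A K g : ℤ) + (2 * min x K - A : ℕ) * x := by
    rcases le_total x K with hxK | hxK
    · rw [min_eq_left hxK]
      push_cast [Nat.cast_sub (show A ≤ 2 * x by omega)]
      rw [key2 x hxA hxK]
      rcases le_total g K with hgK | hgK
      · have := key3 g hgK
        nlinarith [sq_nonneg ((x : ℤ) - g)]
      · rw [key g hgK]
        have h1 : (x : ℤ) ≤ K := by exact_mod_cast hxK
        have h2 : (K : ℤ) ≤ g := by exact_mod_cast hgK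
        nlinarith [mul_nonneg (sub_nonneg.2 h1) (sub_nonneg.2 h2), sq_nonneg ((K : ℤ) - x)]
    · rw [min_eq_right hxK]
      push_cast [Nat.cast_sub (show A ≤ 2 * K by omega)]
      rw [key x hxK]
      rcases le_total g K with hgK | hgK
      · have := key3 g hgK
        nlinarith [sq_nonneg ((K : ℤ) - g)]
      · rw [key g hgK]
        nlinarith
  exact_mod_cast hgoal

variable {μ : Measure (ℕ → ℝ)} [IsProbabilityMeasure μ]

theorem measurable_comp_F (φ : ℕ → ℝ≥0∞) (j : ℕ) :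
    Measurable (fun r : ℕ → Bool => φ (F r j)) :=
  (Measurable.of_discrete (f := φ)).comp (measurable_F j)

theorem PP_add (φ ψ : ℕ → ℝ≥0∞) (j : ℕ) :
    PP μ (fun g => φ g + ψ g) j = PP μ φ j + PP μ ψ j := by
  unfold PP
  rw [lintegral_add_left (measurable_comp_F φ j)]

theorem PP_mono {φ ψ : ℕ → ℝ≥0∞} (h : ∀ g, φ g ≤ ψ g) (j : ℕ) : PP μ φ j ≤ PP μ ψ j :=
  lintegral_mono (fun _ => h _)

theorem PP_const_mul (c : ℝ≥0∞) (φ : ℕ → ℝ≥0∞) (j : ℕ) :
    PP μ (fun g => c * φ g) j = c * PP μ φ j := by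
  unfold PP
  rw [lintegral_const_mul _ (measurable_comp_F φ j)]

theorem PP_const (c : ℝ≥0∞) (j : ℕ) : PP μ (fun _ => c) j = c := by
  unfold PP
  simp

theorem E1_ne_top (hμ : PosLaw μ) (j : ℕ) : E1 μ j ≠ ⊤ :=
  ne_top_of_le_ne_top (by finiteness) (E1_le hμ j)

theorem E2_ne_top (hμ : PosLaw μ) (j : ℕ) : E2 μ j ≠ ⊤ :=
  ne_top_of_le_ne_top (by finiteness) (E2_le hμ j)

theorem DM_le_dbar (M : ℕ) : DM μ M ≤ dbar μ := by
  rw [dbar_eq_iSup]
  exact le_iSup (fun M => DM μ M) M

/-- The choice of `A`. -/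
theorem exists_A (hd : dbar μ ≤ 2) : ∃ A M : ℕ, 1 ≤ A ∧ M ≤ A ∧ ∀ x : ℕ, A ≤ x →
    0 < 4 * (x : ℝ) + 3 - (2 * x + 3) * (dbar μ).toReal + A * ((DM μ M).toReal - 1) := by
  have hne : dbar μ ≠ ⊤ := ne_top_of_le_ne_top (by finiteness) hd
  have hd' : (dbar μ).toReal ≤ 2 := by
    have := ENNReal.toReal_mono (by finiteness) hd
    simpa using this
  by_cases h1 : dbar μ ≤ 1
  · refine ⟨1, 0, le_rfl, by omega, fun x hx => ?_⟩
    have h1' : (dbar μ).toReal ≤ 1 := by
      have := ENNReal.toReal_mono (by finiteness) h1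
      simpa using this
    have hx' : (1 : ℝ) ≤ x := by exact_mod_cast hx
    have : DM μ 0 = 0 := by simp [DM]
    rw [this]
    simp only [ENNReal.toReal_zero]
    push_cast
    nlinarith
  · push Not at h1
    rw [dbar_eq_iSup] at h1
    obtain ⟨M, hM⟩ := lt_iSup_iff.1 h1
    have hMne : DM μ M ≠ ⊤ := ne_top_of_le_ne_top hne (DM_le_dbar M)
    have hM' : 1 < (DM μ M).toReal := by
      have := (ENNReal.toReal_lt_toReal (by finiteness) hMne).2 hM
      simpa using this
    set c := (DM μ M).toReal - 1 with hc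
    have hcpos : 0 < c := by linarith
    obtain ⟨B, hB⟩ := exists_nat_gt (4 / c)
    refine ⟨max (max B M) 1, M, le_max_right _ _, (le_max_right _ _).trans (le_max_left _ _),
      fun x hx => ?_⟩
    have h2 : (4 : ℝ) / c < (max (max B M) 1 : ℕ) := by
      refine lt_of_lt_of_le hB ?_
      exact_mod_cast (le_max_left _ _).trans (le_max_left _ _)
    rw [div_lt_iff₀ hcpos] at h2
    have h3 : (0 : ℝ) ≤ x := Nat.cast_nonneg x
    nlinarith

/-- The main inequality: `fA` is strictly subharmonic. -/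
theorem fA_sub (hμ : PosLaw μ) (hwel : 0 < μ {w | ∀ i, w i < 1}) (hd : dbar μ ≤ 2) :
    ∃ A : ℕ, 1 ≤ A ∧ ∀ x : ℕ, (fA A x : ℝ≥0∞) < PP μ (fun g => (fA A g : ℝ≥0∞)) x := by
  obtain ⟨A, M, hA1, hMA, hA⟩ := exists_A hd
  have hne : dbar μ ≠ ⊤ := ne_top_of_le_ne_top (by finiteness) hd
  refine ⟨A, hA1, fun x => ?_⟩
  rcases lt_or_ge x A with hx | hx
  · have h1 : fA A x = 0 := by
      unfold fA
      rw [Nat.sub_eq_zero_of_le hx.le, mul_zero]
    rw [h1, Nat.cast_zero]
    refine lt_of_lt_of_le (PP_tail_pos hμ hwel x (A + 1)) (PP_mono (fun g => ?_) x)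
    split_ifs with hg
    · have : 1 ≤ fA A g := by
        unfold fA
        exact Nat.one_le_iff_ne_zero.2 (Nat.mul_ne_zero (by omega) (by omega))
      exact_mod_cast this
    · exact bot_le
  · have h0 : ∀ g : ℕ, (g : ℝ≥0∞) ^ 2 ≤ (fA A g : ℝ≥0∞) + A * g := by
      intro g
      have : g ^ 2 ≤ fA A g + A * g := by
        unfold fA
        rcases le_total A g with h | h
        · obtain ⟨b, rfl⟩ := Nat.exists_eq_add_of_le h
          rw [Nat.add_sub_cancel_left]
          nlinarith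
        · nlinarith
      exact_mod_cast this
    have h1 : E2 μ x ≤ PP μ (fun g => (fA A g : ℝ≥0∞)) x + A * E1 μ x := by
      unfold E2 E1
      rw [← PP_const_mul, ← PP_add]
      exact PP_mono h0 x
    by_cases htop : PP μ (fun g => (fA A g : ℝ≥0∞)) x = ⊤
    · rw [htop]
      exact ENNReal.natCast_lt_top _
    have hE1 := E1_ne_top hμ x
    have hE2 := E2_ne_top hμ x
    have h2 : (E2 μ x).toReal ≤ (PP μ (fun g => (fA A g : ℝ≥0∞)) x).toReal + A * (E1 μ x).toReal := by
      have := ENNReal.toReal_mono (by finiteness) h1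
      rw [ENNReal.toReal_add htop (by finiteness), ENNReal.toReal_mul] at this
      simpa using this
    have h3 : ((x : ℝ) + 1) ^ 2 + 2 * (x + 1)
        ≤ (E2 μ x).toReal + (2 * x + 3) * (dbar μ).toReal := by
      have := ENNReal.toReal_mono (by finiteness) (le_E2_add hμ x)
      rw [ENNReal.toReal_add hE2 (by finiteness), ENNReal.toReal_mul, cast_sq,
        ENNReal.toReal_ofReal (by positivity), ENNReal.toReal_natCast] at this
      push_cast at this
      exact this
    have hMne : DM μ M ≠ ⊤ := ne_top_of_le_ne_top hne (DM_le_dbar M)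
    have h4 : (E1 μ x).toReal + (DM μ M).toReal ≤ x + 1 := by
      have := ENNReal.toReal_mono (by finiteness) (E1_add_le hμ x M (by omega))
      rw [ENNReal.toReal_add hE1 hMne, ENNReal.toReal_add (by finiteness) (by finiteness)] at this
      simpa using this
    have h5 := hA x hx
    have h6 : ((fA A x : ℕ) : ℝ) = (x : ℝ) ^ 2 - A * x := by
      unfold fA
      push_cast [Nat.cast_sub hx]
      ring
    have h7 : ((fA A x : ℕ) : ℝ) < (PP μ (fun g => (fA A g : ℝ≥0∞)) x).toReal := by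
      rw [h6]
      have hApos : (0 : ℝ) ≤ A := Nat.cast_nonneg A
      nlinarith
    rw [← ENNReal.toReal_lt_toReal (by finiteness) htop, ENNReal.toReal_natCast]
    exact h7


theorem cast_sub_two (hμ : PosLaw μ) (hd : dbar μ ≤ 2) (x : ℕ) : (x : ℝ≥0∞) ≤ E1 μ x + 1 := by
  have h1 := le_E1_add hμ x
  have h2 : (x : ℝ≥0∞) + 1 ≤ (E1 μ x + 1) + 1 := by
    calc (x : ℝ≥0∞) + 1 ≤ E1 μ x + dbar μ := h1
      _ ≤ E1 μ x + 2 := by gcongr
      _ = (E1 μ x + 1) + 1 := by rw [add_assoc]; norm_num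
  exact (ENNReal.add_le_add_iff_right (by finiteness)).1 h2

/-- The error term. -/
noncomputable def eK (μ : Measure (ℕ → ℝ)) (K x : ℕ) : ℝ≥0∞ :=
  if 2 * x ≤ K then PP μ (fun g => (gK K g : ℝ≥0∞)) x else 2 * K

/-- The gain. -/
noncomputable def eps (μ : Measure (ℕ → ℝ)) (A x : ℕ) : ℝ≥0∞ :=
  PP μ (fun g => (fA A g : ℝ≥0∞)) x - fA A x

theorem fK_ineq (hμ : PosLaw μ) (hd : dbar μ ≤ 2) {A : ℕ}
    (hA : ∀ x : ℕ, (fA A x : ℝ≥0∞) < PP μ (fun g => (fA A g : ℝ≥0∞)) x)
    (K x : ℕ) (hK : 2 * A ≤ K) :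
    (fK A K x : ℝ≥0∞) + (if 2 * x ≤ K then eps μ A x else 0)
      ≤ PP μ (fun g => (fK A K g : ℝ≥0∞)) x + eK μ K x := by
  by_cases hx : 2 * x ≤ K
  · rw [if_pos hx]
    unfold eK eps
    rw [if_pos hx, ← PP_add, fK_eq_of_le A K x (by omega), add_tsub_cancel_of_le (hA x).le]
    refine PP_mono (fun g => ?_) x
    have := fA_eq A K g (by omega)
    exact_mod_cast this.le
  · rw [if_neg hx, add_zero]
    unfold eK
    rw [if_neg hx]
    push Not at hx
    set s : ℕ := 2 * min x K - A with hs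
    have h1 : (fK A K x : ℝ≥0∞) + s * E1 μ x
        ≤ PP μ (fun g => (fK A K g : ℝ≥0∞)) x + s * x := by
      unfold E1
      rw [← PP_const_mul]
      conv_lhs => rw [← PP_const (μ := μ) (fK A K x : ℝ≥0∞) x]
      conv_rhs => rw [← PP_const (μ := μ) ((s : ℝ≥0∞) * x) x]
      rw [← PP_add, ← PP_add]
      refine PP_mono (fun g => ?_) x
      have := convex A K x g hK hx
      exact_mod_cast this
    have hE1 := E1_ne_top hμ x
    have h2 : (s : ℝ≥0∞) * x ≤ s * E1 μ x + 2 * K := by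
      calc (s : ℝ≥0∞) * x ≤ s * (E1 μ x + 1) := by gcongr; exact cast_sub_two hμ hd x
        _ = s * E1 μ x + s := by ring
        _ ≤ s * E1 μ x + 2 * K := by
          gcongr
          have : s ≤ 2 * K := by omega
          exact_mod_cast this
    have h3 : (fK A K x : ℝ≥0∞) + s * E1 μ x
        ≤ (PP μ (fun g => (fK A K g : ℝ≥0∞)) x + 2 * K) + s * E1 μ x := by
      calc (fK A K x : ℝ≥0∞) + s * E1 μ x
          ≤ PP μ (fun g => (fK A K g : ℝ≥0∞)) x + s * x := h1
        _ ≤ PP μ (fun g => (fK A K g : ℝ≥0∞)) x + (s * E1 μ x + 2 * K) := by gcongr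
        _ = _ := by ring
    exact (ENNReal.add_le_add_iff_right (by finiteness)).1 h3

theorem eK_le (hμ : PosLaw μ) (hd : dbar μ ≤ 2) (K x : ℕ) : eK μ K x ≤ 6 * ((x : ℝ≥0∞) + 1) := by
  unfold eK
  split_ifs with hx
  · have h1 : PP μ (fun g => (gK K g : ℝ≥0∞)) x + 2 * x * E1 μ x ≤ E2 μ x + x ^ 2 := by
      unfold E1 E2
      rw [← PP_const_mul]
      conv_rhs => rw [← PP_const (μ := μ) ((x : ℝ≥0∞) ^ 2) x]
      rw [← PP_add, ← PP_add]
      refine PP_mono (fun g => ?_) x
      have : gK K g + 2 * x * g ≤ g ^ 2 + x ^ 2 := by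
        unfold gK
        rcases le_total g K with h | h
        · rw [Nat.sub_eq_zero_of_le h]
          zify
          nlinarith [sq_nonneg ((g : ℤ) - x)]
        · zify [h]
          have h1 : (x : ℤ) ≤ K := by exact_mod_cast (by omega : x ≤ K)
          have h2 : (K : ℤ) ≤ g := by exact_mod_cast h
          nlinarith [mul_nonneg (sub_nonneg.2 h1) (sub_nonneg.2 h2), sq_nonneg ((K : ℤ) - x)]
      exact_mod_cast this
    have hE1 := E1_ne_top hμ x
    have hE2 := E2_ne_top hμ x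
    have h2 : PP μ (fun g => (gK K g : ℝ≥0∞)) x ≠ ⊤ := by
      refine ne_top_of_le_ne_top ?_ (le_trans le_self_add h1)
      finiteness
    have h3 : (PP μ (fun g => (gK K g : ℝ≥0∞)) x).toReal + 2 * x * (E1 μ x).toReal
        ≤ (E2 μ x).toReal + x ^ 2 := by
      have := ENNReal.toReal_mono (by finiteness) h1
      rw [ENNReal.toReal_add h2 (by finiteness), ENNReal.toReal_add hE2 (by finiteness)] at this
      simpa using this
    have h4 : (E2 μ x).toReal ≤ ((x : ℝ) + 1) ^ 2 + 2 * (x + 1) := by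
      have := ENNReal.toReal_mono (by finiteness) (E2_le hμ x)
      rwa [cast_sq, ENNReal.toReal_ofReal (by positivity)] at this
    have h5 : (x : ℝ) ≤ (E1 μ x).toReal + 1 := by
      have := ENNReal.toReal_mono (by finiteness) (cast_sub_two hμ hd x)
      rw [ENNReal.toReal_add hE1 (by finiteness)] at this
      simpa using this
    have h6 : (PP μ (fun g => (gK K g : ℝ≥0∞)) x).toReal ≤ 6 * ((x : ℝ) + 1) := by
      have hx0 : (0 : ℝ) ≤ x := Nat.cast_nonneg x
      nlinarith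
    calc PP μ (fun g => (gK K g : ℝ≥0∞)) x
        = ENNReal.ofReal (PP μ (fun g => (gK K g : ℝ≥0∞)) x).toReal := (ENNReal.ofReal_toReal h2).symm
      _ ≤ ENNReal.ofReal (6 * ((x : ℝ) + 1)) := ENNReal.ofReal_le_ofReal h6
      _ = 6 * ((x : ℝ≥0∞) + 1) := by
        rw [ENNReal.ofReal_mul (by norm_num), ENNReal.ofReal_add (Nat.cast_nonneg x) zero_le_one,
          ENNReal.ofReal_natCast, ENNReal.ofReal_one, ENNReal.ofReal_ofNat]
  · have : 2 * K ≤ 6 * (x + 1) := by omega
    exact_mod_cast this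

theorem eK_tendsto (hμ : PosLaw μ) (x : ℕ) : Tendsto (fun K => eK μ K x) atTop (𝓝 0) := by
  have h1 : Tendsto (fun K => PP μ (fun g => (gK K g : ℝ≥0∞)) x) atTop (𝓝 0) := by
    unfold PP
    have h2 := tendsto_lintegral_of_dominated_convergence (μ := rho μ)
      (F := fun K r => (gK K (F r x) : ℝ≥0∞)) (f := fun _ => 0)
      (fun r => (F r x : ℝ≥0∞) ^ 2)
      (fun K => measurable_comp_F (fun g => (gK K g : ℝ≥0∞)) x)
      (fun K => Filter.Eventually.of_forall (fun r => by
        have : gK K (F r x) ≤ (F r x) ^ 2 := by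
          unfold gK
          exact Nat.pow_le_pow_left (Nat.sub_le _ _) 2
        show (gK K (F r x) : ℝ≥0∞) ≤ (F r x : ℝ≥0∞) ^ 2
        exact_mod_cast this))
      (E2_ne_top hμ x)
      (Filter.Eventually.of_forall (fun r => by
        refine tendsto_const_nhds.congr' ?_
        filter_upwards [eventually_ge_atTop (F r x)] with K hK
        simp [gK, Nat.sub_eq_zero_of_le hK]))
    simpa using h2
  refine h1.congr' ?_
  filter_upwards [eventually_ge_atTop (2 * x)] with K hK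
  unfold eK
  rw [if_pos hK]

/-- No stationary law with finite mean if `δ ≤ 2`. -/
theorem no_stationary {Ω : Type*} [MeasurableSpace Ω] (P : Measure Ω) [IsProbabilityMeasure P]
    (hμ : PosLaw μ) (hwel : 0 < μ {w | ∀ i, w i < 1}) (hd : dbar μ ≤ 2)
    (V : Ω → ℕ) (hV : Measurable V) (hmean : ∫⁻ o, (V o : ℝ≥0∞) ∂P ≠ ⊤)
    (hst : ∀ A K : ℕ, ∫⁻ o, PP μ (fun g => (fK A K g : ℝ≥0∞)) (V o) ∂P
      ≤ ∫⁻ o, (fK A K (V o) : ℝ≥0∞) ∂P) : False := by
  obtain ⟨A, _, hA⟩ := fA_sub hμ hwel hd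
  have hmeas : ∀ φ : ℕ → ℝ≥0∞, Measurable (fun o => φ (V o)) := fun φ =>
    (Measurable.of_discrete (f := φ)).comp hV
  have hfin : ∀ K, ∫⁻ o, (fK A K (V o) : ℝ≥0∞) ∂P ≠ ⊤ := by
    intro K
    have h1 : ∫⁻ o, (fK A K (V o) : ℝ≥0∞) ∂P ≤ ∫⁻ o, ((K : ℝ≥0∞) * K + 2 * K * (V o)) ∂P := by
      refine lintegral_mono (fun o => ?_)
      have := fK_le A K (V o)
      show (fK A K (V o) : ℝ≥0∞) ≤ (K : ℝ≥0∞) * K + 2 * K * (V o)
      exact_mod_cast this
    refine ne_top_of_le_ne_top ?_ h1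
    rw [lintegral_add_left measurable_const, lintegral_const_mul _ (hmeas (fun n => (n : ℝ≥0∞)))]
    simp only [lintegral_const, measure_univ, mul_one]
    finiteness
  have hkey : ∀ K, 2 * A ≤ K → ∫⁻ o, (if 2 * V o ≤ K then eps μ A (V o) else 0) ∂P
      ≤ ∫⁻ o, eK μ K (V o) ∂P := by
    intro K hK
    have h1 : ∫⁻ o, (fK A K (V o) : ℝ≥0∞) ∂P
        + ∫⁻ o, (if 2 * V o ≤ K then eps μ A (V o) else 0) ∂P
        ≤ ∫⁻ o, (fK A K (V o) : ℝ≥0∞) ∂P + ∫⁻ o, eK μ K (V o) ∂P := by
      rw [← lintegral_add_left (hmeas (fun n => (fK A K n : ℝ≥0∞)))]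
      calc ∫⁻ o, ((fK A K (V o) : ℝ≥0∞) + (if 2 * V o ≤ K then eps μ A (V o) else 0)) ∂P
          ≤ ∫⁻ o, (PP μ (fun g => (fK A K g : ℝ≥0∞)) (V o) + eK μ K (V o)) ∂P :=
            lintegral_mono (fun o => fK_ineq hμ hd hA K (V o) hK)
        _ = ∫⁻ o, PP μ (fun g => (fK A K g : ℝ≥0∞)) (V o) ∂P + ∫⁻ o, eK μ K (V o) ∂P :=
            lintegral_add_left (hmeas _) _
        _ ≤ _ := add_le_add_left (hst A K) _
    exact (ENNReal.add_le_add_iff_left (hfin K)).1 h1
  have hlim : Tendsto (fun K => ∫⁻ o, eK μ K (V o) ∂P) atTop (𝓝 0) := by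
    have h2 := tendsto_lintegral_of_dominated_convergence (μ := P)
      (F := fun K o => eK μ K (V o)) (f := fun _ => 0)
      (fun o => 6 * ((V o : ℝ≥0∞) + 1))
      (fun K => hmeas (fun n => eK μ K n))
      (fun K => Filter.Eventually.of_forall (fun o => eK_le hμ hd K (V o)))
      (by
        rw [lintegral_const_mul _ (hmeas (fun n => (n : ℝ≥0∞) + 1)),
          lintegral_add_left (hmeas (fun n => (n : ℝ≥0∞)))]
        simp only [lintegral_const, measure_univ, mul_one]
        finiteness)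
      (Filter.Eventually.of_forall (fun o => eK_tendsto hμ (V o)))
    simpa using h2
  -- a lower bound for the left-hand side
  have hpos : 0 < ∫⁻ o, eps μ A (V o) ∂P := by
    rw [lintegral_pos_iff_support (hmeas (fun n => eps μ A n))]
    have : Function.support (fun o => eps μ A (V o)) = Set.univ := by
      ext o
      simp only [Function.mem_support, Set.mem_univ, iff_true]
      unfold eps
      exact (tsub_pos_of_lt (hA (V o))).ne'
    rw [this]
    simp
  have hsup : ∫⁻ o, eps μ A (V o) ∂P ≤ 0 := by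
    have h3 : ∫⁻ o, eps μ A (V o) ∂P
        ≤ liminf (fun K => ∫⁻ o, (if 2 * V o ≤ K then eps μ A (V o) else 0) ∂P) atTop := by
      calc ∫⁻ o, eps μ A (V o) ∂P
          = ∫⁻ o, liminf (fun K : ℕ => (if 2 * V o ≤ K then eps μ A (V o) else 0)) atTop ∂P := by
            refine lintegral_congr (fun o => ?_)
            have : Tendsto (fun K : ℕ => (if 2 * V o ≤ K then eps μ A (V o) else 0)) atTop
                (𝓝 (eps μ A (V o))) := by
              refine tendsto_const_nhds.congr' ?_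
              filter_upwards [eventually_ge_atTop (2 * V o)] with K hK
              rw [if_pos hK]
            exact this.liminf_eq.symm
        _ ≤ _ := lintegral_liminf_le (fun K => hmeas (fun n => if 2 * n ≤ K then eps μ A n else 0))
    refine h3.trans ?_
    have h4 : liminf (fun K => ∫⁻ o, (if 2 * V o ≤ K then eps μ A (V o) else 0) ∂P) atTop
        ≤ liminf (fun K => ∫⁻ o, eK μ K (V o) ∂P) atTop := by
      refine liminf_le_liminf ?_
      filter_upwards [eventually_ge_atTop (2 * A)] with K hK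
      exact hkey K hK
    exact h4.trans hlim.liminf_eq.le
  exact absurd (lt_of_lt_of_le hpos hsup) (lt_irrefl _)

end Pool.Agent.Work.MP_7ca543_pr
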