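import Mathlib

/-!
# Excited random walk: definitions used in the statement

Cookies are indexed from `0`: for a cookie environment `ω : ℤ → ℕ → ℝ`, the number `ω z i` is the
probability of a step to the right on the `(i+1)`-st visit to `z`.
-/

namespace Pool.Agent.Work.MP_7ca543_pr

open MeasureTheory ProbabilityTheory

/-- The number of `j < n` with `x j = x n`, i.e. (the number of `0 ≤ j ≤ n` with `x j = x n`)
minus one: the `0`-based number of the visit which the path `x` makes to `x n` at time `n`. -/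
def visits (x : ℕ → ℤ) (n : ℕ) : ℕ := ((Finset.range n).filter (fun j => x j = x n)).card

/-- `Q` is the quenched law `P_{0,ω}` of the excited random walk in the environment `ω`: a
probability measure on paths `x : ℕ → ℤ` which start at `0`, make nearest-neighbour steps, and
satisfy `Q[x_{n+1} = x_n + 1 | x_0, …, x_n] = ω(x_n, number of the current visit)`. (The path space
up to time `n` is discrete, so this is the elementary formula
`Q(x_{n+1} = y_n + 1, x_0 = y_0, …, x_n = y_n) = ω(y_n, visits y n) Q(x_0 = y_0, …, x_n = y_n)`.) -/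
structure IsQuenchedLaw (ω : ℤ → ℕ → ℝ) (Q : Measure (ℕ → ℤ)) : Prop where
  prob : Q Set.univ = 1
  start : ∀ᵐ x ∂Q, x 0 = 0
  nearest : ∀ᵐ x ∂Q, ∀ n, x (n + 1) = x n + 1 ∨ x (n + 1) = x n - 1
  step : ∀ (n : ℕ) (y : ℕ → ℤ),
    Q {x | (∀ i ≤ n, x i = y i) ∧ x (n + 1) = y n + 1}
      = ENNReal.ofReal (ω (y n) (visits y n)) * Q {x | ∀ i ≤ n, x i = y i}

/-- (IID): under the law `P` of the environment, the stacks `(ω z)_{z ∈ ℤ}` are independent and
identically distributed. -/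
def IID (P : Measure (ℤ → ℕ → ℝ)) : Prop :=
  iIndepFun (fun (z : ℤ) (ω : ℤ → ℕ → ℝ) => ω z) P ∧
    ∀ z : ℤ, P.map (fun ω : ℤ → ℕ → ℝ => ω z) = P.map (fun ω : ℤ → ℕ → ℝ => ω 0)

/-- (POS): almost surely every cookie has a non-negative drift. -/
def POS (P : Measure (ℤ → ℕ → ℝ)) : Prop := ∀ᵐ ω ∂P, ∀ z i, 1 / 2 ≤ ω z i

/-- (WEL): weak ellipticity. -/
def WEL (P : Measure (ℤ → ℕ → ℝ)) : Prop :=
  0 < P {ω | ∀ i, 0 < ω 0 i} ∧ 0 < P {ω | ∀ i, ω 0 i < 1}

/-- The drift parameter `δ = E[∑_i (2 ω(0,i) - 1)] ∈ [0,∞]`, for laws `P` satisfying (POS). -/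
noncomputable def drift (P : Measure (ℤ → ℕ → ℝ)) : ENNReal :=
  ∫⁻ ω, ∑' i, ENNReal.ofReal (2 * ω 0 i - 1) ∂P

end Pool.Agent.Work.MP_7ca543_pr
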