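import Pool.Agent.Work.MP_7ca543_pr.Mean

/-!
# Maximal ergodic inequality and the law of large numbers for local functions
-/

set_option linter.unusedSectionVars false

namespace Pool.Agent.Work.MP_7ca543_pr

open MeasureTheory Measure ProbabilityTheory Finset Filter Topology
open scoped ENNReal

section Maximal

variable {Ω : Type*} [MeasurableSpace Ω] {P : Measure Ω} [IsProbabilityMeasure P]

/-- Garsia's maximal function. -/
noncomputable def MG (T : Ω → Ω) (g : Ω → ℝ) : ℕ → Ω → ℝ
  | 0, _ => 0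
  | n + 1, ω => max 0 (g ω + MG T g n (T ω))

theorem MG_nonneg (T : Ω → Ω) (g : Ω → ℝ) (n : ℕ) (ω : Ω) : 0 ≤ MG T g n ω := by
  cases n with
  | zero => exact le_rfl
  | succ n => exact le_max_left _ _

theorem MG_le_succ (T : Ω → Ω) (g : Ω → ℝ) (n : ℕ) (ω : Ω) : MG T g n ω ≤ MG T g (n + 1) ω := by
  induction n generalizing ω with
  | zero => exact MG_nonneg T g 1 ω
  | succ n ih =>
    rw [MG, MG]
    exact max_le_max_left 0 (by linarith [ih (T ω)])

theorem MG_mono (T : Ω → Ω) (g : Ω → ℝ) (ω : Ω) : Monotone (fun n => MG T g n ω) :=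
  monotone_nat_of_le_succ (fun n => MG_le_succ T g n ω)

theorem sum_le_MG (T : Ω → Ω) (g : Ω → ℝ) (n : ℕ) (ω : Ω) :
    ∑ k ∈ range n, g (T^[k] ω) ≤ MG T g n ω := by
  induction n generalizing ω with
  | zero => simp [MG]
  | succ n ih =>
    rw [Finset.sum_range_succ', MG]
    refine le_trans ?_ (le_max_right _ _)
    have := ih (T ω)
    simp only [Function.iterate_succ, Function.comp, Function.iterate_zero, id_eq]
    linarith

theorem MG_measurable {T : Ω → Ω} {g : Ω → ℝ} (hT : Measurable T) (hg : Measurable g) (n : ℕ) :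
    Measurable (MG T g n) := by
  induction n with
  | zero => exact measurable_const
  | succ n ih => exact measurable_const.max (hg.add (ih.comp hT))

theorem MG_integrable {T : Ω → Ω} {g : Ω → ℝ} (hT : MeasurePreserving T P P)
    (hgm : Measurable g) (hg : Integrable g P) (n : ℕ) : Integrable (MG T g n) P := by
  induction n with
  | zero => exact integrable_zero _ _ _
  | succ n ih =>
    have h1 : Integrable (fun ω => MG T g n (T ω)) P := by
      have := (hT.integrable_comp (MG_measurable hT.measurable hgm n).aestronglyMeasurable).2 ih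
      exact this
    exact (integrable_zero _ _ _).sup (hg.add h1)

theorem garsia {T : Ω → Ω} {g : Ω → ℝ} (hT : MeasurePreserving T P P)
    (hgm : Measurable g) (hg : Integrable g P) (n : ℕ) :
    0 ≤ ∫ ω in {ω | 0 < MG T g n ω}, g ω ∂P := by
  cases n with
  | zero =>
    have : {ω : Ω | 0 < MG T g 0 ω} = ∅ := by
      ext ω
      simp [MG]
    rw [this]
    simp
  | succ n =>
    set M := MG T g (n + 1) with hM
    set E := {ω : Ω | 0 < M ω} with hE
    have hMm : Measurable M := MG_measurable hT.measurable hgm (n + 1)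
    have hEm : MeasurableSet E := measurableSet_lt measurable_const hMm
    have hMi : Integrable M P := MG_integrable hT hgm hg (n + 1)
    have hMTi : Integrable (fun ω => M (T ω)) P :=
      (hT.integrable_comp hMm.aestronglyMeasurable).2 hMi
    have h1 : ∫ ω in E, (M ω - M (T ω)) ∂P ≤ ∫ ω in E, g ω ∂P := by
      refine setIntegral_mono_on (hMi.integrableOn.sub hMTi.integrableOn) hg.integrableOn hEm ?_
      intro ω hω
      have h2 : 0 < M ω := hω
      have h3 : M ω = g ω + MG T g n (T ω) := by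
        rw [hM, MG] at h2 ⊢
        rcases le_total 0 (g ω + MG T g n (T ω)) with h | h
        · rw [max_eq_right h]
        · rw [max_eq_left h] at h2
          exact absurd h2 (lt_irrefl _)
      have h4 : MG T g n (T ω) ≤ M (T ω) := MG_le_succ T g n (T ω)
      linarith
    have h2 : ∫ ω in E, (M ω - M (T ω)) ∂P = ∫ ω in E, M ω ∂P - ∫ ω in E, M (T ω) ∂P :=
      integral_sub hMi.integrableOn hMTi.integrableOn
    have h3 : ∫ ω in E, M ω ∂P = ∫ ω, M ω ∂P := by
      refine setIntegral_eq_integral_of_forall_compl_eq_zero (fun ω hω => ?_)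
      have h4 : ¬ 0 < M ω := hω
      exact le_antisymm (not_lt.1 h4) (MG_nonneg T g (n + 1) ω)
    have h4 : ∫ ω in E, M (T ω) ∂P ≤ ∫ ω, M (T ω) ∂P :=
      setIntegral_le_integral hMTi (Filter.Eventually.of_forall (fun ω => MG_nonneg T g _ _))
    have h5 : ∫ ω, M (T ω) ∂P = ∫ ω, M ω ∂P := by
      conv_rhs => rw [← hT.map_eq]
      rw [integral_map hT.aemeasurable]
      exact hMm.aestronglyMeasurable
    linarith

/-- Maximal ergodic inequality. -/
theorem maximal_ineq {T : Ω → Ω} {r : Ω → ℝ} (hT : MeasurePreserving T P P)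
    (hrm : Measurable r) (hr : Integrable r P) (hr0 : ∀ ω, 0 ≤ r ω) {l : ℝ} (hl : 0 < l) :
    P {ω | ∃ n : ℕ, l * n < ∑ k ∈ range n, r (T^[k] ω)} ≤ ENNReal.ofReal ((∫ ω, r ω ∂P) / l) := by
  set g : Ω → ℝ := fun ω => r ω - l with hg
  have hgm : Measurable g := hrm.sub_const l
  have hgi : Integrable g P := hr.sub (integrable_const l)
  set E : ℕ → Set Ω := fun n => {ω | 0 < MG T g n ω} with hE
  have hEm : ∀ n, MeasurableSet (E n) := fun n =>
    measurableSet_lt measurable_const (MG_measurable hT.measurable hgm n)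
  have hEmono : Monotone E := by
    intro n n' hnn ω hω
    have h1 : 0 < MG T g n ω := hω
    exact lt_of_lt_of_le h1 (MG_mono T g ω hnn)
  have hsub : {ω | ∃ n : ℕ, l * n < ∑ k ∈ range n, r (T^[k] ω)} ⊆ ⋃ n, E n := by
    rintro ω ⟨n, hn⟩
    rw [Set.mem_iUnion]
    refine ⟨n, ?_⟩
    have h1 : 0 < ∑ k ∈ range n, g (T^[k] ω) := by
      rw [hg]
      simp only [Finset.sum_sub_distrib, Finset.sum_const, Finset.card_range, nsmul_eq_mul]
      linarith
    exact lt_of_lt_of_le h1 (sum_le_MG T g n ω)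
  have hEle : ∀ n, P (E n) ≤ ENNReal.ofReal ((∫ ω, r ω ∂P) / l) := by
    intro n
    have h1 := garsia hT hgm hgi n
    have h2 : ∫ ω in E n, g ω ∂P = ∫ ω in E n, r ω ∂P - l * (P (E n)).toReal := by
      rw [hg]
      rw [integral_sub hr.integrableOn (integrable_const l)]
      simp [Measure.real, mul_comm]
    have h3 : ∫ ω in E n, r ω ∂P ≤ ∫ ω, r ω ∂P :=
      setIntegral_le_integral hr (Filter.Eventually.of_forall hr0)
    have h4 : l * (P (E n)).toReal ≤ ∫ ω, r ω ∂P := by
      have h1' : 0 ≤ ∫ ω in E n, g ω ∂P := h1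
      linarith
    rw [← ENNReal.ofReal_toReal (measure_ne_top P (E n))]
    refine ENNReal.ofReal_le_ofReal ?_
    rw [le_div_iff₀ hl, mul_comm]
    exact h4
  refine (measure_mono hsub).trans ?_
  exact le_of_tendsto' (tendsto_measure_iUnion_atTop hEmono) hEle

end Maximal

/-! ### A deterministic lemma on averages -/

theorem sum_range_mul_blocks (g : ℕ → ℝ) (m n : ℕ) :
    ∑ z ∈ range (m * n), g z = ∑ r ∈ range m, ∑ k ∈ range n, g (r + m * k) := by
  induction n with
  | zero => simp
  | succ n ih =>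
    rw [Nat.mul_succ, Finset.sum_range_add, ih, ← Finset.sum_add_distrib]
    refine Finset.sum_congr rfl (fun r _ => ?_)
    rw [Finset.sum_range_succ, Nat.add_comm (m * n) r]

theorem average_blocks (g : ℕ → ℝ) (hg : ∀ n, 0 ≤ g n) (m : ℕ) (hm : 0 < m) (e : ℝ)
    (h : ∀ r < m, Tendsto (fun n : ℕ => (∑ k ∈ range n, g (r + m * k)) / n) atTop (𝓝 e)) :
    Tendsto (fun n : ℕ => (∑ z ∈ range n, g z) / n) atTop (𝓝 e) := by
  set s : ℕ → ℝ := fun n => ∑ z ∈ range n, g z with hs
  have hsmono : Monotone s := by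
    refine monotone_nat_of_le_succ (fun n => ?_)
    rw [hs]
    simp only
    rw [Finset.sum_range_succ]
    linarith [hg n]
  have hs0 : ∀ n, 0 ≤ s n := fun n => Finset.sum_nonneg (fun z _ => hg z)
  have hmR : (0 : ℝ) < m := by exact_mod_cast hm
  have h1 : Tendsto (fun n : ℕ => s (m * n) / n) atTop (𝓝 (m * e)) := by
    have h2 : Tendsto (fun n : ℕ => ∑ r ∈ range m, (∑ k ∈ range n, g (r + m * k)) / n) atTop
        (𝓝 (∑ _r ∈ range m, e)) :=
      tendsto_finsetSum _ (fun r hr => h r (Finset.mem_range.1 hr))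
    rw [Finset.sum_const, Finset.card_range, nsmul_eq_mul] at h2
    refine h2.congr (fun n => ?_)
    rw [hs]
    simp only
    rw [sum_range_mul_blocks, Finset.sum_div]
  have hdiv : Tendsto (fun n : ℕ => n / m) atTop atTop := Nat.tendsto_div_const_atTop hm.ne'
  have h2 : Tendsto (fun n : ℕ => s (m * (n / m)) / (n / m : ℕ)) atTop (𝓝 (m * e)) := h1.comp hdiv
  have h3 : Tendsto (fun n : ℕ => s (m * (n / m + 1)) / ((n / m + 1 : ℕ) : ℝ)) atTop
      (𝓝 (m * e)) := h1.comp ((tendsto_add_atTop_nat 1).comp hdiv)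
  have hinv : Tendsto (fun n : ℕ => (1 : ℝ) / n) atTop (𝓝 0) := tendsto_one_div_atTop_nhds_zero_nat
  have hratio : Tendsto (fun n : ℕ => ((n / m : ℕ) : ℝ) / n) atTop (𝓝 (1 / m)) := by
    have hlow : Tendsto (fun n : ℕ => 1 / (m : ℝ) - 1 / n) atTop (𝓝 (1 / m - 0)) :=
      tendsto_const_nhds.sub hinv
    rw [sub_zero] at hlow
    refine tendsto_of_tendsto_of_tendsto_of_le_of_le' hlow tendsto_const_nhds ?_ ?_
    · filter_upwards [eventually_gt_atTop 0] with n hn
      have hnR : (0 : ℝ) < n := by exact_mod_cast hn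
      have h5 : n < m * (n / m) + m := by
        have := Nat.div_add_mod n m
        have := Nat.mod_lt n hm
        omega
      have h6 : (n : ℝ) < m * ((n / m : ℕ) : ℝ) + m := by exact_mod_cast h5
      rw [div_sub_div _ _ hmR.ne' hnR.ne', div_le_div_iff₀ (by positivity) hnR]
      nlinarith
    · filter_upwards [eventually_gt_atTop 0] with n hn
      have hnR : (0 : ℝ) < n := by exact_mod_cast hn
      have h5 : m * (n / m) ≤ n := Nat.mul_div_le n m
      have h6 : (m : ℝ) * ((n / m : ℕ) : ℝ) ≤ n := by exact_mod_cast h5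
      rw [div_le_div_iff₀ hnR hmR]
      linarith
  have hratio' : Tendsto (fun n : ℕ => ((n / m + 1 : ℕ) : ℝ) / n) atTop (𝓝 (1 / m)) := by
    have h5 := hratio.add hinv
    rw [add_zero] at h5
    refine h5.congr (fun n => ?_)
    push_cast
    ring
  have hL := h2.mul hratio
  have hU := h3.mul hratio'
  have e1 : (m : ℝ) * e * (1 / m) = e := by field_simp
  rw [e1] at hL hU
  refine tendsto_of_tendsto_of_tendsto_of_le_of_le' hL hU ?_ ?_
  · filter_upwards [eventually_ge_atTop m] with n hn
    have hnR : (0 : ℝ) < n := by exact_mod_cast (lt_of_lt_of_le hm hn)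
    have hq : (0 : ℝ) < ((n / m : ℕ) : ℝ) := by exact_mod_cast Nat.div_pos hn hm
    have : s (m * (n / m)) / ((n / m : ℕ) : ℝ) * (((n / m : ℕ) : ℝ) / n) = s (m * (n / m)) / n := by
      field_simp
    rw [this]
    exact div_le_div_of_nonneg_right (hsmono (Nat.mul_div_le n m)) hnR.le
  · filter_upwards [eventually_ge_atTop m] with n hn
    have hnR : (0 : ℝ) < n := by exact_mod_cast (lt_of_lt_of_le hm hn)
    have hq : (0 : ℝ) < ((n / m + 1 : ℕ) : ℝ) := by exact_mod_cast Nat.succ_pos _
    have : s (m * (n / m + 1)) / ((n / m + 1 : ℕ) : ℝ) * (((n / m + 1 : ℕ) : ℝ) / n)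
        = s (m * (n / m + 1)) / n := by
      field_simp
    rw [this]
    refine div_le_div_of_nonneg_right (hsmono ?_) hnR.le
    have := Nat.div_add_mod n m
    have := Nat.mod_lt n hm
    rw [Nat.mul_succ]
    omega

/-! ### Local functions -/

variable {μ : Measure (ℕ → ℝ)} [IsProbabilityMeasure μ]

/-- Shift of a configuration. -/
def sh (a : ℤ) (ξ : Cfg) : Cfg := fun z => ξ (z + a)

theorem measurable_sh (a : ℤ) : Measurable (sh a) := measurable_shift a

theorem mp_sh (a : ℤ) : MeasurePreserving (sh a) (Lam μ) (Lam μ) := ⟨measurable_sh a, lam_shift a⟩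

theorem sh_iterate (k : ℕ) (ξ : Cfg) : (sh 1)^[k] ξ = sh k ξ := by
  induction k generalizing ξ with
  | zero =>
    simp only [Function.iterate_zero, id_eq]
    ext z i
    simp [sh]
  | succ k ih =>
    rw [Function.iterate_succ, Function.comp, ih]
    ext z i
    unfold sh
    push_cast
    rw [add_assoc]

/-- `h` depends only on the rows in `[0, m)`. -/
def Local (m : ℕ) (h : Cfg → ℝ) : Prop :=
  ∀ ξ ξ' : Cfg, (∀ z : ℤ, 0 ≤ z → z < m → ξ z = ξ' z) → h ξ = h ξ'

theorem indep_local {m : ℕ} {h : Cfg → ℝ} (hm : Measurable h) (hloc : Local m h) (a b : ℤ)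
    (hab : a + m ≤ b) :
    IndepFun (fun ξ => h (sh a ξ)) (fun ξ => h (sh b ξ)) (Lam μ) := by
  set S : Finset ℤ := Finset.Ico a (a + m) with hS
  set T : Finset ℤ := Finset.Ico b (b + m) with hT
  have hdisj : Disjoint S T := by
    rw [Finset.disjoint_left]
    intro z hz hz'
    have h1 := (Finset.mem_Ico.1 hz).2
    have h2 := (Finset.mem_Ico.1 hz').1
    omega
  have hind : iIndepFun (fun (z : ℤ) (ξ : Cfg) => ξ z) (Lam μ) :=
    iIndepFun_infinitePi (P := fun _ : ℤ => rho μ) (X := fun _ r => r) (fun _ => measurable_id)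
  have hfin := hind.indepFun_finset S T hdisj (fun z => measurable_pi_apply z)
  -- factor through the restrictions
  have hfac : ∀ (c : ℤ) (R : Finset ℤ), R = Finset.Ico c (c + m) →
      ∃ H : (R → (ℕ → Bool)) → ℝ, Measurable H ∧
        (fun ξ : Cfg => h (sh c ξ)) = H ∘ (fun ξ (i : R) => ξ i) := by
    intro c R hR
    refine ⟨fun η => h (sh c (fun z => if hz : z ∈ R then η ⟨z, hz⟩ else fun _ => false)), ?_, ?_⟩
    · refine hm.comp ((measurable_sh c).comp ?_)
      rw [measurable_pi_iff]
      intro z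
      by_cases hz : z ∈ R
      · simp only [dif_pos hz]
        exact measurable_pi_apply _
      · simp only [dif_neg hz]
        exact measurable_const
    · funext ξ
      refine hloc _ _ (fun z hz1 hz2 => ?_)
      unfold sh
      have : z + c ∈ R := by
        rw [hR, Finset.mem_Ico]
        omega
      simp only
      rw [dif_pos this]
  obtain ⟨H1, hH1, e1⟩ := hfac a S hS
  obtain ⟨H2, hH2, e2⟩ := hfac b T hT
  rw [e1, e2]
  exact hfin.comp hH1 hH2

theorem local_slln {m : ℕ} {h : Cfg → ℝ} (hm : Measurable h) (hloc : Local m h) (hmpos : 0 < m)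
    (hh : Integrable h (Lam μ)) (h0 : ∀ ξ, 0 ≤ h ξ) :
    ∀ᵐ ξ ∂(Lam μ), Tendsto (fun n : ℕ => (∑ z ∈ range n, h (sh z ξ)) / n) atTop
      (𝓝 (∫ ξ, h ξ ∂(Lam μ))) := by
  have hr : ∀ r : ℕ, ∀ᵐ ξ ∂(Lam μ), Tendsto (fun n : ℕ =>
      (∑ k ∈ range n, h (sh ((r + m * k : ℕ) : ℤ) ξ)) / n) atTop (𝓝 (∫ ξ, h ξ ∂(Lam μ))) := by
    intro r
    have hident : ∀ a : ℤ, IdentDistrib (fun ξ => h (sh a ξ)) h (Lam μ) (Lam μ) := by
      intro a
      refine ⟨(hm.comp (measurable_sh a)).aemeasurable, hm.aemeasurable, ?_⟩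
      have h1 := (mp_sh (μ := μ) a).map_eq
      conv_rhs => rw [← h1]
      rw [Measure.map_map hm (measurable_sh a)]
      rfl
    have h1 := strong_law_ae_real (μ := Lam μ) (fun k ξ => h (sh ((r + m * k : ℕ) : ℤ) ξ))
      (((hident _).integrable_iff).2 hh)
      (by
        intro k k' hne
        rcases lt_or_gt_of_ne hne with hlt | hlt
        · refine indep_local hm hloc _ _ ?_
          have : m * k + m ≤ m * k' := by
            calc m * k + m = m * (k + 1) := by ring
              _ ≤ m * k' := Nat.mul_le_mul_left _ hlt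
          push_cast
          have h2 : (m : ℤ) * k + m ≤ m * k' := by exact_mod_cast this
          linarith
        · refine (indep_local hm hloc _ _ ?_).symm
          have : m * k' + m ≤ m * k := by
            calc m * k' + m = m * (k' + 1) := by ring
              _ ≤ m * k := Nat.mul_le_mul_left _ hlt
          push_cast
          have h2 : (m : ℤ) * k' + m ≤ m * k := by exact_mod_cast this
          linarith)
      (fun k => (hident _).trans (hident _).symm)
    have h2 : ∫ ξ, h (sh ((r + m * 0 : ℕ) : ℤ) ξ) ∂(Lam μ) = ∫ ξ, h ξ ∂(Lam μ) :=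
      (hident _).integral_eq
    rw [h2] at h1
    exact h1
  filter_upwards [ae_all_iff.2 hr] with ξ hξ
  exact average_blocks (fun z => h (sh (z : ℤ) ξ)) (fun z => h0 _) m hmpos _ (fun r _ => hξ r)

end Pool.Agent.Work.MP_7ca543_pr
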