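import Pool.Agent.Work.MP_7ca543_pr.Full

/-!
# Almost sure statements in the case `δ > 2`, and the main theorem on coins
-/

set_option linter.unusedSectionVars false

namespace Pool.Agent.Work.MP_7ca543_pr

open MeasureTheory Measure ProbabilityTheory Finset Filter Topology
open scoped ENNReal

variable {μ : Measure (ℕ → ℝ)} [IsProbabilityMeasure μ]

theorem Wsup_sh_update (ξ : Cfg) (a z : ℤ) (h : z < a) (r : ℕ → Bool) :
    Wsup (sh a (Function.update ξ z r)) = Wsup (sh a ξ) := by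
  unfold Wsup
  refine iSup_congr (fun i => ?_)
  rw [V_sh, V_sh, V_update ξ _ z i (by linarith) r]

theorem Dz_update (ξ : Cfg) (a z : ℤ) (h : z < a) (r : ℕ → Bool) :
    Dz (Function.update ξ z r) a = Dz ξ a := by
  unfold Dz Vinf
  rw [Wsup_sh_update ξ a z h r]

theorem measurable_Dz (a : ℤ) : Measurable (fun ξ => Dz ξ a) :=
  measurable_Vinf.comp (measurable_sh a)

theorem ae_spec (hμ : PosLaw μ) (hfin : ∫⁻ ξ, Wsup ξ ∂(Lam μ) ≠ ⊤) :
    ∀ᵐ ξ ∂(Lam μ), (∀ z, Good (ξ z)) ∧ ∀ z, Wsup (sh z ξ) ≠ ⊤ := by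
  have h1 : ∀ᵐ ξ ∂(Lam μ), Wsup ξ < ⊤ := ae_lt_top measurable_Wsup hfin
  have h2 : ∀ᵐ ξ ∂(Lam μ), ∀ z : ℤ, Wsup (sh z ξ) ≠ ⊤ := by
    rw [ae_all_iff]
    intro z
    have := (mp_sh (μ := μ) z).quasiMeasurePreserving.ae h1
    filter_upwards [this] with ξ hξ
    exact hξ.ne
  filter_upwards [ae_good_all hμ, h2] with ξ h3 h4
  exact ⟨h3, h4⟩

theorem ae_zero (hμ : PosLaw μ) (hfin : ∫⁻ ξ, Wsup ξ ∂(Lam μ) ≠ ⊤) :
    ∀ᵐ ξ ∂(Lam μ), ∃ m : ℕ, Dz ξ (-m) = 0 := by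
  set B : ℕ → Set Cfg := fun m => {ξ | ∀ j < m, Dz ξ (-(j : ℕ)) ≠ 0} with hB
  have hBm : ∀ m, MeasurableSet (B m) := by
    intro m
    have e : B m = ⋂ j ∈ Finset.range m, {ξ : Cfg | Dz ξ (-(j : ℕ)) ≠ 0} := by
      ext ξ
      simp [hB]
    rw [e]
    refine Finset.measurableSet_biInter _ (fun j _ => ?_)
    have h1 : MeasurableSet {ξ : Cfg | Dz ξ (-(j : ℕ)) = 0} :=
      (measurable_Dz (-(j : ℕ))) (measurableSet_singleton 0)
    exact h1.compl
  have hDfin : ∀ a : ℤ, ∫⁻ ξ, (Dz ξ a : ℝ≥0∞) ∂(Lam μ) = ∫⁻ ξ, Wsup ξ ∂(Lam μ) := by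
    intro a
    have h1 : ∫⁻ ξ, Wsup (sh a ξ) ∂(Lam μ) = ∫⁻ ξ, Wsup ξ ∂(Lam μ) :=
      lintegral_shift a measurable_Wsup
    rw [← h1]
    refine lintegral_congr_ae ?_
    filter_upwards [ae_spec hμ hfin] with ξ hξ
    exact (Vinf_spec (good_sh hξ.1 a) (hξ.2 a)).2.symm
  -- one step
  have hstep : ∀ (K m : ℕ), 1 ≤ m →
      (Lam μ (B (m + 1))).toReal + (1 / 2 : ℝ) ^ (K + 1) *
        ((Lam μ (B m)).toReal - (∫⁻ ξ, Wsup ξ ∂(Lam μ)).toReal / (K + 1)) ≤ (Lam μ (B m)).toReal := by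
    intro K m hm
    set G : Set Cfg := {ξ | Dz ξ (-(m : ℕ)) = 0} with hG
    have hGm : MeasurableSet G := (measurable_Dz _) (measurableSet_singleton 0)
    set H : Set Cfg := {ξ | Dz ξ (-((m : ℕ) : ℤ) + 1) ≤ K} with hH
    have hHm : MeasurableSet H := (measurable_Dz _) (MeasurableSet.of_discrete (s := {x | x ≤ K}))
    have hsucc : B (m + 1) = B m \ G := by
      ext ξ
      simp only [hB, hG, Set.mem_ofPred_eq, Set.mem_sdiff]
      constructor
      · intro h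
        exact ⟨fun j hj => h j (by omega), h m (by omega)⟩
      · rintro ⟨h1, h2⟩ j hj
        rcases Nat.lt_or_ge j m with h3 | h3
        · exact h1 j h3
        · have : j = m := by omega
          rw [this]
          exact h2
    have hadd : Lam μ (B m ∩ G) + Lam μ (B (m + 1)) = Lam μ (B m) := by
      rw [hsucc]
      exact measure_inter_add_sdiff (B m) hGm
    -- the Markov property
    have hinvg : ∀ (ξ : Cfg) (r : ℕ → Bool),
        Dz (Function.update ξ (-((m : ℕ) : ℤ)) r) (-((m : ℕ) : ℤ) + 1)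
          = Dz ξ (-((m : ℕ) : ℤ) + 1) := fun ξ r => Dz_update ξ _ _ (by omega) r
    have hinvB : ∀ (ξ : Cfg) (r : ℕ → Bool),
        (B m).indicator (fun _ => (1 : ℝ≥0∞)) (Function.update ξ (-((m : ℕ) : ℤ)) r)
          = (B m).indicator (fun _ => (1 : ℝ≥0∞)) ξ := by
      intro ξ r
      have : (Function.update ξ (-((m : ℕ) : ℤ)) r ∈ B m) ↔ (ξ ∈ B m) := by
        simp only [hB, Set.mem_ofPred_eq]
        refine forall_congr' (fun j => imp_congr_right (fun hj => ?_))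
        rw [Dz_update ξ _ _ (by omega) r]
      by_cases h : ξ ∈ B m
      · rw [Set.indicator_of_mem h, Set.indicator_of_mem (this.2 h)]
      · rw [Set.indicator_of_notMem h, Set.indicator_of_notMem (fun h' => h (this.1 h'))]
    have hmk := one_step_weight (μ := μ) (fun g => if g = 0 then 1 else 0) (-((m : ℕ) : ℤ))
      (measurable_Dz (-((m : ℕ) : ℤ) + 1)) hinvg (measurable_const.indicator (hBm m)) hinvB
    have hlhs : ∫⁻ ξ, (B m).indicator (fun _ => (1 : ℝ≥0∞)) ξ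
          * (if F (ξ (-((m : ℕ) : ℤ))) (Dz ξ (-((m : ℕ) : ℤ) + 1)) = 0 then 1 else 0) ∂(Lam μ)
        = Lam μ (B m ∩ G) := by
      rw [← lintegral_indicator_one ((hBm m).inter hGm)]
      refine lintegral_congr_ae ?_
      filter_upwards [ae_spec hμ hfin] with ξ hξ
      have h1 := (Dz_spec hξ.1 hξ.2 (-((m : ℕ) : ℤ))).F_eq
      rw [h1]
      by_cases h2 : ξ ∈ B m
      · by_cases h3 : Dz ξ (-((m : ℕ) : ℤ)) = 0
        · have h4 : ξ ∈ B m ∩ G := ⟨h2, h3⟩
          rw [Set.indicator_of_mem h2, if_pos h3, Set.indicator_of_mem h4]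
          simp
        · rw [Set.indicator_of_mem h2, if_neg h3, Set.indicator_of_notMem (fun h => h3 h.2)]
          simp
      · rw [Set.indicator_of_notMem h2, Set.indicator_of_notMem (fun h => h2 h.1)]
        simp
    rw [hlhs] at hmk
    have hrhs : ENNReal.ofReal ((1 / 2 : ℝ) ^ (K + 1)) * Lam μ (B m ∩ H) ≤ Lam μ (B m ∩ G) := by
      rw [hmk]
      calc ENNReal.ofReal ((1 / 2 : ℝ) ^ (K + 1)) * Lam μ (B m ∩ H)
          = ∫⁻ ξ, (B m ∩ H).indicator (fun _ => ENNReal.ofReal ((1 / 2 : ℝ) ^ (K + 1))) ξ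
              ∂(Lam μ) := by
            rw [lintegral_indicator ((hBm m).inter hHm), lintegral_const,
              Measure.restrict_apply MeasurableSet.univ, Set.univ_inter]
        _ ≤ _ := by
            refine lintegral_mono (fun ξ => ?_)
            by_cases h2 : ξ ∈ B m ∩ H
            · rw [Set.indicator_of_mem h2, Set.indicator_of_mem h2.1, one_mul]
              refine le_trans (ENNReal.ofReal_le_ofReal ?_) (PP_zero_ge hμ _)
              have h3 : Dz ξ (-((m : ℕ) : ℤ) + 1) ≤ K := h2.2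
              exact pow_le_pow_of_le_one (by norm_num) (by norm_num) (by omega)
            · rw [Set.indicator_of_notMem h2]
              exact bot_le
    -- Markov inequality
    have hmarkov : (Lam μ Hᶜ).toReal ≤ (∫⁻ ξ, Wsup ξ ∂(Lam μ)).toReal / (K + 1) := by
      have h1 := mul_meas_ge_le_lintegral (μ := Lam μ)
        (f := fun ξ => (Dz ξ (-((m : ℕ) : ℤ) + 1) : ℝ≥0∞))
        ((Measurable.of_discrete (f := fun n : ℕ => (n : ℝ≥0∞))).comp (measurable_Dz _))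
        ((K + 1 : ℕ) : ℝ≥0∞)
      rw [hDfin] at h1
      have h2 : {ξ : Cfg | ((K + 1 : ℕ) : ℝ≥0∞) ≤ (Dz ξ (-((m : ℕ) : ℤ) + 1) : ℝ≥0∞)} = Hᶜ := by
        ext ξ
        simp only [Set.mem_ofPred_eq, hH, Set.mem_compl_iff, not_le]
        constructor
        · intro h
          have : K + 1 ≤ Dz ξ (-((m : ℕ) : ℤ) + 1) := by exact_mod_cast h
          omega
        · intro h
          have : K + 1 ≤ Dz ξ (-((m : ℕ) : ℤ) + 1) := by omega
          exact_mod_cast this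
      rw [h2] at h1
      have h3 := ENNReal.toReal_mono hfin h1
      rw [ENNReal.toReal_mul, ENNReal.toReal_natCast] at h3
      push_cast at h3
      rw [le_div_iff₀ (by positivity)]
      linarith
    have h1 : (Lam μ (B m)).toReal ≤ (Lam μ (B m ∩ H)).toReal + (Lam μ Hᶜ).toReal := by
      rw [← ENNReal.toReal_add (measure_ne_top _ _) (measure_ne_top _ _)]
      refine ENNReal.toReal_mono (by finiteness) ?_
      rw [← measure_inter_add_sdiff (B m) hHm]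
      gcongr
      exact fun ξ hξ => hξ.2
    have h2 : (1 / 2 : ℝ) ^ (K + 1) * (Lam μ (B m ∩ H)).toReal ≤ (Lam μ (B m ∩ G)).toReal := by
      have := ENNReal.toReal_mono (measure_ne_top _ _) hrhs
      rwa [ENNReal.toReal_mul, ENNReal.toReal_ofReal (by positivity)] at this
    have h3 : (Lam μ (B m ∩ G)).toReal + (Lam μ (B (m + 1))).toReal = (Lam μ (B m)).toReal := by
      rw [← hadd, ENNReal.toReal_add (measure_ne_top _ _) (measure_ne_top _ _)]
    have hcpos : (0 : ℝ) < (1 / 2 : ℝ) ^ (K + 1) := by positivity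
    nlinarith
  -- the probabilities tend to zero
  have hsmall : ∀ a : ℝ, 0 < a → ∃ m : ℕ, (Lam μ (B m)).toReal < a := by
    intro a ha
    by_contra hcon
    push Not at hcon
    set I : ℝ := (∫⁻ ξ, Wsup ξ ∂(Lam μ)).toReal with hI
    have hI0 : 0 ≤ I := ENNReal.toReal_nonneg
    obtain ⟨K, hK⟩ := exists_nat_gt (I / (a / 2))
    rw [div_lt_iff₀ (by positivity)] at hK
    have hIK : I / (K + 1) ≤ a / 2 := by
      rw [div_le_iff₀ (by positivity)]
      nlinarith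
    set c : ℝ := (1 / 2 : ℝ) ^ (K + 1) * (a / 2) with hc
    have hcpos : 0 < c := by positivity
    have hdec : ∀ m : ℕ, (Lam μ (B (m + 1))).toReal ≤ 1 - c * m := by
      intro m
      induction m with
      | zero =>
        simp only [Nat.cast_zero, mul_zero, sub_zero]
        exact ENNReal.toReal_mono (by finiteness) prob_le_one |>.trans (by simp)
      | succ m ih =>
        have h1 := hstep K (m + 1) (by omega)
        have h2 := hcon (m + 1)
        have h3 : c ≤ (1 / 2 : ℝ) ^ (K + 1) * ((Lam μ (B (m + 1))).toReal - I / (K + 1)) := by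
          rw [hc]
          exact mul_le_mul_of_nonneg_left (by linarith) (by positivity)
        push_cast
        linarith
    obtain ⟨m, hm⟩ := exists_nat_gt (1 / c)
    rw [div_lt_iff₀ hcpos] at hm
    have h1 := hdec m
    have h2 : 0 ≤ (Lam μ (B (m + 1))).toReal := ENNReal.toReal_nonneg
    linarith
  have hzero : Lam μ {ξ | ¬ ∃ m : ℕ, Dz ξ (-m) = 0} = 0 := by
    by_contra hne
    have hpos : 0 < (Lam μ {ξ | ¬ ∃ m : ℕ, Dz ξ (-m) = 0}).toReal :=
      ENNReal.toReal_pos hne (measure_ne_top _ _)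
    obtain ⟨m, hm⟩ := hsmall _ hpos
    have : (Lam μ {ξ | ¬ ∃ m : ℕ, Dz ξ (-m) = 0}).toReal ≤ (Lam μ (B m)).toReal := by
      refine ENNReal.toReal_mono (measure_ne_top _ _) (measure_mono ?_)
      intro ξ hξ j _ h0
      exact hξ ⟨j, h0⟩
    linarith
  exact hzero

/-- Choice of a local approximation. -/
theorem exists_local (hμ : PosLaw μ) (hfin : ∫⁻ ξ, Wsup ξ ∂(Lam μ) ≠ ⊤) (κ : ℝ)
    (hκ : κ < (∫⁻ ξ, Wsup ξ ∂(Lam μ)).toReal) :
    ∃ m K : ℕ, 0 < m ∧ κ < ∫ ξ, hK m K ξ ∂(Lam μ) := by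
  rcases lt_or_ge κ 0 with h0 | h0
  · refine ⟨1, 0, by omega, ?_⟩
    rw [integral_hK]
    exact lt_of_lt_of_le h0 ENNReal.toReal_nonneg
  · have h1 : ENNReal.ofReal κ < ∫⁻ ξ, Wsup ξ ∂(Lam μ) :=
      (ENNReal.ofReal_lt_iff_lt_toReal h0 hfin).2 hκ
    rw [lintegral_Wsup hμ] at h1
    obtain ⟨i, hi⟩ := lt_iSup_iff.1 h1
    have h3 : mI μ (fun g => (g : ℝ≥0∞)) i
        = ⨆ K : ℕ, mI μ (fun g => ((min g K : ℕ) : ℝ≥0∞)) i := by
      unfold mI
      rw [← lintegral_iSup (fun K => measurable_phi_V (fun g => ((min g K : ℕ) : ℝ≥0∞)) 0 i)]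
      · refine lintegral_congr (fun ξ => ?_)
        refine le_antisymm ?_ (iSup_le (fun K => ?_))
        · refine le_trans ?_ (le_iSup _ (V ξ 0 i))
          rw [min_self]
        · have : min (V ξ 0 i) K ≤ V ξ 0 i := min_le_left _ _
          show ((min (V ξ 0 i) K : ℕ) : ℝ≥0∞) ≤ (V ξ 0 i : ℝ≥0∞)
          exact_mod_cast this
      · intro K K' hK ξ
        simp only
        exact_mod_cast min_le_min_left _ hK
    rw [h3] at hi
    obtain ⟨K, hK'⟩ := lt_iSup_iff.1 hi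
    have hmono : Monotone (fun g : ℕ => ((min g K : ℕ) : ℝ≥0∞)) := by
      intro x y hxy
      simp only
      exact_mod_cast min_le_min_right K hxy
    refine ⟨i + 1, K, by omega, ?_⟩
    rw [integral_hK]
    have hne : mI μ (fun g => ((min g K : ℕ) : ℝ≥0∞)) (i + 1) ≠ ⊤ := by
      refine ne_top_of_le_ne_top (b := (K : ℝ≥0∞)) (by finiteness) ?_
      refine (mI_le (ψ := fun _ => (K : ℝ≥0∞)) (fun g => ?_) _).trans (mI_const _ _).le
      exact_mod_cast min_le_right _ _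
    exact (ENNReal.ofReal_lt_iff_lt_toReal h0 hne).1
      (lt_of_lt_of_le hK' (mI_mono_succ hμ hmono i))

theorem integral_Vinf (hμ : PosLaw μ) (hfin : ∫⁻ ξ, Wsup ξ ∂(Lam μ) ≠ ⊤) :
    Integrable (fun ξ => (Vinf ξ : ℝ)) (Lam μ) ∧
      ∫ ξ, (Vinf ξ : ℝ) ∂(Lam μ) = (∫⁻ ξ, Wsup ξ ∂(Lam μ)).toReal := by
  have hae : (fun ξ => (Wsup ξ).toReal) =ᵐ[Lam μ] (fun ξ => (Vinf ξ : ℝ)) := by
    filter_upwards [ae_good_all hμ, ae_lt_top measurable_Wsup hfin] with ξ h1 h2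
    rw [(Vinf_spec h1 h2.ne).2]
    simp
  constructor
  · exact (integrable_toReal_of_lintegral_ne_top measurable_Wsup.aemeasurable hfin).congr hae
  · rw [← integral_congr_ae hae, integral_toReal measurable_Wsup.aemeasurable
      (ae_lt_top measurable_Wsup hfin)]

theorem ae_UB (hμ : PosLaw μ) (hfin : ∫⁻ ξ, Wsup ξ ∂(Lam μ) ≠ ⊤) (κ : ℝ)
    (hκ : (∫⁻ ξ, Wsup ξ ∂(Lam μ)).toReal < κ) : ∀ᵐ ξ ∂(Lam μ), UB ξ κ := by
  set e : ℝ := (∫⁻ ξ, Wsup ξ ∂(Lam μ)).toReal with he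
  set l : ℝ := (κ - e) / 2 with hl
  have hlpos : 0 < l := by rw [hl]; linarith
  obtain ⟨hVi, hVe⟩ := integral_Vinf hμ hfin
  have hbound : ∀ ε : ℝ, 0 < ε → Lam μ {ξ | ¬ UB ξ κ} ≤ ENNReal.ofReal (ε / l) := by
    intro ε hε
    obtain ⟨m, K, hm, hmK⟩ := exists_local hμ hfin (e - ε) (by linarith)
    set r : Cfg → ℝ := fun ξ => ((Vinf ξ - min (V ξ m m) K : ℕ) : ℝ) with hr
    have hle : ∀ᵐ ξ ∂(Lam μ), min (V ξ m m) K ≤ Vinf ξ := by
      filter_upwards [ae_good_all hμ, ae_lt_top measurable_Wsup hfin] with ξ h1 h2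
      refine (min_le_left _ _).trans ?_
      obtain ⟨n, hn⟩ := (Vinf_spec h1 h2.ne).1
      rw [← hn (max n m) (le_max_left _ _)]
      exact V_diag_mono h1 (le_max_right _ _)
    have hrae : r =ᵐ[Lam μ] fun ξ => (Vinf ξ : ℝ) - hK m K ξ := by
      filter_upwards [hle] with ξ hξ
      rw [hr]
      simp only
      rw [Nat.cast_sub hξ]
      rfl
    have hrm : Measurable r := by
      have h1 : Measurable (fun q : ℕ × ℕ => ((q.1 - min q.2 K : ℕ) : ℝ)) := Measurable.of_discrete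
      exact h1.comp (measurable_Vinf.prodMk (measurable_V m m))
    have hri : Integrable r (Lam μ) := (hVi.sub (integrable_hK m K)).congr hrae.symm
    have hrI : ∫ ξ, r ξ ∂(Lam μ) < ε := by
      rw [integral_congr_ae hrae, integral_sub hVi (integrable_hK m K), hVe]
      linarith
    have hhe : ∫ ξ, hK m K ξ ∂(Lam μ) ≤ e := by
      have h1 : 0 ≤ ∫ ξ, r ξ ∂(Lam μ) := integral_nonneg (fun ξ => Nat.cast_nonneg _)
      rw [integral_congr_ae hrae, integral_sub hVi (integrable_hK m K), hVe] at h1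
      linarith
    have hmax := maximal_ineq (mp_sh (μ := μ) 1) hrm hri (fun ξ => Nat.cast_nonneg _) hlpos
    have hslln := local_slln (μ := μ) (measurable_hK m K) (local_hK m K) hm (integrable_hK m K)
      (hK_nonneg m K)
    refine le_trans (measure_mono_ae ?_) (hmax.trans (ENNReal.ofReal_le_ofReal ?_))
    · filter_upwards [hslln] with ξ h1 hnot
      by_contra hgood
      have hgood' : ∀ n : ℕ, ∑ k ∈ range n, r ((sh 1)^[k] ξ) ≤ l * n := by
        intro n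
        by_contra h
        exact hgood ⟨n, not_le.1 h⟩
      apply hnot
      have h2 : ∀ᶠ n : ℕ in atTop, (∑ z ∈ range n, hK m K (sh z ξ)) / n
          < ∫ ξ, hK m K ξ ∂(Lam μ) + l / 2 :=
        h1.eventually (gt_mem_nhds (by linarith))
      obtain ⟨n0, hn0⟩ := eventually_atTop.1 h2
      refine ⟨n0 + 1, fun n hn => ?_⟩
      have hnpos : (0 : ℝ) < n := by exact_mod_cast (by omega : 0 < n)
      have h3 := hn0 n (by omega)
      rw [div_lt_iff₀ hnpos] at h3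
      have h4 := hgood' n
      have h5 : ∑ z ∈ range n, (Dz ξ (z : ℤ) : ℝ)
          ≤ ∑ z ∈ range n, hK m K (sh z ξ) + ∑ k ∈ range n, r ((sh 1)^[k] ξ) := by
        rw [← Finset.sum_add_distrib]
        refine Finset.sum_le_sum (fun z _ => ?_)
        rw [sh_iterate, hr]
        unfold hK Dz
        show ((Vinf (sh (z : ℤ) ξ) : ℕ) : ℝ) ≤ ((min (V (sh (z : ℤ) ξ) m m) K : ℕ) : ℝ)
          + ((Vinf (sh (z : ℤ) ξ) - min (V (sh (z : ℤ) ξ) m m) K : ℕ) : ℝ)
        have : Vinf (sh (z : ℤ) ξ) ≤ min (V (sh (z : ℤ) ξ) m m) K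
            + (Vinf (sh (z : ℤ) ξ) - min (V (sh (z : ℤ) ξ) m m) K) := by omega
        exact_mod_cast this
      have h6 : κ = e + 2 * l := by rw [hl]; ring
      rw [h6]
      nlinarith
    · exact div_le_div_of_nonneg_right hrI.le hlpos.le
  have hzero : Lam μ {ξ | ¬ UB ξ κ} = 0 := by
    by_contra hne
    have hpos : 0 < (Lam μ {ξ | ¬ UB ξ κ}).toReal := ENNReal.toReal_pos hne (measure_ne_top _ _)
    set s := (Lam μ {ξ | ¬ UB ξ κ}).toReal with hs
    have h1 := hbound (l * s / 2) (by positivity)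
    have h2 : (l * s / 2) / l = s / 2 := by field_simp
    rw [h2] at h1
    have h3 := ENNReal.toReal_mono (by finiteness) h1
    rw [ENNReal.toReal_ofReal (by positivity), ← hs] at h3
    linarith
  exact hzero

theorem LB_mono {ξ : Cfg} {κ κ' : ℝ} (h : κ ≤ κ') (hLB : LB ξ κ') : LB ξ κ := by
  obtain ⟨n0, hn0⟩ := hLB
  refine ⟨n0, fun n hn t ht => ?_⟩
  have h1 := hn0 n hn t ht
  have h2 : (0 : ℝ) ≤ n := Nat.cast_nonneg n
  nlinarith

theorem UB_mono {ξ : Cfg} {κ κ' : ℝ} (h : κ ≤ κ') (hUB : UB ξ κ) : UB ξ κ' := by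
  obtain ⟨n0, hn0⟩ := hUB
  refine ⟨n0, fun n hn => ?_⟩
  have h1 := hn0 n hn
  have h2 : (0 : ℝ) ≤ n := Nat.cast_nonneg n
  nlinarith

theorem slln_pos (hμ : PosLaw μ) (hd : 2 < dbar μ) :
    ∃ v : ℝ, 0 < v ∧
      ∀ᵐ ξ ∂(Lam μ), Tendsto (fun t : ℕ => (pos ξ t : ℝ) / t) atTop (𝓝 v) := by
  obtain ⟨C, hC, hCle⟩ := mI_mean_bounded hμ hd
  have hfin : ∫⁻ ξ, Wsup ξ ∂(Lam μ) ≠ ⊤ := by
    rw [lintegral_Wsup hμ]
    exact ne_top_of_le_ne_top hC (iSup_le hCle)
  set e : ℝ := (∫⁻ ξ, Wsup ξ ∂(Lam μ)).toReal with he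
  have he0 : 0 ≤ e := ENNReal.toReal_nonneg
  refine ⟨1 / (1 + 2 * e), by positivity, ?_⟩
  have hLB : ∀ᵐ ξ ∂(Lam μ), ∀ j : ℕ, LB ξ (e - 1 / ((j : ℝ) + 1)) := by
    rw [ae_all_iff]
    intro j
    have hj : (0 : ℝ) < 1 / ((j : ℝ) + 1) := by positivity
    obtain ⟨m, K, hm, hmK⟩ := exists_local hμ hfin (e - 1 / ((j : ℝ) + 1)) (by linarith)
    exact ae_LB hμ m K hm _ hmK
  have hUB : ∀ᵐ ξ ∂(Lam μ), ∀ j : ℕ, UB ξ (e + 1 / ((j : ℝ) + 1)) := by
    rw [ae_all_iff]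
    intro j
    have hj : (0 : ℝ) < 1 / ((j : ℝ) + 1) := by positivity
    exact ae_UB hμ hfin _ (by linarith)
  filter_upwards [hLB, hUB, ae_spec hμ hfin, ae_zero hμ hfin] with ξ h1 h2 h3 h4
  refine speed_limit he0 (Dz_spec h3.1 h3.2) h4 ?_ ?_
  · intro κ hκ
    obtain ⟨j, hj⟩ := exists_nat_one_div_lt (sub_pos.2 hκ)
    exact LB_mono (by linarith) (h1 j)
  · intro κ hκ
    obtain ⟨j, hj⟩ := exists_nat_one_div_lt (sub_pos.2 hκ)
    exact UB_mono (by linarith) (h2 j)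

/-- Main theorem, on the space of coins. -/
theorem main_coins (hμ : PosLaw μ) (hwel : 0 < μ {w | ∀ i, w i < 1}) :
    ∃ v : ℝ, (∀ᵐ ξ ∂(Lam μ), Tendsto (fun t : ℕ => (pos ξ t : ℝ) / t) atTop (𝓝 v)) ∧
      (dbar μ ≤ 2 → v = 0) ∧ (2 < dbar μ → 0 < v) := by
  rcases le_or_gt (dbar μ) 2 with hd | hd
  · exact ⟨0, slln_zero hμ hwel hd, fun _ => rfl, fun h => absurd h (not_lt.2 hd)⟩
  · obtain ⟨v, hv, hlim⟩ := slln_pos hμ hd
    exact ⟨v, hlim, fun h => absurd hd (not_lt.2 h), fun _ => hv⟩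

end Pool.Agent.Work.MP_7ca543_pr
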