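import Pool.Agent.Work.MP_7ca543_pr.Ergodic

/-!
# The law of large numbers and the sign of the speed
-/

set_option linter.unusedSectionVars false

namespace Pool.Agent.Work.MP_7ca543_pr

open MeasureTheory Measure ProbabilityTheory Finset Filter Topology
open scoped ENNReal

variable {μ : Measure (ℕ → ℝ)} [IsProbabilityMeasure μ]

theorem V_sh (ξ : Cfg) (a n : ℤ) (i : ℕ) : V (sh a ξ) n i = V ξ (n + a) i := V_shift ξ a n i

theorem V_mono_add {ξ : Cfg} (h : ∀ z, Good (ξ z)) (n : ℤ) (i k : ℕ) :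
    V ξ n i ≤ V ξ (n + k) (i + k) := by
  induction k with
  | zero => simp
  | succ k ih =>
    refine ih.trans ?_
    have := V_mono h (n + k) (i + k)
    push_cast
    rw [← add_assoc]
    exact this

theorem good_sh {ξ : Cfg} (h : ∀ z, Good (ξ z)) (a : ℤ) : ∀ z, Good (sh a ξ z) := fun z => h (z + a)

/-- Truncated local approximation of the chain. -/
noncomputable def hK (m K : ℕ) (ξ : Cfg) : ℝ := ((min (V ξ m m) K : ℕ) : ℝ)

theorem hK_nonneg (m K : ℕ) (ξ : Cfg) : 0 ≤ hK m K ξ := Nat.cast_nonneg _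

theorem hK_le (m K : ℕ) (ξ : Cfg) : hK m K ξ ≤ K := by
  unfold hK
  exact_mod_cast min_le_right _ _

theorem measurable_hK (m K : ℕ) : Measurable (hK m K) := by
  have h1 : Measurable (fun n : ℕ => ((min n K : ℕ) : ℝ)) := Measurable.of_discrete
  exact h1.comp (measurable_V m m)

theorem integrable_hK (m K : ℕ) : Integrable (hK m K) (Lam μ) := by
  refine Integrable.mono' (integrable_const (K : ℝ)) (measurable_hK m K).aestronglyMeasurable ?_
  refine Filter.Eventually.of_forall (fun ξ => ?_)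
  rw [Real.norm_eq_abs, abs_of_nonneg (hK_nonneg m K ξ)]
  exact hK_le m K ξ

theorem V_local (m : ℕ) (ξ ξ' : Cfg) (h : ∀ z : ℤ, 0 ≤ z → z < m → ξ z = ξ' z) (i : ℕ)
    (hi : i ≤ m) : V ξ m i = V ξ' m i := by
  induction i with
  | zero => rfl
  | succ i ih =>
    rw [V, V, ih (by omega), h _ (by omega) (by omega)]

theorem local_hK (m K : ℕ) : Local m (hK m K) := by
  intro ξ ξ' h
  unfold hK
  rw [V_local m ξ ξ' h m le_rfl]

theorem integral_hK (m K : ℕ) :
    ∫ ξ, hK m K ξ ∂(Lam μ) = (mI μ (fun g => ((min g K : ℕ) : ℝ≥0∞)) m).toReal := by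
  rw [← mI_eq (fun g => ((min g K : ℕ) : ℝ≥0∞)) m m, ← integral_toReal]
  · refine integral_congr_ae (Filter.Eventually.of_forall (fun ξ => ?_))
    simp [hK]
  · exact (measurable_phi_V (fun g => ((min g K : ℕ) : ℝ≥0∞)) m m).aemeasurable
  · exact Filter.Eventually.of_forall (fun ξ => ENNReal.natCast_lt_top _)

/-- The lower bound for the hitting times in terms of shifts. -/
theorem hit_lower' {ξ : Cfg} (h : ∀ z, Good (ξ z)) (m K n t : ℕ) (hm : m ≤ n)
    (hpos : (n : ℤ) ≤ pos ξ t) :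
    (n : ℝ) + 2 * (∑ z ∈ range (n - m), hK m K (sh z ξ) - K) ≤ t := by
  have h1 := hit_lower ξ n t hpos
  have h2 : ∑ i ∈ range (n + 1), V ξ n i = ∑ i ∈ range n, V ξ n i + V ξ n n :=
    Finset.sum_range_succ _ _
  have h3 : n + 2 * ∑ i ∈ range n, V ξ n i ≤ t := by omega
  have h4 : ∑ z ∈ range (n - m), hK m K (sh (z + 1 : ℕ) ξ) ≤ ((∑ i ∈ range n, V ξ n i : ℕ) : ℝ) := by
    rw [← Finset.sum_range_reflect (fun i => V ξ n i) n]
    push_cast
    calc ∑ z ∈ range (n - m), hK m K (sh ((z + 1 : ℕ) : ℤ) ξ)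
        ≤ ∑ z ∈ range (n - m), ((V ξ n (n - 1 - z) : ℕ) : ℝ) := by
          refine Finset.sum_le_sum (fun z hz => ?_)
          have hz' := Finset.mem_range.1 hz
          unfold hK
          have h5 : min (V (sh ((z + 1 : ℕ) : ℤ) ξ) m m) K ≤ V ξ n (n - 1 - z) := by
            refine (min_le_left _ _).trans ?_
            rw [V_sh]
            have h6 := V_mono_add h ((m : ℤ) + ((z + 1 : ℕ) : ℤ)) m (n - m - (z + 1))
            have e1 : (m : ℤ) + ((z + 1 : ℕ) : ℤ) + ((n - m - (z + 1) : ℕ) : ℤ) = n := by omega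
            have e2 : m + (n - m - (z + 1)) = n - 1 - z := by omega
            rw [e1, e2] at h6
            exact h6
          exact_mod_cast h5
      _ ≤ _ := by
          refine Finset.sum_le_sum_of_subset_of_nonneg ?_ (fun _ _ _ => Nat.cast_nonneg _)
          exact Finset.range_mono (Nat.sub_le _ _)
  have h5 : ∑ z ∈ range (n - m), hK m K (sh z ξ)
      ≤ ∑ z ∈ range (n - m), hK m K (sh (z + 1 : ℕ) ξ) + K := by
    have e1 : ∑ z ∈ range (n - m + 1), hK m K (sh (z : ℕ) ξ)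
        = ∑ z ∈ range (n - m), hK m K (sh (z + 1 : ℕ) ξ) + hK m K (sh ((0 : ℕ) : ℤ) ξ) :=
      Finset.sum_range_succ' (fun z : ℕ => hK m K (sh (z : ℤ) ξ)) (n - m)
    have e2 : ∑ z ∈ range (n - m + 1), hK m K (sh (z : ℕ) ξ)
        = ∑ z ∈ range (n - m), hK m K (sh (z : ℕ) ξ) + hK m K (sh ((n - m : ℕ) : ℤ) ξ) :=
      Finset.sum_range_succ (fun z : ℕ => hK m K (sh (z : ℤ) ξ)) (n - m)
    have e3 := hK_nonneg m K (sh ((n - m : ℕ) : ℤ) ξ)
    have e4 := hK_le m K (sh ((0 : ℕ) : ℤ) ξ)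
    linarith
  have h6 : (n : ℝ) + 2 * ((∑ i ∈ range n, V ξ n i : ℕ) : ℝ) ≤ t := by exact_mod_cast h3
  linarith

/-- Lower bounds for hitting times with constant `κ`. -/
def LB (ξ : Cfg) (κ : ℝ) : Prop :=
  ∃ n0 : ℕ, ∀ n ≥ n0, ∀ t : ℕ, (n : ℤ) ≤ pos ξ t → (1 + 2 * κ) * n ≤ t

theorem ae_LB (hμ : PosLaw μ) (m K : ℕ) (hm : 0 < m) (κ : ℝ)
    (hκ : κ < ∫ ξ, hK m K ξ ∂(Lam μ)) : ∀ᵐ ξ ∂(Lam μ), LB ξ κ := by
  have h1 := local_slln (μ := μ) (measurable_hK m K) (local_hK m K) hm (integrable_hK m K)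
    (hK_nonneg m K)
  obtain ⟨κ', hκ1, hκ2⟩ := exists_between hκ
  filter_upwards [h1, ae_good_all hμ] with ξ h2 h3
  have h4 : ∀ᶠ n : ℕ in atTop, κ' < (∑ z ∈ range n, hK m K (sh z ξ)) / n :=
    h2.eventually (lt_mem_nhds hκ2)
  obtain ⟨n1, hn1⟩ := eventually_atTop.1 h4
  obtain ⟨n2, hn2⟩ := exists_nat_gt ((|κ'| * m + K) / (κ' - κ))
  have hκpos : 0 < κ' - κ := by linarith
  rw [div_lt_iff₀ hκpos] at hn2
  refine ⟨n1 + m + n2 + 1, fun n hn t hpos => ?_⟩
  have h5 := hit_lower' h3 m K n t (by omega) hpos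
  have h6 := hn1 (n - m) (by omega)
  have h7 : (0 : ℝ) < ((n - m : ℕ) : ℝ) := by exact_mod_cast (by omega : 0 < n - m)
  rw [lt_div_iff₀ h7] at h6
  have h8 : ((n - m : ℕ) : ℝ) = n - m := by
    rw [Nat.cast_sub (by omega)]
  rw [h8] at h6
  have h9 : (n2 : ℝ) ≤ n := by exact_mod_cast (by omega : n2 ≤ n)
  have h10 : κ' * m ≤ |κ'| * m := mul_le_mul_of_nonneg_right (le_abs_self _) (Nat.cast_nonneg _)
  nlinarith

/-! ### Case `δ ≤ 2` -/

theorem slln_zero (hμ : PosLaw μ) (hwel : 0 < μ {w | ∀ i, w i < 1}) (hd : dbar μ ≤ 2) :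
    ∀ᵐ ξ ∂(Lam μ), Tendsto (fun t : ℕ => (pos ξ t : ℝ) / t) atTop (𝓝 0) := by
  have h1 : ∀ B : ℕ, ∀ᵐ ξ ∂(Lam μ), LB ξ B := by
    intro B
    obtain ⟨i, K, hiK⟩ := mean_trunc_unbounded hμ hwel hd B (by finiteness)
    have hmono : Monotone (fun g : ℕ => ((min g K : ℕ) : ℝ≥0∞)) := by
      intro x y hxy
      simp only
      exact_mod_cast min_le_min_right K hxy
    have h2 : (B : ℝ≥0∞) < mI μ (fun g => ((min g K : ℕ) : ℝ≥0∞)) (i + 1) :=
      lt_of_lt_of_le hiK (mI_mono_succ hμ hmono i)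
    refine ae_LB hμ (i + 1) K (by omega) B ?_
    rw [integral_hK]
    have hne : mI μ (fun g => ((min g K : ℕ) : ℝ≥0∞)) (i + 1) ≠ ⊤ := by
      refine ne_top_of_le_ne_top (b := (K : ℝ≥0∞)) (by finiteness) ?_
      refine (mI_le (ψ := fun _ => (K : ℝ≥0∞)) (fun g => ?_) _).trans (mI_const _ _).le
      exact_mod_cast min_le_right _ _
    have h3 := (ENNReal.toReal_lt_toReal (by finiteness) hne).2 h2
    simpa using h3
  filter_upwards [ae_all_iff.2 h1, ae_lower hμ] with ξ h2 h3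
  rw [tendsto_order]
  constructor
  · intro a ha
    filter_upwards [h3 (-a) (by linarith), eventually_gt_atTop 0] with t ht ht0
    have : (0 : ℝ) < t := by exact_mod_cast ht0
    rw [lt_div_iff₀ this]
    linarith
  · intro b hb
    obtain ⟨B, hB⟩ := exists_nat_gt (1 / b)
    obtain ⟨n0, hn0⟩ := h2 B
    obtain ⟨n1, hn1⟩ := exists_nat_gt ((n0 : ℝ) / b)
    rw [div_lt_iff₀ hb] at hB hn1
    filter_upwards [eventually_ge_atTop (n1 + 1)] with t ht
    have htpos : (0 : ℝ) < t := by exact_mod_cast (by omega : 0 < t)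
    have hn1t : (n1 : ℝ) ≤ t := by exact_mod_cast (by omega : n1 ≤ t)
    rw [div_lt_iff₀ htpos]
    rcases lt_or_ge (pos ξ t) n0 with hlt | hge
    · have : (pos ξ t : ℝ) < n0 := by exact_mod_cast hlt
      nlinarith
    · obtain ⟨n, hn⟩ := Int.eq_ofNat_of_zero_le (le_trans (Int.natCast_nonneg n0) hge)
      have hnn : n0 ≤ n := by omega
      have h4 := hn0 n hnn t (by omega)
      have e : (pos ξ t : ℝ) = n := by rw [hn]; simp
      rw [e]
      rcases Nat.eq_zero_or_pos n with h0 | h0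
      · rw [h0]
        simp only [Nat.cast_zero]
        positivity
      · have hnpos : (0 : ℝ) < n := by exact_mod_cast h0
        have hBn : (0 : ℝ) ≤ B := Nat.cast_nonneg B
        nlinarith [mul_pos hnpos hb]

/-! ### Case `δ > 2` -/

/-- The limiting field. -/
noncomputable def Dz (ξ : Cfg) (z : ℤ) : ℕ := Vinf (sh z ξ)

theorem Dz_spec {ξ : Cfg} (h : ∀ z, Good (ξ z)) (hfin : ∀ z, Wsup (sh z ξ) ≠ ⊤) (z : ℤ) :
    IsG (ξ z) (Dz ξ (z + 1)) (Dz ξ z) := by
  obtain ⟨n1, hn1⟩ := (Vinf_spec (good_sh h z) (hfin z)).1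
  obtain ⟨n2, hn2⟩ := (Vinf_spec (good_sh h (z + 1)) (hfin (z + 1))).1
  set i := max n1 n2 with hi
  have h1 := hn1 (i + 1) (by omega)
  have h2 := hn2 i (by omega)
  rw [V] at h1
  have e1 : ((i + 1 : ℕ) : ℤ) - i - 1 = 0 := by push_cast; ring
  have e2 : V (sh z ξ) ((i + 1 : ℕ) : ℤ) i = V (sh (z + 1) ξ) i i := by
    rw [V_sh, V_sh]
    congr 1
    push_cast
    ring
  have e3 : sh z ξ 0 = ξ z := by
    unfold sh
    rw [zero_add]
  rw [e1, e2, e3, h2] at h1
  have h3 := (h z).isG (Vinf (sh (z + 1) ξ))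
  rw [h1] at h3
  exact h3

/-- The number of steps to the left from `z` is bounded by `Dz`. -/
theorem L_le_Dz {ξ : Cfg} {d : ℤ → ℕ} (hd : ∀ z, IsG (ξ z) (d (z + 1)) (d z)) (t : ℕ) (z : ℤ) :
    L ξ t z ≤ d z := by
  induction t generalizing z with
  | zero => exact Nat.zero_le _
  | succ t ih =>
    rcases step_cases ξ t with ⟨_, _, _, h3⟩ | ⟨hc, h1, _, h3⟩
    · rw [h3 z]
      exact ih z
    · rw [h3 z]
      by_cases hzx : z = pos ξ t
      · rw [if_pos hzx]
        subst hzx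
        have hf := flow ξ t (pos ξ t)
        have hnext := ih (pos ξ t + 1)
        rw [if_neg (by omega : ¬ (0 ≤ pos ξ t ∧ pos ξ t < pos ξ t))] at hf
        have hR : cnt (ξ (pos ξ t)) (N ξ t (pos ξ t)) ≤ d (pos ξ t + 1) := by
          have : cnt (ξ (pos ξ t)) (N ξ t (pos ξ t)) = R ξ t (pos ξ t) := rfl
          omega
        exact isG_step (hd _) hR hc
      · rw [if_neg hzx, add_zero]
        exact ih z

/-- Lower bound for the position. -/
theorem pos_lower {ξ : Cfg} {d : ℤ → ℕ} (hd : ∀ z, IsG (ξ z) (d (z + 1)) (d z)) (m n t : ℕ)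
    (hm : d (-m) = 0) (hn : ∀ k ≤ t, pos ξ k < n) :
    (t : ℤ) - 2 * ∑ z ∈ Finset.Ico (-(m : ℤ)) n, (d z : ℤ) ≤ pos ξ t := by
  have hge : ∀ k ≤ t, -(m : ℤ) ≤ pos ξ k := by
    intro k hk
    by_contra h
    push Not at h
    have h1 : L ξ k (-m) = 0 := by
      have := L_le_Dz hd k (-m)
      omega
    have hf := flow ξ k (-(m : ℤ) - 1)
    rw [if_pos ⟨by omega, by omega⟩, if_neg (by omega)] at hf
    have : -(m : ℤ) - 1 + 1 = -m := by ring
    rw [this] at hf
    omega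
  have hmem : ∀ k < t, pos ξ k ∈ Finset.Ico (-(m : ℤ)) n := by
    intro k hk
    rw [Finset.mem_Ico]
    exact ⟨hge k hk.le, hn k hk.le⟩
  have h1 := sum_N_eq ξ _ t hmem
  have h2 := sum_pos_eq ξ _ t hmem
  have h3 : (∑ z ∈ Finset.Ico (-(m : ℤ)) n, (N ξ t z : ℤ))
      = ∑ z ∈ Finset.Ico (-(m : ℤ)) n, (R ξ t z : ℤ)
        + ∑ z ∈ Finset.Ico (-(m : ℤ)) n, (L ξ t z : ℤ) := by
    rw [← Finset.sum_add_distrib]
    refine Finset.sum_congr rfl (fun z _ => ?_)
    have := R_add_L ξ t z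
    omega
  have h4 : (∑ z ∈ Finset.Ico (-(m : ℤ)) n, (N ξ t z : ℤ)) = t := by exact_mod_cast h1
  have h5 : ∑ z ∈ Finset.Ico (-(m : ℤ)) n, (L ξ t z : ℤ)
      ≤ ∑ z ∈ Finset.Ico (-(m : ℤ)) n, (d z : ℤ) :=
    Finset.sum_le_sum (fun z _ => by exact_mod_cast L_le_Dz hd t z)
  linarith

theorem sum_Ico_split (d : ℤ → ℕ) (m n : ℕ) :
    ∑ z ∈ Finset.Ico (-(m : ℤ)) n, (d z : ℤ)
      = ∑ z ∈ Finset.Ico (-(m : ℤ)) 0, (d z : ℤ) + ∑ z ∈ range n, (d (z : ℤ) : ℤ) := by
  have h1 : Finset.Ico (-(m : ℤ)) n = Finset.Ico (-(m : ℤ)) 0 ∪ Finset.Ico 0 (n : ℤ) := by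
    rw [Finset.Ico_union_Ico_eq_Ico (by omega) (by omega)]
  rw [h1, Finset.sum_union (Finset.Ico_disjoint_Ico_consecutive _ _ _)]
  congr 1
  refine Finset.sum_nbij' (fun z : ℤ => z.toNat) (fun i : ℕ => (i : ℤ)) ?_ ?_ ?_ ?_ ?_
  · intro z hz
    have := Finset.mem_Ico.1 hz
    rw [Finset.mem_range]
    omega
  · intro i hi
    have := Finset.mem_range.1 hi
    rw [Finset.mem_Ico]
    omega
  · intro z hz
    have := Finset.mem_Ico.1 hz
    omega
  · intro i hi
    simp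
  · intro z hz
    have := Finset.mem_Ico.1 hz
    have e : ((z.toNat : ℕ) : ℤ) = z := by omega
    rw [e]

/-- Upper bounds for the averages of the field. -/
def UB (ξ : Cfg) (κ : ℝ) : Prop :=
  ∃ n0 : ℕ, ∀ n ≥ n0, ∑ z ∈ range n, (Dz ξ (z : ℤ) : ℝ) ≤ κ * n

/-- The final deterministic argument. -/
theorem speed_limit {ξ : Cfg} {e : ℝ} (he : 0 ≤ e)
    (hD : ∀ z, IsG (ξ z) (Dz ξ (z + 1)) (Dz ξ z)) (hzero : ∃ m : ℕ, Dz ξ (-m) = 0)
    (hLB : ∀ κ < e, LB ξ κ) (hUB : ∀ κ > e, UB ξ κ) :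
    Tendsto (fun t : ℕ => (pos ξ t : ℝ) / t) atTop (𝓝 (1 / (1 + 2 * e))) := by
  have hvpos : 0 < 1 / (1 + 2 * e) := by positivity
  rw [tendsto_order]
  constructor
  · intro a ha
    -- choice of `η`
    have hcont : Tendsto (fun η : ℝ => 1 - 2 * (e + η) / (1 + 2 * (e - η))) (𝓝[>] 0)
        (𝓝 (1 - 2 * (e + 0) / (1 + 2 * (e - 0)))) := by
      have h1 : Tendsto (fun η : ℝ => η) (𝓝[>] (0 : ℝ)) (𝓝 0) := nhdsWithin_le_nhds
      refine tendsto_const_nhds.sub (Tendsto.div ?_ ?_ ?_)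
      · exact (tendsto_const_nhds.add h1).const_mul 2
      · exact tendsto_const_nhds.add ((tendsto_const_nhds.sub h1).const_mul 2)
      · have : (1 : ℝ) + 2 * (e - 0) = 1 + 2 * e := by ring
        rw [this]
        positivity
    have hval : 1 - 2 * (e + 0) / (1 + 2 * (e - 0)) = 1 / (1 + 2 * e) := by
      rw [add_zero, sub_zero]
      field_simp
      ring
    rw [hval] at hcont
    have h1 := hcont.eventually (lt_mem_nhds ha)
    have h2 : ∀ᶠ η : ℝ in 𝓝[>] 0, η < 1 / 4 :=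
      nhdsWithin_le_nhds (gt_mem_nhds (by norm_num))
    obtain ⟨η, ⟨h3, h4⟩, h5⟩ := ((h1.and h2).and self_mem_nhdsWithin).exists
    have hηpos : (0 : ℝ) < η := h5
    have hden : 0 < 1 + 2 * (e - η) := by linarith
    obtain ⟨n0, hn0⟩ := hLB (e - η) (by linarith)
    obtain ⟨n1, hn1⟩ := hUB (e + η) (by linarith)
    obtain ⟨m, hm⟩ := hzero
    set C : ℤ := ∑ z ∈ Finset.Ico (-(m : ℤ)) 0, (Dz ξ z : ℤ) with hC
    -- lower bound for every `t`
    have hkey : ∀ t : ℕ, (t : ℝ) - 2 * C - 2 * (e + η) * (t / (1 + 2 * (e - η)) + (n0 + n1 + 1))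
        ≤ pos ξ t := by
      intro t
      set q : ℝ := t / (1 + 2 * (e - η)) with hq
      have hq0 : 0 ≤ q := by positivity
      set n : ℕ := ⌊q⌋₊ + (n0 + n1 + 1) with hn
      have hnle : (n : ℝ) ≤ q + (n0 + n1 + 1) := by
        rw [hn]
        push_cast
        have := Nat.floor_le hq0
        linarith
      have hlt : ∀ k ≤ t, pos ξ k < n := by
        intro k hk
        rcases lt_or_ge (pos ξ k) n0 with hlt | hge
        · have : (n0 : ℤ) ≤ n := by exact_mod_cast (by omega : n0 ≤ n)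
          omega
        · obtain ⟨j, hj⟩ := Int.eq_ofNat_of_zero_le (le_trans (Int.natCast_nonneg n0) hge)
          have hjn : n0 ≤ j := by omega
          have h6 := hn0 j hjn k (by omega)
          have h7 : (j : ℝ) ≤ q := by
            rw [hq, le_div_iff₀ hden]
            have : (k : ℝ) ≤ t := by exact_mod_cast hk
            linarith
          have h8 : j ≤ ⌊q⌋₊ := Nat.le_floor h7
          rw [hj]
          have : j < n := by omega
          exact_mod_cast this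
      have h6 := pos_lower hD m n t hm hlt
      rw [sum_Ico_split] at h6
      have h7 := hn1 n (by omega)
      have h8 : ((∑ z ∈ range n, (Dz ξ (z : ℤ) : ℤ) : ℤ) : ℝ)
          = ∑ z ∈ range n, (Dz ξ (z : ℤ) : ℝ) := by push_cast; rfl
      have h9 := (Int.cast_le (R := ℝ)).2 h6
      rw [Int.cast_sub, Int.cast_mul, Int.cast_add, h8, Int.cast_ofNat] at h9
      have h10 : (e + η) * n ≤ (e + η) * (q + (n0 + n1 + 1)) :=
        mul_le_mul_of_nonneg_left hnle (by linarith)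
      have h11 : ((t : ℤ) : ℝ) = t := by norm_cast
      rw [h11] at h9
      rw [← hC] at h9
      linarith
    -- divide by `t`
    set C' : ℝ := 2 * C + 2 * (e + η) * (n0 + n1 + 1) with hC'
    set φ : ℝ := 1 - 2 * (e + η) / (1 + 2 * (e - η)) with hφ
    have hkey2 : ∀ t : ℕ, φ * t - C' ≤ pos ξ t := by
      intro t
      have h6 := hkey t
      have h7 : φ * t - C' = (t : ℝ) - 2 * C
          - 2 * (e + η) * (t / (1 + 2 * (e - η)) + (n0 + n1 + 1)) := by
        rw [hφ, hC']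
        ring
      rw [h7]
      exact h6
    have hφa : 0 < φ - a := by linarith
    obtain ⟨n2, hn2⟩ := exists_nat_gt (C' / (φ - a))
    rw [div_lt_iff₀ hφa] at hn2
    filter_upwards [eventually_ge_atTop (n2 + 1)] with t ht
    have htpos : (0 : ℝ) < t := by exact_mod_cast (by omega : 0 < t)
    have hn2t : (n2 : ℝ) ≤ t := by exact_mod_cast (by omega : n2 ≤ t)
    rw [lt_div_iff₀ htpos]
    have h6 := hkey2 t
    nlinarith
  · intro b hb
    have hbpos : 0 < b := lt_trans hvpos hb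
    have h1 : 1 / b < 1 + 2 * e := by
      rw [div_lt_iff₀ hbpos]
      have hb' : 1 / (1 + 2 * e) < b := hb
      rw [div_lt_iff₀ (by positivity)] at hb'
      linarith
    obtain ⟨s, hs1, hs2⟩ := exists_between h1
    have hspos : 0 < s := lt_trans (by positivity) hs1
    obtain ⟨n0, hn0⟩ := hLB ((s - 1) / 2) (by linarith)
    obtain ⟨n1, hn1⟩ := exists_nat_gt ((n0 : ℝ) / b)
    rw [div_lt_iff₀ hbpos] at hn1
    filter_upwards [eventually_ge_atTop (n1 + 1)] with t ht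
    have htpos : (0 : ℝ) < t := by exact_mod_cast (by omega : 0 < t)
    have hn1t : (n1 : ℝ) ≤ t := by exact_mod_cast (by omega : n1 ≤ t)
    rw [div_lt_iff₀ htpos]
    rcases lt_or_ge (pos ξ t) n0 with hlt | hge
    · have : (pos ξ t : ℝ) < n0 := by exact_mod_cast hlt
      nlinarith
    · obtain ⟨n, hn⟩ := Int.eq_ofNat_of_zero_le (le_trans (Int.natCast_nonneg n0) hge)
      have hnn : n0 ≤ n := by omega
      have h4 := hn0 n hnn t (by omega)
      have e1 : (pos ξ t : ℝ) = n := by rw [hn]; simp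
      rw [e1]
      have h5 : s * n ≤ t := by
        have : (1 + 2 * ((s - 1) / 2)) = s := by ring
        rw [this] at h4
        exact h4
      rcases Nat.eq_zero_or_pos n with h0 | h0
      · rw [h0]
        simp only [Nat.cast_zero]
        positivity
      · have hnpos : (0 : ℝ) < n := by exact_mod_cast h0
        have h6 : 1 < s * b := by
          rw [div_lt_iff₀ hbpos] at hs1
          exact hs1
        nlinarith

end Pool.Agent.Work.MP_7ca543_pr
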