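import Pool.Agent.Work.MP_7ca543_pr.PathLaw

/-!
# Exponential bound for lower deviations
-/

set_option linter.unusedSectionVars false

namespace Pool.Agent.Work.MP_7ca543_pr

open MeasureTheory Measure ProbabilityTheory Finset Filter Topology
open scoped ENNReal

variable {μ : Measure (ℕ → ℝ)} [IsProbabilityMeasure μ]

/-- The step to the right has conditional probability at least `1/2`. -/
theorem half_step (hμ : PosLaw μ) (n : ℕ) (y : ℕ → ℤ) :
    (1 / 2 : ℝ≥0∞) * Lam μ {ξ | pos ξ ∈ cyl n y}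
      ≤ Lam μ {ξ | pos ξ ∈ cyl n y ∧ pos ξ (n + 1) = y n + 1} := by
  have hm1 : MeasurableSet {x : ℕ → ℤ | (∀ i ≤ n, x i = y i) ∧ x (n + 1) = y n + 1} := by
    have hm : Measurable (fun x : ℕ → ℤ => x (n + 1)) := measurable_pi_apply (n + 1)
    exact (measurableSet_cyl n y).inter (hm (measurableSet_singleton (y n + 1)))
  have e0 : Lam μ {ξ | pos ξ ∈ cyl n y}
      = ∫⁻ ω, (UUU.map (fun u => pos (coinZ ω u))) (cyl n y) ∂(Env μ) := by
    have h1 : MeasurableSet {ξ : Cfg | pos ξ ∈ cyl n y} := measurable_path (measurableSet_cyl n y)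
    rw [← map_coinZ, Measure.map_apply measurable_coinZ h1,
      Measure.prod_apply (measurable_coinZ h1)]
    refine lintegral_congr (fun ω => ?_)
    exact (Measure.map_apply (measurable_path.comp (measurable_coinZ_right ω))
      (measurableSet_cyl n y)).symm
  have e1 : Lam μ {ξ | pos ξ ∈ cyl n y ∧ pos ξ (n + 1) = y n + 1}
      = ∫⁻ ω, (UUU.map (fun u => pos (coinZ ω u)))
        {x : ℕ → ℤ | (∀ i ≤ n, x i = y i) ∧ x (n + 1) = y n + 1} ∂(Env μ) := by
    have h1 : MeasurableSet {ξ : Cfg | pos ξ ∈ cyl n y ∧ pos ξ (n + 1) = y n + 1} :=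
      measurable_path hm1
    rw [← map_coinZ, Measure.map_apply measurable_coinZ h1,
      Measure.prod_apply (measurable_coinZ h1)]
    refine lintegral_congr (fun ω => ?_)
    exact (Measure.map_apply (measurable_path.comp (measurable_coinZ_right ω)) hm1).symm
  rw [e0, e1]
  calc (1 / 2 : ℝ≥0∞) * ∫⁻ ω, (UUU.map (fun u => pos (coinZ ω u))) (cyl n y) ∂(Env μ)
      ≤ ∫⁻ ω, (1 / 2 : ℝ≥0∞) * (UUU.map (fun u => pos (coinZ ω u))) (cyl n y) ∂(Env μ) :=
        (lintegral_const_mul' _ _ (by finiteness)).symm.le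
    _ ≤ _ := by
      refine lintegral_mono_ae ?_
      filter_upwards [ae_adm_env hμ] with ω hω
      have hq := isQuenchedLaw_coins ω (fun z i => ⟨by linarith [(hω z i).1], (hω z i).2⟩)
      rw [hq.step n y]
      gcongr
      · rw [show (1 / 2 : ℝ≥0∞) = ENNReal.ofReal (1 / 2) by
          rw [ENNReal.ofReal_div_of_pos (by norm_num)]; simp]
        exact ENNReal.ofReal_le_ofReal (hω _ _).1
      · exact le_rfl

theorem lintegral_fiber {Ω β : Type*} [MeasurableSpace Ω] (P : Measure Ω) [Countable β]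
    [MeasurableSpace β] [MeasurableSingletonClass β] {π : Ω → β} (hπ : Measurable π)
    (f : Ω → ℝ≥0∞) : ∫⁻ o, f o ∂P = ∑' b, ∫⁻ o in π ⁻¹' {b}, f o ∂P := by
  rw [← lintegral_iUnion (fun b => hπ (measurableSet_singleton b))]
  · have : (⋃ b, π ⁻¹' {b}) = Set.univ := by
      ext o
      simp
    rw [this, Measure.restrict_univ]
  · intro b b' hne
    rw [Function.onFun, Set.disjoint_left]
    intro o h1 h2
    simp only [Set.mem_preimage, Set.mem_singleton_iff] at h1 h2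
    exact hne (h1.symm.trans h2)

/-- Exponential moment. -/
noncomputable def Zt (μ : Measure (ℕ → ℝ)) [IsProbabilityMeasure μ] (θ : ℝ) (t : ℕ) : ℝ≥0∞ :=
  ∫⁻ ξ, ENNReal.ofReal (Real.exp (-θ * pos ξ t)) ∂(Lam μ)

theorem Zt_succ (hμ : PosLaw μ) (θ : ℝ) (hθ : 0 ≤ θ) (t : ℕ) :
    Zt μ θ (t + 1) ≤ ENNReal.ofReal (Real.cosh θ) * Zt μ θ t := by
  unfold Zt
  set π : Cfg → ((i : Fin (t + 1)) → ℤ) := fun ξ i => pos ξ i with hπdef
  have hπ : Measurable π := measurable_pi_iff.2 (fun i => measurable_pos i)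
  rw [lintegral_fiber (Lam μ) hπ, lintegral_fiber (Lam μ) hπ, ← ENNReal.tsum_mul_left]
  refine ENNReal.tsum_le_tsum (fun b => ?_)
  -- extend `b` to a path
  set y : ℕ → ℤ := fun i => if h : i < t + 1 then b ⟨i, h⟩ else 0 with hy
  have hfib : π ⁻¹' {b} = {ξ | pos ξ ∈ cyl t y} := by
    ext ξ
    simp only [Set.mem_preimage, Set.mem_singleton_iff, Set.mem_ofPred_eq, cyl]
    constructor
    · intro h i hi
      rw [hy]
      simp only
      rw [dif_pos (by omega), ← h]
    · intro h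
      ext i
      have := h i (by omega)
      rw [hy] at this
      simp only at this
      rw [dif_pos i.2] at this
      exact this
  rw [hfib]
  set S : Set Cfg := {ξ | pos ξ ∈ cyl t y} with hS
  have hSm : MeasurableSet S := measurable_path (measurableSet_cyl t y)
  set T : Set Cfg := {ξ | pos ξ (t + 1) = y t + 1} with hT
  have hTm : MeasurableSet T := (measurable_pos (t + 1)) (measurableSet_singleton (y t + 1))
  set a := (Lam μ (S ∩ T)).toReal with ha
  set c := (Lam μ (S \ T)).toReal with hc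
  have hhalf := half_step hμ t y
  have hadd : Lam μ (S ∩ T) + Lam μ (S \ T) = Lam μ S := measure_inter_add_sdiff S hTm
  have haddr : a + c = (Lam μ S).toReal := by
    rw [← hadd, ENNReal.toReal_add (measure_ne_top _ _) (measure_ne_top _ _)]
  have hca : c ≤ a := by
    have h1 := ENNReal.toReal_mono (measure_ne_top _ _) hhalf
    have h2 : {ξ | pos ξ ∈ cyl t y ∧ pos ξ (t + 1) = y t + 1} = S ∩ T := rfl
    rw [h2, ENNReal.toReal_mul] at h1
    have h3 : ((1 : ℝ≥0∞) / 2).toReal = 1 / 2 := by simp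
    rw [h3, ← hS, ← haddr, ← ha] at h1
    linarith
  -- left-hand side
  have hL : ∫⁻ ξ in S, ENNReal.ofReal (Real.exp (-θ * pos ξ (t + 1))) ∂(Lam μ)
      = ENNReal.ofReal (Real.exp (-θ * (y t + 1)) * a + Real.exp (-θ * (y t - 1)) * c) := by
    rw [← lintegral_inter_add_sdiff _ S hTm]
    have h1 : ∫⁻ ξ in S ∩ T, ENNReal.ofReal (Real.exp (-θ * pos ξ (t + 1))) ∂(Lam μ)
        = ENNReal.ofReal (Real.exp (-θ * (y t + 1))) * Lam μ (S ∩ T) := by
      rw [setLIntegral_congr_fun (g := fun _ => ENNReal.ofReal (Real.exp (-θ * (y t + 1))))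
        (hSm.inter hTm)]
      · rw [setLIntegral_const]
      · intro ξ hξ
        have h3 : pos ξ (t + 1) = y t + 1 := hξ.2
        simp only
        rw [h3]
        push_cast
        rfl
    have h2 : ∫⁻ ξ in S \ T, ENNReal.ofReal (Real.exp (-θ * pos ξ (t + 1))) ∂(Lam μ)
        = ENNReal.ofReal (Real.exp (-θ * (y t - 1))) * Lam μ (S \ T) := by
      rw [setLIntegral_congr_fun (g := fun _ => ENNReal.ofReal (Real.exp (-θ * (y t - 1))))
        (hSm.diff hTm)]
      · rw [setLIntegral_const]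
      · intro ξ hξ
        have h4 : pos ξ t = y t := hξ.1 t le_rfl
        have h3 : pos ξ (t + 1) = y t - 1 := by
          rcases step_cases ξ t with ⟨_, h, _⟩ | ⟨_, h, _⟩
          · refine absurd ?_ hξ.2
            show pos ξ (t + 1) = y t + 1
            rw [h, h4]
          · rw [h, h4]
        simp only
        rw [h3]
        push_cast
        rfl
    rw [h1, h2, ENNReal.ofReal_add (by positivity) (by positivity),
      ENNReal.ofReal_mul (by positivity), ENNReal.ofReal_mul (by positivity),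
      ha, hc, ENNReal.ofReal_toReal (measure_ne_top _ _), ENNReal.ofReal_toReal (measure_ne_top _ _)]
  have hR : ∫⁻ ξ in S, ENNReal.ofReal (Real.exp (-θ * pos ξ t)) ∂(Lam μ)
      = ENNReal.ofReal (Real.exp (-θ * y t) * (a + c)) := by
    rw [setLIntegral_congr_fun (g := fun _ => ENNReal.ofReal (Real.exp (-θ * y t))) hSm]
    · rw [setLIntegral_const, ENNReal.ofReal_mul (by positivity), haddr,
        ENNReal.ofReal_toReal (measure_ne_top _ _)]
    · intro ξ hξ
      have h4 : pos ξ t = y t := hξ t le_rfl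
      simp only
      rw [h4]
  rw [hL, hR, ← ENNReal.ofReal_mul (Real.cosh_pos θ).le]
  refine ENNReal.ofReal_le_ofReal ?_
  have e1 : Real.exp (-θ * (y t + 1)) = Real.exp (-θ * y t) * Real.exp (-θ) := by
    rw [← Real.exp_add]; congr 1; ring
  have e2 : Real.exp (-θ * (y t - 1)) = Real.exp (-θ * y t) * Real.exp θ := by
    rw [← Real.exp_add]; congr 1; ring
  rw [e1, e2, Real.cosh_eq]
  have h1 : Real.exp (-θ) ≤ Real.exp θ := Real.exp_le_exp.2 (by linarith)
  have h2 : 0 < Real.exp (-θ * y t) := Real.exp_pos _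
  have h3 : Real.exp (-θ) * a + Real.exp θ * c ≤ (Real.exp θ + Real.exp (-θ)) / 2 * (a + c) := by
    nlinarith
  calc Real.exp (-θ * y t) * Real.exp (-θ) * a + Real.exp (-θ * y t) * Real.exp θ * c
      = Real.exp (-θ * y t) * (Real.exp (-θ) * a + Real.exp θ * c) := by ring
    _ ≤ Real.exp (-θ * y t) * ((Real.exp θ + Real.exp (-θ)) / 2 * (a + c)) :=
        mul_le_mul_of_nonneg_left h3 h2.le
    _ = _ := by ring

theorem Zt_le (hμ : PosLaw μ) (θ : ℝ) (hθ : 0 ≤ θ) (t : ℕ) :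
    Zt μ θ t ≤ ENNReal.ofReal (Real.exp (θ ^ 2 / 2 * t)) := by
  induction t with
  | zero => simp [Zt, pos_zero]
  | succ t ih =>
    calc Zt μ θ (t + 1) ≤ ENNReal.ofReal (Real.cosh θ) * Zt μ θ t := Zt_succ hμ θ hθ t
      _ ≤ ENNReal.ofReal (Real.exp (θ ^ 2 / 2)) * ENNReal.ofReal (Real.exp (θ ^ 2 / 2 * t)) := by
          gcongr
          exact Real.cosh_le_exp_half_sq θ
      _ = ENNReal.ofReal (Real.exp (θ ^ 2 / 2 * (t + 1 : ℕ))) := by
          rw [← ENNReal.ofReal_mul (Real.exp_pos _).le, ← Real.exp_add]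
          congr 2
          push_cast
          ring

theorem lower_dev (hμ : PosLaw μ) (ε : ℝ) (hε : 0 < ε) (t : ℕ) :
    Lam μ {ξ | (pos ξ t : ℝ) ≤ -ε * t} ≤ ENNReal.ofReal (Real.exp (-(ε ^ 2 / 2)) ^ t) := by
  have hm : Measurable (fun ξ : Cfg => ENNReal.ofReal (Real.exp (-ε * pos ξ t))) := by
    have h1 : Measurable (fun z : ℤ => ENNReal.ofReal (Real.exp (-ε * z))) := Measurable.of_discrete
    exact h1.comp (measurable_pos t)
  have h1 := mul_meas_ge_le_lintegral (μ := Lam μ) hm (ENNReal.ofReal (Real.exp (ε ^ 2 * t)))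
  have h2 : {ξ : Cfg | (pos ξ t : ℝ) ≤ -ε * t}
      ⊆ {ξ | ENNReal.ofReal (Real.exp (ε ^ 2 * t)) ≤ ENNReal.ofReal (Real.exp (-ε * pos ξ t))} := by
    intro ξ hξ
    have hξ' : (pos ξ t : ℝ) ≤ -ε * t := hξ
    change ENNReal.ofReal (Real.exp (ε ^ 2 * t)) ≤ ENNReal.ofReal (Real.exp (-ε * pos ξ t))
    refine ENNReal.ofReal_le_ofReal (Real.exp_le_exp.2 ?_)
    nlinarith
  have h3 : ENNReal.ofReal (Real.exp (ε ^ 2 * t)) * Lam μ {ξ | (pos ξ t : ℝ) ≤ -ε * t}
      ≤ ENNReal.ofReal (Real.exp (ε ^ 2 / 2 * t)) := by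
    calc _ ≤ ENNReal.ofReal (Real.exp (ε ^ 2 * t)) * Lam μ {ξ | ENNReal.ofReal (Real.exp (ε ^ 2 * t))
            ≤ ENNReal.ofReal (Real.exp (-ε * pos ξ t))} := by gcongr
      _ ≤ _ := h1
      _ ≤ _ := Zt_le hμ ε hε.le t
  have h4 : ENNReal.ofReal (Real.exp (ε ^ 2 / 2 * t))
      = ENNReal.ofReal (Real.exp (ε ^ 2 * t)) * ENNReal.ofReal (Real.exp (-(ε ^ 2 / 2)) ^ t) := by
    rw [← ENNReal.ofReal_mul (Real.exp_pos _).le, ← Real.exp_nat_mul, ← Real.exp_add]
    congr 2
    ring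
  rw [h4] at h3
  have h5 : ENNReal.ofReal (Real.exp (ε ^ 2 * t)) ≠ 0 := by
    rw [Ne, ENNReal.ofReal_eq_zero, not_le]
    exact Real.exp_pos _
  exact (ENNReal.mul_le_mul_iff_right h5 ENNReal.ofReal_ne_top).1 h3

/-- Almost surely the walk does not go to the left at a linear speed. -/
theorem ae_lower (hμ : PosLaw μ) :
    ∀ᵐ ξ ∂(Lam μ), ∀ ε : ℝ, 0 < ε → ∀ᶠ t : ℕ in atTop, -ε * t < pos ξ t := by
  have h1 : ∀ k : ℕ, ∀ᵐ ξ ∂(Lam μ), ∀ᶠ t : ℕ in atTop,
      -(1 / ((k : ℝ) + 1)) * t < pos ξ t := by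
    intro k
    have hε : (0 : ℝ) < 1 / ((k : ℝ) + 1) := by positivity
    have hsum : ∑' t : ℕ, Lam μ {ξ | (pos ξ t : ℝ) ≤ -(1 / ((k : ℝ) + 1)) * t} ≠ ⊤ := by
      refine ne_top_of_le_ne_top ?_ (ENNReal.tsum_le_tsum (fun t => lower_dev hμ _ hε t))
      have hs : Summable (fun t : ℕ => Real.exp (-((1 / ((k : ℝ) + 1)) ^ 2 / 2)) ^ t) := by
        refine summable_geometric_of_lt_one (Real.exp_pos _).le ?_
        rw [Real.exp_lt_one_iff]
        have : 0 < (1 / ((k : ℝ) + 1)) ^ 2 / 2 := by positivity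
        linarith
      rw [← ENNReal.ofReal_tsum_of_nonneg (fun t => by positivity) hs]
      exact ENNReal.ofReal_ne_top
    have := ae_eventually_notMem hsum
    filter_upwards [this] with ξ hξ
    filter_upwards [hξ] with t ht
    exact not_le.1 ht
  filter_upwards [ae_all_iff.2 h1] with ξ hξ ε hε
  obtain ⟨k, hk⟩ := exists_nat_one_div_lt hε
  filter_upwards [hξ k] with t ht
  have h3 : (0 : ℝ) ≤ t := Nat.cast_nonneg t
  nlinarith

end Pool.Agent.Work.MP_7ca543_pr
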