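import Pool.Agent.Work.MP_7ca543_pr.Lower

/-!
# The mean of the chain is unbounded if `δ ≤ 2`
-/

set_option linter.unusedSectionVars false

namespace Pool.Agent.Work.MP_7ca543_pr

open MeasureTheory Measure ProbabilityTheory Finset Filter Topology
open scoped ENNReal

variable {μ : Measure (ℕ → ℝ)} [IsProbabilityMeasure μ]

theorem V_diag_mono {ξ : Cfg} (h : ∀ z, Good (ξ z)) : Monotone (fun i : ℕ => V ξ i i) :=
  monotone_nat_of_le_succ (fun i => by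
    have := V_mono h i i
    push_cast
    exact this)

/-- Supremum of the chain ending at site `0`. -/
noncomputable def Wsup (ξ : Cfg) : ℝ≥0∞ := ⨆ i : ℕ, (V ξ i i : ℝ≥0∞)

/-- The limit of the chain ending at site `0`. -/
noncomputable def Vinf (ξ : Cfg) : ℕ := ⌊(Wsup ξ).toReal⌋₊

theorem measurable_Wsup : Measurable Wsup :=
  Measurable.iSup (fun i : ℕ => measurable_phi_V (fun n => (n : ℝ≥0∞)) i i)

theorem measurable_Vinf : Measurable Vinf :=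
  Nat.measurable_floor.comp measurable_Wsup.ennreal_toReal

theorem Vinf_spec {ξ : Cfg} (h : ∀ z, Good (ξ z)) (hfin : Wsup ξ ≠ ⊤) :
    (∃ n : ℕ, ∀ i : ℕ, n ≤ i → V ξ i i = Vinf ξ) ∧ Wsup ξ = Vinf ξ := by
  obtain ⟨k, hk⟩ := ENNReal.exists_nat_gt hfin
  have hbound : ∀ i : ℕ, V ξ i i ≤ k := by
    intro i
    have : (V ξ i i : ℝ≥0∞) ≤ k := (le_iSup (fun i : ℕ => (V ξ i i : ℝ≥0∞)) i).trans hk.le
    exact_mod_cast this
  set s : Set ℕ := Set.range (fun i : ℕ => V ξ i i) with hs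
  have hne : s.Nonempty := ⟨V ξ 0 0, 0, rfl⟩
  have hbdd : BddAbove s := ⟨k, by rintro _ ⟨i, rfl⟩; exact hbound i⟩
  obtain ⟨n, hn⟩ := Nat.sSup_mem hne hbdd
  have hle : ∀ i : ℕ, V ξ i i ≤ V ξ n n := by
    intro i
    have h1 : V ξ i i ≤ sSup s := le_csSup hbdd ⟨i, rfl⟩
    have h2 : V ξ n n = sSup s := hn
    rw [h2]
    exact h1
  have hW : Wsup ξ = (V ξ n n : ℕ) := by
    refine le_antisymm (iSup_le (fun i : ℕ => by exact_mod_cast hle i)) ?_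
    exact le_iSup (fun i : ℕ => (V ξ i i : ℝ≥0∞)) n
  have hV : Vinf ξ = V ξ n n := by
    unfold Vinf
    rw [hW]
    simp
  refine ⟨⟨n, fun i hi => ?_⟩, by rw [hW, hV]⟩
  rw [hV]
  exact le_antisymm (hle i) (V_diag_mono h hi)

theorem lintegral_Wsup (hμ : PosLaw μ) :
    ∫⁻ ξ, Wsup ξ ∂(Lam μ) = ⨆ i, mI μ (fun g => (g : ℝ≥0∞)) i := by
  unfold Wsup
  rw [lintegral_iSup' (fun i => (measurable_phi_V (fun n => (n : ℝ≥0∞)) i i).aemeasurable)]
  · refine iSup_congr (fun i => ?_)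
    exact mI_eq (fun g => (g : ℝ≥0∞)) i i
  · filter_upwards [ae_good_all hμ] with ξ hξ
    intro i j hij
    have := V_diag_mono hξ hij
    simp only at this ⊢
    exact_mod_cast this

/-- If `δ ≤ 2` then the means are unbounded. -/
theorem mean_unbounded (hμ : PosLaw μ) (hwel : 0 < μ {w | ∀ i, w i < 1}) (hd : dbar μ ≤ 2) :
    ⨆ i, mI μ (fun g => (g : ℝ≥0∞)) i = ⊤ := by
  by_contra hne
  rw [← lintegral_Wsup hμ] at hne
  have hfin : ∀ᵐ ξ ∂(Lam μ), Wsup ξ < ⊤ := ae_lt_top measurable_Wsup hne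
  refine no_stationary (Lam μ) hμ hwel hd Vinf measurable_Vinf ?_ ?_
  · have : ∫⁻ ξ, (Vinf ξ : ℝ≥0∞) ∂(Lam μ) = ∫⁻ ξ, Wsup ξ ∂(Lam μ) := by
      refine lintegral_congr_ae ?_
      filter_upwards [hfin, ae_good_all hμ] with ξ h1 h2
      exact (Vinf_spec h2 h1.ne).2.symm
    rw [this]
    exact hne
  · intro A K
    set φ : ℕ → ℝ≥0∞ := fun g => (fK A K g : ℝ≥0∞) with hφ
    have hφmono : Monotone φ := by
      intro a b hab
      rw [hφ]
      simp only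
      exact_mod_cast fK_mono A K hab
    have h1 : ∫⁻ ξ, PP μ φ (Vinf ξ) ∂(Lam μ)
        = ∫⁻ ξ, liminf (fun i : ℕ => PP μ φ (V ξ i i)) atTop ∂(Lam μ) := by
      refine lintegral_congr_ae ?_
      filter_upwards [hfin, ae_good_all hμ] with ξ h1 h2
      obtain ⟨n, hn⟩ := (Vinf_spec h2 h1.ne).1
      have : Tendsto (fun i : ℕ => PP μ φ (V ξ i i)) atTop (𝓝 (PP μ φ (Vinf ξ))) := by
        refine tendsto_const_nhds.congr' ?_
        filter_upwards [eventually_ge_atTop n] with i hi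
        rw [hn i hi]
      exact this.liminf_eq.symm
    have h2 : ∫⁻ ξ, liminf (fun i : ℕ => PP μ φ (V ξ i i)) atTop ∂(Lam μ)
        ≤ liminf (fun i : ℕ => ∫⁻ ξ, PP μ φ (V ξ i i) ∂(Lam μ)) atTop :=
      lintegral_liminf_le (fun i => measurable_phi_V (PP μ φ) i i)
    have h3 : ∀ i : ℕ, ∫⁻ ξ, PP μ φ (V ξ i i) ∂(Lam μ) ≤ ∫⁻ ξ, φ (Vinf ξ) ∂(Lam μ) := by
      intro i
      rw [mI_eq, ← mI_succ, ← mI_eq φ ((i + 1 : ℕ) : ℤ) (i + 1)]
      refine lintegral_mono_ae ?_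
      filter_upwards [hfin, ae_good_all hμ] with ξ h1 h2
      refine hφmono ?_
      obtain ⟨n, hn⟩ := (Vinf_spec h2 h1.ne).1
      rw [← hn (max n (i + 1)) (le_max_left _ _)]
      exact V_diag_mono h2 (le_max_right _ _)
    calc ∫⁻ ξ, PP μ φ (Vinf ξ) ∂(Lam μ)
        ≤ liminf (fun i : ℕ => ∫⁻ ξ, PP μ φ (V ξ i i) ∂(Lam μ)) atTop := h1.trans_le h2
      _ ≤ ∫⁻ ξ, φ (Vinf ξ) ∂(Lam μ) := by
          refine liminf_le_of_le (by isBoundedDefault) (fun b hb => ?_)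
          obtain ⟨i, hi⟩ := hb.exists
          exact hi.trans (h3 i)

/-- Same for truncated means. -/
theorem mean_trunc_unbounded (hμ : PosLaw μ) (hwel : 0 < μ {w | ∀ i, w i < 1})
    (hd : dbar μ ≤ 2) (B : ℝ≥0∞) (hB : B ≠ ⊤) :
    ∃ (i K : ℕ), B < mI μ (fun g => ((min g K : ℕ) : ℝ≥0∞)) i := by
  have h1 := mean_unbounded hμ hwel hd
  have h2 : B < ⨆ i, mI μ (fun g => (g : ℝ≥0∞)) i := by rw [h1]; exact hB.lt_top
  obtain ⟨i, hi⟩ := lt_iSup_iff.1 h2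
  have h3 : mI μ (fun g => (g : ℝ≥0∞)) i = ⨆ K : ℕ, mI μ (fun g => ((min g K : ℕ) : ℝ≥0∞)) i := by
    unfold mI
    rw [← lintegral_iSup (fun K => measurable_phi_V (fun g => ((min g K : ℕ) : ℝ≥0∞)) 0 i)]
    · refine lintegral_congr (fun ξ => ?_)
      refine le_antisymm ?_ (iSup_le (fun K => ?_))
      · refine le_trans ?_ (le_iSup _ (V ξ 0 i))
        rw [min_self]
      · have : min (V ξ 0 i) K ≤ V ξ 0 i := min_le_left _ _
        show ((min (V ξ 0 i) K : ℕ) : ℝ≥0∞) ≤ (V ξ 0 i : ℝ≥0∞)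
        exact_mod_cast this
    · intro K K' hK ξ
      simp only
      exact_mod_cast min_le_min_left _ hK
  rw [h3] at hi
  obtain ⟨K, hK⟩ := lt_iSup_iff.1 hi
  exact ⟨i, K, hK⟩

end Pool.Agent.Work.MP_7ca543_pr
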