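import Pool.Agent.Work.MP_7ca543_pr.Rows

/-!
# Moments of the annealed branching kernel
-/

namespace Pool.Agent.Work.MP_7ca543_pr

open MeasureTheory Measure ProbabilityTheory Finset Filter Topology
open scoped ENNReal

/-- The drift parameter `δ`. -/
noncomputable def dbar (μ : Measure (ℕ → ℝ)) : ℝ≥0∞ :=
  ∫⁻ w, ∑' i, ENNReal.ofReal (2 * w i - 1) ∂μ

/-- The drift contained in the first `M` cookies. -/
noncomputable def DM (μ : Measure (ℕ → ℝ)) (M : ℕ) : ℝ≥0∞ :=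
  ∫⁻ w, ∑ i ∈ range M, ENNReal.ofReal (2 * w i - 1) ∂μ

theorem measurable_drift (i : ℕ) : Measurable (fun w : ℕ → ℝ => ENNReal.ofReal (2 * w i - 1)) :=
  (((measurable_pi_apply i).const_mul 2).sub_const 1).ennreal_ofReal

theorem measurable_DM (M : ℕ) :
    Measurable (fun w : ℕ → ℝ => ∑ i ∈ range M, ENNReal.ofReal (2 * w i - 1)) :=
  Finset.measurable_sum _ (fun i _ => measurable_drift i)

theorem dbar_eq_iSup (μ : Measure (ℕ → ℝ)) : dbar μ = ⨆ M, DM μ M := by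
  unfold dbar DM
  simp_rw [ENNReal.tsum_eq_iSup_nat]
  refine lintegral_iSup (fun M => measurable_DM M) ?_
  intro M M' h w
  exact Finset.sum_le_sum_of_subset (Finset.range_mono h)

theorem sum_ofReal {w : ℕ → ℝ} (hw : Adm w) (M : ℕ) :
    ∑ i ∈ range M, ENNReal.ofReal (2 * w i - 1) = ENNReal.ofReal (∑ i ∈ range M, (2 * w i - 1)) :=
  (ENNReal.ofReal_sum_of_nonneg (fun i _ => by linarith [(hw i).1])).symm

/-- Annealed first moment. -/
noncomputable def E1 (μ : Measure (ℕ → ℝ)) (j : ℕ) : ℝ≥0∞ := PP μ (fun g => (g : ℝ≥0∞)) j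

/-- Annealed second moment. -/
noncomputable def E2 (μ : Measure (ℕ → ℝ)) (j : ℕ) : ℝ≥0∞ := PP μ (fun g => (g : ℝ≥0∞) ^ 2) j

theorem q1 {w : ℕ → ℝ} (hw : Adm w) (j : ℕ) :
    ∑' g : ℕ, ENNReal.ofReal (p w j g) * (g : ℝ≥0∞)
      = ENNReal.ofReal (∑' g : ℕ, p w j g * (g : ℝ)) := by
  rw [ENNReal.ofReal_tsum_of_nonneg (fun g => mul_nonneg (p_nonneg hw j g) (Nat.cast_nonneg g))
    (summable_first hw j)]
  refine tsum_congr (fun g => ?_)
  rw [ENNReal.ofReal_mul (p_nonneg hw j g), ENNReal.ofReal_natCast]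

theorem q2 {w : ℕ → ℝ} (hw : Adm w) (j : ℕ) :
    ∑' g : ℕ, ENNReal.ofReal (p w j g) * (g : ℝ≥0∞) ^ 2
      = ENNReal.ofReal (∑' g : ℕ, p w j g * (g : ℝ) ^ 2) := by
  rw [ENNReal.ofReal_tsum_of_nonneg (fun g => mul_nonneg (p_nonneg hw j g) (sq_nonneg _))
    (summable_second hw j)]
  refine tsum_congr (fun g => ?_)
  rw [ENNReal.ofReal_mul (p_nonneg hw j g), ENNReal.ofReal_pow (Nat.cast_nonneg g),
    ENNReal.ofReal_natCast]

theorem tsum_first_nonneg {w : ℕ → ℝ} (hw : Adm w) (j : ℕ) : 0 ≤ ∑' g : ℕ, p w j g * (g : ℝ) :=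
  tsum_nonneg (fun g => mul_nonneg (p_nonneg hw j g) (Nat.cast_nonneg g))

theorem tsum_second_nonneg {w : ℕ → ℝ} (hw : Adm w) (j : ℕ) :
    0 ≤ ∑' g : ℕ, p w j g * (g : ℝ) ^ 2 :=
  tsum_nonneg (fun g => mul_nonneg (p_nonneg hw j g) (sq_nonneg _))

theorem drift_nonneg {w : ℕ → ℝ} (hw : Adm w) (M : ℕ) : 0 ≤ ∑ i ∈ range M, (2 * w i - 1) :=
  Finset.sum_nonneg (fun i _ => by linarith [(hw i).1])

variable {μ : Measure (ℕ → ℝ)} [IsProbabilityMeasure μ]

theorem measurable_q (j : ℕ) (φ : ℕ → ℝ≥0∞) :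
    Measurable (fun w : ℕ → ℝ => ∑' g : ℕ, ENNReal.ofReal (p w j g) * φ g) :=
  Measurable.tsum (fun g => (measurable_p j g).ennreal_ofReal.mul_const _)

/-- (E-a) -/
theorem E1_add_le (hμ : PosLaw μ) (j M : ℕ) (hM : M ≤ j + 1) :
    E1 μ j + DM μ M ≤ (j : ℝ≥0∞) + 1 := by
  unfold E1 DM
  rw [PP_eq hμ, ← lintegral_add_left (measurable_q j _)]
  calc ∫⁻ w, (∑' g : ℕ, ENNReal.ofReal (p w j g) * (g : ℝ≥0∞)
        + ∑ i ∈ range M, ENNReal.ofReal (2 * w i - 1)) ∂μ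
      ≤ ∫⁻ _w, ((j : ℝ≥0∞) + 1) ∂μ := by
        refine lintegral_mono_ae ?_
        filter_upwards [hμ] with w hw
        rw [q1 hw, sum_ofReal hw, ← ENNReal.ofReal_add (tsum_first_nonneg hw j)
          (drift_nonneg hw M)]
        have h := first_le hw j M hM
        calc ENNReal.ofReal (∑' g : ℕ, p w j g * (g : ℝ) + ∑ i ∈ range M, (2 * w i - 1))
            ≤ ENNReal.ofReal ((j : ℝ) + 1) := ENNReal.ofReal_le_ofReal h
          _ = (j : ℝ≥0∞) + 1 := by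
            rw [ENNReal.ofReal_add (Nat.cast_nonneg j) zero_le_one, ENNReal.ofReal_natCast,
              ENNReal.ofReal_one]
    _ = (j : ℝ≥0∞) + 1 := by simp

theorem E1_le (hμ : PosLaw μ) (j : ℕ) : E1 μ j ≤ (j : ℝ≥0∞) + 1 :=
  le_trans le_self_add (E1_add_le hμ j 0 (by omega))

/-- (E-b) -/
theorem le_E1_add (hμ : PosLaw μ) (j : ℕ) : (j : ℝ≥0∞) + 1 ≤ E1 μ j + dbar μ := by
  unfold E1 dbar
  rw [PP_eq hμ, ← lintegral_add_left (measurable_q j _)]
  calc (j : ℝ≥0∞) + 1 = ∫⁻ _w, ((j : ℝ≥0∞) + 1) ∂μ := by simp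
    _ ≤ _ := by
      refine lintegral_mono_ae ?_
      filter_upwards [hμ] with w hw
      by_cases ht : ∑' i, ENNReal.ofReal (2 * w i - 1) = ⊤
      · rw [ht]
        simp
      · rw [q1 hw]
        have hD : ∀ n, ∑ l ∈ range n, (2 * w l - 1)
            ≤ (∑' i, ENNReal.ofReal (2 * w i - 1)).toReal := by
          intro n
          rw [← ENNReal.ofReal_le_iff_le_toReal ht, ← sum_ofReal hw]
          exact ENNReal.sum_le_tsum _
        have h := first_ge hw j _ hD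
        calc (j : ℝ≥0∞) + 1 = ENNReal.ofReal ((j : ℝ) + 1) := by
              rw [ENNReal.ofReal_add (Nat.cast_nonneg j) zero_le_one, ENNReal.ofReal_natCast,
                ENNReal.ofReal_one]
          _ ≤ ENNReal.ofReal (∑' g : ℕ, p w j g * (g : ℝ)
                + (∑' i, ENNReal.ofReal (2 * w i - 1)).toReal) := ENNReal.ofReal_le_ofReal h
          _ = _ := by
              rw [ENNReal.ofReal_add (tsum_first_nonneg hw j) ENNReal.toReal_nonneg,
                ENNReal.ofReal_toReal ht]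

theorem cast_sq (j : ℕ) : ((j : ℝ≥0∞) + 1) ^ 2 + 2 * ((j : ℝ≥0∞) + 1)
    = ENNReal.ofReal (((j : ℝ) + 1) ^ 2 + 2 * (j + 1)) := by
  rw [ENNReal.ofReal_add (by positivity) (by positivity), ENNReal.ofReal_pow (by positivity),
    ENNReal.ofReal_mul (by norm_num), ENNReal.ofReal_add (Nat.cast_nonneg j) zero_le_one,
    ENNReal.ofReal_natCast, ENNReal.ofReal_one, ENNReal.ofReal_ofNat]

/-- (E-c) -/
theorem E2_add_le (hμ : PosLaw μ) (j M : ℕ) (hM : M ≤ j + 1) :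
    E2 μ j + ((2 * (j + 1 - M) + 1 : ℕ) : ℝ≥0∞) * DM μ M
      ≤ ((j : ℝ≥0∞) + 1) ^ 2 + 2 * ((j : ℝ≥0∞) + 1) := by
  unfold E2 DM
  rw [PP_eq hμ, ← lintegral_const_mul _ (measurable_DM M), ← lintegral_add_left (measurable_q j _)]
  calc ∫⁻ w, (∑' g : ℕ, ENNReal.ofReal (p w j g) * (g : ℝ≥0∞) ^ 2
        + ((2 * (j + 1 - M) + 1 : ℕ) : ℝ≥0∞) * ∑ i ∈ range M, ENNReal.ofReal (2 * w i - 1)) ∂μ
      ≤ ∫⁻ _w, (((j : ℝ≥0∞) + 1) ^ 2 + 2 * ((j : ℝ≥0∞) + 1)) ∂μ := by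
        refine lintegral_mono_ae ?_
        filter_upwards [hμ] with w hw
        rw [q2 hw, sum_ofReal hw, cast_sq, ← ENNReal.ofReal_natCast,
          ← ENNReal.ofReal_mul (Nat.cast_nonneg _),
          ← ENNReal.ofReal_add (tsum_second_nonneg hw j)
          (mul_nonneg (Nat.cast_nonneg _) (drift_nonneg hw M))]
        refine ENNReal.ofReal_le_ofReal ?_
        have h := second_le hw j M hM
        have e : ((2 * (j + 1 - M) + 1 : ℕ) : ℝ) = 2 * ((j : ℝ) + 1 - M) + 1 := by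
          push_cast [Nat.cast_sub hM]
          ring
        rw [e]
        exact h
    _ = _ := by simp

theorem E2_le (hμ : PosLaw μ) (j : ℕ) :
    E2 μ j ≤ ((j : ℝ≥0∞) + 1) ^ 2 + 2 * ((j : ℝ≥0∞) + 1) :=
  le_trans le_self_add (E2_add_le hμ j 0 (by omega))

/-- (E-d) -/
theorem le_E2_add (hμ : PosLaw μ) (j : ℕ) :
    ((j : ℝ≥0∞) + 1) ^ 2 + 2 * ((j : ℝ≥0∞) + 1) ≤ E2 μ j + ((2 * j + 3 : ℕ) : ℝ≥0∞) * dbar μ := by
  unfold E2 dbar
  have hm : Measurable (fun w : ℕ → ℝ => ∑' i, ENNReal.ofReal (2 * w i - 1)) :=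
    Measurable.tsum (fun i => measurable_drift i)
  rw [PP_eq hμ, ← lintegral_const_mul _ hm, ← lintegral_add_left (measurable_q j _)]
  calc ((j : ℝ≥0∞) + 1) ^ 2 + 2 * ((j : ℝ≥0∞) + 1)
      = ∫⁻ _w, (((j : ℝ≥0∞) + 1) ^ 2 + 2 * ((j : ℝ≥0∞) + 1)) ∂μ := by simp
    _ ≤ _ := by
      refine lintegral_mono_ae ?_
      filter_upwards [hμ] with w hw
      by_cases ht : ∑' i, ENNReal.ofReal (2 * w i - 1) = ⊤
      · rw [ht, ENNReal.mul_top (by simp)]
        simp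
      · rw [q2 hw]
        have hD : ∀ n, ∑ l ∈ range n, (2 * w l - 1)
            ≤ (∑' i, ENNReal.ofReal (2 * w i - 1)).toReal := by
          intro n
          rw [← ENNReal.ofReal_le_iff_le_toReal ht, ← sum_ofReal hw]
          exact ENNReal.sum_le_tsum _
        have h := second_ge hw j _ hD
        rw [cast_sq]
        calc ENNReal.ofReal (((j : ℝ) + 1) ^ 2 + 2 * (j + 1))
            ≤ ENNReal.ofReal (∑' g : ℕ, p w j g * (g : ℝ) ^ 2
                + (2 * j + 3) * (∑' i, ENNReal.ofReal (2 * w i - 1)).toReal) :=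
              ENNReal.ofReal_le_ofReal h
          _ = _ := by
              have e : (2 * (j : ℝ) + 3) = ((2 * j + 3 : ℕ) : ℝ) := by push_cast; ring
              rw [ENNReal.ofReal_add (tsum_second_nonneg hw j)
                (mul_nonneg (by positivity) ENNReal.toReal_nonneg), e,
                ENNReal.ofReal_mul (Nat.cast_nonneg _), ENNReal.ofReal_natCast,
                ENNReal.ofReal_toReal ht]

/-- (E-e) -/
theorem PP_zero_ge (hμ : PosLaw μ) (j : ℕ) :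
    ENNReal.ofReal ((1 / 2 : ℝ) ^ (j + 1)) ≤ PP μ (fun g => if g = 0 then 1 else 0) j := by
  rw [PP_eq hμ]
  calc ENNReal.ofReal ((1 / 2 : ℝ) ^ (j + 1)) = ∫⁻ _w, ENNReal.ofReal ((1 / 2 : ℝ) ^ (j + 1)) ∂μ := by
        simp
    _ ≤ _ := by
      refine lintegral_mono_ae ?_
      filter_upwards [hμ] with w hw
      calc ENNReal.ofReal ((1 / 2 : ℝ) ^ (j + 1)) ≤ ENNReal.ofReal (p w j 0) :=
            ENNReal.ofReal_le_ofReal (p_zero_ge hw j)
        _ = ENNReal.ofReal (p w j 0) * (if (0 : ℕ) = 0 then 1 else 0) := by simp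
        _ ≤ _ := ENNReal.le_tsum 0

/-- (E-f) -/
theorem PP_tail_pos (hμ : PosLaw μ) (hwel : 0 < μ {w | ∀ i, w i < 1}) (j m : ℕ) :
    0 < PP μ (fun g => if m ≤ g then 1 else 0) j := by
  rw [PP_eq hμ, lintegral_pos_iff_support (measurable_q j _)]
  refine lt_of_lt_of_le hwel ?_
  refine measure_mono_ae ?_
  filter_upwards [hμ] with w hw h
  refine Function.mem_support.2 ?_
  have h' : ∀ i, w i < 1 := h
  have h1 := tail_pos hw h' j m
  have h2 : ∃ g, m ≤ g ∧ 0 < p w j g := by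
    by_contra hc
    push Not at hc
    have h3 : HasSum (fun g => p w j g) (∑ g ∈ range m, p w j g) := by
      refine hasSum_sum_of_ne_finset_zero (fun g hg => ?_)
      exact le_antisymm (hc g (by simpa using hg)) (p_nonneg hw j g)
    have h4 := h3.unique (hasSum_p hw j)
    linarith
  obtain ⟨g, hg, hpos⟩ := h2
  intro h0
  have h3 := ENNReal.tsum_eq_zero.1 h0 g
  rw [if_pos hg, mul_one, ENNReal.ofReal_eq_zero] at h3
  linarith

end Pool.Agent.Work.MP_7ca543_pr
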