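import Pool.Agent.Work.MP_7ca543_pr.Chain

/-!
# The path determined by a configuration of coins
-/

set_option linter.unusedSectionVars false

namespace Pool.Agent.Work.MP_7ca543_pr

open Finset

/-- Position and visit counters of the walk driven by the coins `ξ`. -/
def st (ξ : Cfg) : ℕ → ℤ × (ℤ → ℕ)
  | 0 => (0, fun _ => 0)
  | t + 1 =>
    (if ξ (st ξ t).1 ((st ξ t).2 (st ξ t).1) then (st ξ t).1 + 1 else (st ξ t).1 - 1,
      Function.update (st ξ t).2 (st ξ t).1 ((st ξ t).2 (st ξ t).1 + 1))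

/-- Position at time `t`. -/
def pos (ξ : Cfg) (t : ℕ) : ℤ := (st ξ t).1

/-- Number of visits to `z` strictly before time `t`. -/
def N (ξ : Cfg) (t : ℕ) (z : ℤ) : ℕ := (st ξ t).2 z

theorem pos_zero (ξ : Cfg) : pos ξ 0 = 0 := rfl

theorem N_zero (ξ : Cfg) (z : ℤ) : N ξ 0 z = 0 := rfl

theorem pos_succ (ξ : Cfg) (t : ℕ) :
    pos ξ (t + 1) = if ξ (pos ξ t) (N ξ t (pos ξ t)) then pos ξ t + 1 else pos ξ t - 1 := rfl

theorem N_succ (ξ : Cfg) (t : ℕ) (z : ℤ) :
    N ξ (t + 1) z = N ξ t z + if z = pos ξ t then 1 else 0 := by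
  unfold N
  rw [st]
  by_cases h : z = pos ξ t
  · rw [if_pos h]
    subst h
    simp [pos]
  · rw [if_neg h, add_zero]
    exact Function.update_of_ne h _ _

theorem N_mono (ξ : Cfg) (z : ℤ) : Monotone (fun t => N ξ t z) :=
  monotone_nat_of_le_succ (fun t => by rw [N_succ]; omega)

/-- Number of steps to the right from `z` before time `t`. -/
def R (ξ : Cfg) (t : ℕ) (z : ℤ) : ℕ := cnt (ξ z) (N ξ t z)

/-- Number of steps to the left from `z` before time `t`. -/
def L (ξ : Cfg) (t : ℕ) (z : ℤ) : ℕ := N ξ t z - R ξ t z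

theorem R_add_L (ξ : Cfg) (t : ℕ) (z : ℤ) : R ξ t z + L ξ t z = N ξ t z := by
  unfold L
  have : R ξ t z ≤ N ξ t z := cnt_le _ _
  omega

theorem step_cases (ξ : Cfg) (t : ℕ) :
    (ξ (pos ξ t) (N ξ t (pos ξ t)) = true ∧ pos ξ (t + 1) = pos ξ t + 1 ∧
      (∀ z, R ξ (t + 1) z = R ξ t z + if z = pos ξ t then 1 else 0) ∧
      (∀ z, L ξ (t + 1) z = L ξ t z)) ∨
    (ξ (pos ξ t) (N ξ t (pos ξ t)) = false ∧ pos ξ (t + 1) = pos ξ t - 1 ∧
      (∀ z, R ξ (t + 1) z = R ξ t z) ∧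
      (∀ z, L ξ (t + 1) z = L ξ t z + if z = pos ξ t then 1 else 0)) := by
  have hR : ∀ z, R ξ (t + 1) z = R ξ t z +
      if z = pos ξ t ∧ ξ (pos ξ t) (N ξ t (pos ξ t)) = true then 1 else 0 := by
    intro z
    unfold R
    rw [N_succ]
    by_cases h : z = pos ξ t
    · subst h
      rw [if_pos rfl, cnt]
      simp
    · simp [h]
  cases hc : ξ (pos ξ t) (N ξ t (pos ξ t)) with
  | true =>
    left
    refine ⟨rfl, ?_, ?_, ?_⟩
    · rw [pos_succ, hc]; simp
    · intro z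
      rw [hR z]
      simp [hc]
    · intro z
      have h1 := R_add_L ξ (t + 1) z
      have h2 := R_add_L ξ t z
      have h3 := N_succ ξ t z
      have h4 := hR z
      simp only [hc, and_true] at h4
      omega
  | false =>
    right
    have h4 : ∀ z, R ξ (t + 1) z = R ξ t z := by
      intro z
      rw [hR z]
      simp [hc]
    refine ⟨rfl, ?_, h4, ?_⟩
    · rw [pos_succ, hc]; simp
    · intro z
      have h1 := R_add_L ξ (t + 1) z
      have h2 := R_add_L ξ t z
      have h3 := N_succ ξ t z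
      have h4 := h4 z
      omega

theorem L_mono (ξ : Cfg) (z : ℤ) : Monotone (fun t => L ξ t z) := by
  refine monotone_nat_of_le_succ (fun t => ?_)
  rcases step_cases ξ t with ⟨_, _, _, h⟩ | ⟨_, _, _, h⟩
  · rw [h z]
  · rw [h z]; omega

theorem pos_le (ξ : Cfg) (t : ℕ) : pos ξ (t + 1) ≤ pos ξ t + 1 := by
  rcases step_cases ξ t with ⟨_, h, _⟩ | ⟨_, h, _⟩ <;> omega

theorem pos_ge (ξ : Cfg) (t : ℕ) : pos ξ t - 1 ≤ pos ξ (t + 1) := by
  rcases step_cases ξ t with ⟨_, h, _⟩ | ⟨_, h, _⟩ <;> omega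

/-- Balance of crossings. -/
theorem flow (ξ : Cfg) (t : ℕ) (z : ℤ) :
    R ξ t z + (if pos ξ t ≤ z ∧ z < 0 then 1 else 0)
      = L ξ t (z + 1) + (if 0 ≤ z ∧ z < pos ξ t then 1 else 0) := by
  induction t with
  | zero =>
    have h1 : R ξ 0 z = 0 := rfl
    have h2 : L ξ 0 (z + 1) = 0 := rfl
    rw [h1, h2, pos_zero]
  | succ t ih =>
    rcases step_cases ξ t with ⟨_, h1, h2, h3⟩ | ⟨_, h1, h2, h3⟩
    · rw [h2 z, h3 (z + 1), h1]
      split_ifs at * <;> omega
    · rw [h2 z, h3 (z + 1), h1]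
      split_ifs at * <;> omega

/-- The last departure from a site on the left of the current position was to the right. -/
theorem last_right (ξ : Cfg) (t : ℕ) (z : ℤ) (hz : z < pos ξ t) (hN : 1 ≤ N ξ t z) :
    ξ z (N ξ t z - 1) = true := by
  induction t with
  | zero => rw [N_zero] at hN; omega
  | succ t ih =>
    rw [N_succ] at hN ⊢
    by_cases h : z = pos ξ t
    · subst h
      rw [if_pos rfl, Nat.add_sub_cancel]
      rcases step_cases ξ t with ⟨hc, _⟩ | ⟨_, h1, _⟩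
      · exact hc
      · omega
    · rw [if_neg h, add_zero] at hN ⊢
      refine ih ?_ hN
      have := pos_le ξ t
      omega

theorem N_eq_zero (ξ : Cfg) (t : ℕ) (z : ℤ) (h : ∀ k < t, pos ξ k ≠ z) : N ξ t z = 0 := by
  induction t with
  | zero => rfl
  | succ t ih =>
    rw [N_succ, ih (fun k hk => h k (by omega)), if_neg (fun e => h t (by omega) e.symm)]

theorem sum_N_le (ξ : Cfg) (S : Finset ℤ) (t : ℕ) : ∑ z ∈ S, N ξ t z ≤ t := by
  induction t with
  | zero => simp [N_zero]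
  | succ t ih =>
    have : ∑ z ∈ S, N ξ (t + 1) z = ∑ z ∈ S, N ξ t z + ∑ z ∈ S, if z = pos ξ t then 1 else 0 := by
      rw [← Finset.sum_add_distrib]
      exact Finset.sum_congr rfl (fun z _ => N_succ ξ t z)
    rw [this, Finset.sum_ite_eq']
    split_ifs <;> omega

theorem sum_N_eq (ξ : Cfg) (S : Finset ℤ) (t : ℕ) (h : ∀ k < t, pos ξ k ∈ S) :
    ∑ z ∈ S, N ξ t z = t := by
  induction t with
  | zero => simp [N_zero]
  | succ t ih =>
    have : ∑ z ∈ S, N ξ (t + 1) z = ∑ z ∈ S, N ξ t z + ∑ z ∈ S, if z = pos ξ t then 1 else 0 := by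
      rw [← Finset.sum_add_distrib]
      exact Finset.sum_congr rfl (fun z _ => N_succ ξ t z)
    rw [this, Finset.sum_ite_eq', if_pos (h t (by omega)), ih (fun k hk => h k (by omega))]

theorem sum_pos_eq (ξ : Cfg) (S : Finset ℤ) (t : ℕ) (h : ∀ k < t, pos ξ k ∈ S) :
    pos ξ t = ∑ z ∈ S, (R ξ t z : ℤ) - ∑ z ∈ S, (L ξ t z : ℤ) := by
  induction t with
  | zero =>
    have h1 : ∀ z, R ξ 0 z = 0 := fun z => rfl
    have h2 : ∀ z, L ξ 0 z = 0 := fun z => rfl
    simp [h1, h2, pos_zero]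
  | succ t ih =>
    have ih' := ih (fun k hk => h k (by omega))
    have hmem := h t (by omega)
    rcases step_cases ξ t with ⟨_, h1, h2, h3⟩ | ⟨_, h1, h2, h3⟩
    · have e : ∑ z ∈ S, (R ξ (t + 1) z : ℤ) = ∑ z ∈ S, (R ξ t z : ℤ) + 1 := by
        have : ∀ z ∈ S, (R ξ (t + 1) z : ℤ) = (R ξ t z : ℤ) + if z = pos ξ t then 1 else 0 := by
          intro z _
          rw [h2 z]
          push_cast
          rfl
        rw [Finset.sum_congr rfl this, Finset.sum_add_distrib, Finset.sum_ite_eq', if_pos hmem]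
      rw [h1, e]
      simp only [h3]
      rw [ih']
      ring
    · have e : ∑ z ∈ S, (L ξ (t + 1) z : ℤ) = ∑ z ∈ S, (L ξ t z : ℤ) + 1 := by
        have : ∀ z ∈ S, (L ξ (t + 1) z : ℤ) = (L ξ t z : ℤ) + if z = pos ξ t then 1 else 0 := by
          intro z _
          rw [h3 z]
          push_cast
          rfl
        rw [Finset.sum_congr rfl this, Finset.sum_add_distrib, Finset.sum_ite_eq', if_pos hmem]
      rw [h1, e]
      simp only [h2]
      rw [ih']
      ring

/-! ### Lower bound for the hitting times -/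

theorem V_eq_L (ξ : Cfg) (n t : ℕ) (h : pos ξ t = n) (hfirst : ∀ k < t, pos ξ k ≠ n) (i : ℕ)
    (hi : i ≤ n) : V ξ n i = L ξ t (n - i) := by
  induction i with
  | zero =>
    have h1 : N ξ t n = 0 := N_eq_zero ξ t n hfirst
    have h2 := R_add_L ξ t n
    simp only [V, Nat.cast_zero, sub_zero]
    omega
  | succ i ih =>
    have ih' := ih (by omega)
    set z : ℤ := n - i - 1 with hz
    have hz1 : (n : ℤ) - i = z + 1 := by rw [hz]; ring
    have hz2 : (n : ℤ) - ((i + 1 : ℕ) : ℤ) = z := by rw [hz]; push_cast; ring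
    have hz0 : 0 ≤ z := by omega
    have hzn : z < pos ξ t := by omega
    rw [hz1] at ih'
    rw [hz2, V, ← hz, ih']
    have hf := flow ξ t z
    rw [if_neg (by omega), if_pos ⟨hz0, hzn⟩] at hf
    have hRL := R_add_L ξ t z
    have hN : 1 ≤ N ξ t z := by omega
    have hlast := last_right ξ t z hzn hN
    apply IsG.F_eq
    have e : L ξ t (z + 1) + L ξ t z = N ξ t z - 1 := by omega
    unfold IsG
    rw [e]
    refine ⟨?_, hlast⟩
    have h1 : cnt (ξ z) (N ξ t z) = R ξ t z := rfl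
    obtain ⟨m, hm⟩ := Nat.exists_eq_add_of_le' hN
    rw [hm] at h1 hlast ⊢
    rw [Nat.add_sub_cancel] at hlast ⊢
    rw [cnt, hlast] at h1
    simp only [if_true] at h1
    omega

theorem exists_first (ξ : Cfg) (n t : ℕ) (h : (n : ℤ) ≤ pos ξ t) :
    ∃ k ≤ t, pos ξ k = n ∧ ∀ j < k, pos ξ j ≠ n := by
  classical
  have hex : ∃ k, (n : ℤ) ≤ pos ξ k := ⟨t, h⟩
  refine ⟨Nat.find hex, Nat.find_min' hex h, ?_, ?_⟩
  · have h1 := Nat.find_spec hex
    rcases Nat.eq_zero_or_pos (Nat.find hex) with h0 | h0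
    · rw [h0] at h1 ⊢
      rw [pos_zero] at h1 ⊢
      omega
    · obtain ⟨m, hm⟩ := Nat.exists_eq_add_of_lt h0
      rw [zero_add] at hm
      have h2 := Nat.find_min hex (m := m) (by omega)
      have h3 := pos_le ξ m
      rw [hm] at h1 ⊢
      omega
  · intro j hj
    have := Nat.find_min hex hj
    omega

/-- If the walk is at or above `n` at time `t`, then `n + 2 ∑ V ≤ t + V_n`. -/
theorem hit_lower (ξ : Cfg) (n t : ℕ) (h : (n : ℤ) ≤ pos ξ t) :
    n + 2 * ∑ i ∈ range (n + 1), V ξ n i ≤ t + V ξ n n := by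
  obtain ⟨k, hk, hpos, hfirst⟩ := exists_first ξ n t h
  have hV := V_eq_L ξ n k hpos hfirst
  have h0 : V ξ n 0 = 0 := rfl
  -- sum over the sites
  have h1 : ∑ i ∈ range n, N ξ k ((n : ℤ) - (i + 1 : ℕ)) ≤ k := by
    have hinj : Set.InjOn (fun i : ℕ => (n : ℤ) - (i + 1 : ℕ)) (range n) := by
      intro a _ b _ hab
      simp only at hab
      omega
    rw [← Finset.sum_image (f := fun z => N ξ k z) hinj]
    exact sum_N_le ξ _ k
  have h2 : ∀ i ∈ range n, N ξ k ((n : ℤ) - (i + 1 : ℕ)) = V ξ n i + 1 + V ξ n (i + 1) := by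
    intro i hi
    have hi' := Finset.mem_range.1 hi
    have hf := flow ξ k ((n : ℤ) - (i + 1 : ℕ))
    rw [if_neg (by rw [hpos]; omega), if_pos ⟨by omega, by rw [hpos]; omega⟩] at hf
    have hRL := R_add_L ξ k ((n : ℤ) - (i + 1 : ℕ))
    have e1 := hV i (by omega)
    have e2 := hV (i + 1) (by omega)
    have e3 : (n : ℤ) - (i + 1 : ℕ) + 1 = n - i := by push_cast; ring
    rw [e3] at hf
    omega
  rw [Finset.sum_congr rfl h2] at h1
  rw [Finset.sum_add_distrib, Finset.sum_add_distrib] at h1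
  have h3 : ∑ i ∈ range (n + 1), V ξ n i = ∑ i ∈ range n, V ξ n (i + 1) := by
    rw [Finset.sum_range_succ', h0, add_zero]
  have h4 : ∑ i ∈ range (n + 1), V ξ n i = ∑ i ∈ range n, V ξ n i + V ξ n n :=
    Finset.sum_range_succ _ _
  simp only [Finset.sum_const, Finset.card_range, smul_eq_mul, mul_one] at h1
  omega

/-! ### Upper bound for the hitting times -/

theorem isG_step {r : ℕ → Bool} {j g n : ℕ} (h : IsG r j g) (hR : cnt r n ≤ j)
    (hc : r n = false) : (n - cnt r n) + 1 ≤ g := by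
  have h1 : n ≤ j + g := by
    by_contra hcon
    push Not at hcon
    have h2 := cnt_mono r (show j + g + 1 ≤ n by omega)
    rw [cnt, h.1, h.2] at h2
    simp at h2
    omega
  rcases h1.lt_or_eq with hlt | heq
  · have h2 := fl_mono r (show n + 1 ≤ j + g by omega)
    simp only at h2
    rw [cnt, hc, h.1] at h2
    have := cnt_le r n
    simp at h2
    omega
  · rw [heq, h.2] at hc
    exact absurd hc (by simp)

theorem L_le (ξ : Cfg) (n : ℕ) (d : ℤ → ℕ) (hd0 : ∀ z : ℤ, 0 ≤ z → z < n → IsG (ξ z) (d (z + 1)) (d z))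
    (hdneg : ∀ z : ℤ, z < 0 → 1 ≤ d (z + 1) → IsG (ξ z) (d (z + 1) - 1) (d z))
    (t : ℕ) (ht : ∀ k < t, pos ξ k < n) (z : ℤ) (hz : z ≤ n) : L ξ t z ≤ d z := by
  induction t generalizing z with
  | zero => exact Nat.zero_le _
  | succ t ih =>
    have ih' := ih (fun k hk => ht k (by omega))
    rcases step_cases ξ t with ⟨_, _, _, h3⟩ | ⟨hc, h1, _, h3⟩
    · rw [h3 z]
      exact ih' z hz
    · rw [h3 z]
      by_cases hzx : z = pos ξ t
      · rw [if_pos hzx]
        subst hzx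
        have hx := ht t (by omega)
        set x := pos ξ t with hxdef
        have hf := flow ξ t x
        have hnext := ih' (x + 1) (by omega)
        by_cases hneg : x < 0
        · rw [if_pos ⟨le_rfl, hneg⟩, if_neg (by omega)] at hf
          have hG := hdneg x hneg (by omega)
          have hR : cnt (ξ x) (N ξ t x) ≤ d (x + 1) - 1 := by
            have : cnt (ξ x) (N ξ t x) = R ξ t x := rfl
            omega
          exact isG_step hG hR hc
        · rw [if_neg (by omega), if_neg (by omega)] at hf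
          have hG := hd0 x (by omega) hx
          have hR : cnt (ξ x) (N ξ t x) ≤ d (x + 1) := by
            have : cnt (ξ x) (N ξ t x) = R ξ t x := rfl
            omega
          exact isG_step hG hR hc
      · rw [if_neg hzx, add_zero]
        exact ih' z hz

/-- Upper bound for the hitting time of `n`. -/
theorem hit_upper (ξ : Cfg) (n m : ℕ) (d : ℤ → ℕ)
    (hd0 : ∀ z : ℤ, 0 ≤ z → z < n → IsG (ξ z) (d (z + 1)) (d z))
    (hdneg : ∀ z : ℤ, z < 0 → 1 ≤ d (z + 1) → IsG (ξ z) (d (z + 1) - 1) (d z))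
    (hdm : d (-m) = 0) :
    ∃ k ≤ n + 2 * ∑ z ∈ Finset.Ico (-(m : ℤ)) n, d z, pos ξ k = n := by
  by_contra hcon
  push Not at hcon
  set T := n + 2 * ∑ z ∈ Finset.Ico (-(m : ℤ)) n, d z with hT
  have hlt : ∀ k ≤ T, pos ξ k < n := by
    intro k hk
    by_contra h
    push Not at h
    obtain ⟨k', hk', hpos, _⟩ := exists_first ξ n k h
    exact hcon k' (by omega) hpos
  have hL := L_le ξ n d hd0 hdneg T (fun k hk => hlt k hk.le)
  have hLm : L ξ T (-m) = 0 := by
    have := hL (-m) (by omega)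
    omega
  have hge : ∀ k ≤ T, -(m : ℤ) ≤ pos ξ k := by
    intro k hk
    by_contra h
    push Not at h
    have h1 : L ξ k (-m) = 0 := by
      have := L_mono ξ (-m) hk
      simp only at this
      omega
    have hf := flow ξ k (-(m : ℤ) - 1)
    rw [if_pos ⟨by omega, by omega⟩, if_neg (by omega)] at hf
    have : -(m : ℤ) - 1 + 1 = -m := by ring
    rw [this] at hf
    omega
  have hmem : ∀ k < T, pos ξ k ∈ Finset.Ico (-(m : ℤ)) n := by
    intro k hk
    rw [Finset.mem_Ico]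
    exact ⟨hge k hk.le, hlt k hk.le⟩
  have h1 := sum_N_eq ξ _ T hmem
  have h2 := sum_pos_eq ξ _ T hmem
  have h3 : ∑ z ∈ Finset.Ico (-(m : ℤ)) n, N ξ T z
      = ∑ z ∈ Finset.Ico (-(m : ℤ)) n, R ξ T z + ∑ z ∈ Finset.Ico (-(m : ℤ)) n, L ξ T z := by
    rw [← Finset.sum_add_distrib]
    exact Finset.sum_congr rfl (fun z _ => (R_add_L ξ T z).symm)
  have h4 : ∑ z ∈ Finset.Ico (-(m : ℤ)) n, L ξ T z ≤ ∑ z ∈ Finset.Ico (-(m : ℤ)) n, d z := by
    refine Finset.sum_le_sum (fun z hz => hL z ?_)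
    have := (Finset.mem_Ico.1 hz).2
    omega
  have h5 := hlt T le_rfl
  rw [h2] at h5
  have h6 : (∑ z ∈ Finset.Ico (-(m : ℤ)) n, (R ξ T z : ℤ))
      = ((∑ z ∈ Finset.Ico (-(m : ℤ)) n, R ξ T z : ℕ) : ℤ) := by push_cast; rfl
  have h7 : (∑ z ∈ Finset.Ico (-(m : ℤ)) n, (L ξ T z : ℤ))
      = ((∑ z ∈ Finset.Ico (-(m : ℤ)) n, L ξ T z : ℕ) : ℤ) := by push_cast; rfl
  rw [h6, h7] at h5
  omega

end Pool.Agent.Work.MP_7ca543_pr
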