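import Pool.Agent.Work.MP_7ca543_pr.Path
import Pool.Agent.Work.MP_7ca543_pr.Defs

/-!
# The law of the walk
-/

set_option linter.unusedSectionVars false

namespace Pool.Agent.Work.MP_7ca543_pr

open MeasureTheory Measure ProbabilityTheory Finset Filter Topology
open scoped ENNReal

/-! ### Measures on path space are determined by cylinders -/

/-- The set of paths which agree with `y` up to time `n`. -/
def cyl (n : ℕ) (y : ℕ → ℤ) : Set (ℕ → ℤ) := {x | ∀ i ≤ n, x i = y i}

theorem measurableSet_cyl (n : ℕ) (y : ℕ → ℤ) : MeasurableSet (cyl n y) := by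
  have : cyl n y = ⋂ i ∈ Finset.range (n + 1), {x : ℕ → ℤ | x i = y i} := by
    ext x
    simp [cyl]
  rw [this]
  refine Finset.measurableSet_biInter _ (fun i _ => ?_)
  have hm : Measurable (fun x : ℕ → ℤ => x i) := measurable_pi_apply i
  exact hm (measurableSet_singleton (y i))

theorem ext_cyl {P Q : Measure (ℕ → ℤ)} [IsFiniteMeasure P] [IsFiniteMeasure Q]
    (h : ∀ n (y : ℕ → ℤ), P (cyl n y) = Q (cyl n y)) : P = Q := by
  have hfam : IsProjectiveMeasureFamily (fun I : Finset ℕ => P.map I.restrict) := by
    intro I J hJI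
    simp only
    rw [Measure.map_map (by fun_prop) (by fun_prop)]
    rfl
  have hP : IsProjectiveLimit P (fun I : Finset ℕ => P.map I.restrict) := fun I => rfl
  have hQ : IsProjectiveLimit Q (fun I : Finset ℕ => P.map I.restrict) := by
    rw [isProjectiveLimit_nat_iff hfam]
    intro n
    refine Measure.ext_of_singleton (fun a => ?_)
    rw [Measure.map_apply (by fun_prop) (measurableSet_singleton a),
      Measure.map_apply (by fun_prop) (measurableSet_singleton a)]
    have hpre : ∀ (f : (ℕ → ℤ) → ((i : Finset.Iic n) → ℤ)), (∀ x i, f x i = x i) →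
        f ⁻¹' {a} = cyl n (fun i => if h : i ∈ Finset.Iic n then a ⟨i, h⟩ else 0) := by
      intro f hf
      ext x
      simp only [Set.mem_preimage, Set.mem_singleton_iff, cyl, Set.mem_ofPred_eq]
      constructor
      · intro hx i hi
        have hi' : i ∈ Finset.Iic n := Finset.mem_Iic.2 hi
        rw [dif_pos hi', ← hx, hf]
      · intro hx
        ext i
        rw [hf]
        have h1 := hx i (Finset.mem_Iic.1 i.2)
        rw [dif_pos i.2] at h1
        exact h1
    rw [hpre (Preorder.frestrictLe n) (fun x i => rfl),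
      hpre ((Finset.Iic n).restrict) (fun x i => rfl)]
    exact (h n _).symm
  exact hP.unique hQ

theorem cyl_congr {n : ℕ} {y y' : ℕ → ℤ} (h : ∀ i ≤ n, y i = y' i) : cyl n y = cyl n y' := by
  ext x
  simp only [cyl, Set.mem_ofPred_eq]
  constructor
  · intro hx i hi
    rw [hx i hi, h i hi]
  · intro hx i hi
    rw [hx i hi, h i hi]

/-- Cylinder probabilities are determined by the quenched step probabilities. -/
theorem IsQuenchedLaw.cyl_eq {ω : ℤ → ℕ → ℝ} {P Q : Measure (ℕ → ℤ)} (hP : IsQuenchedLaw ω P)
    (hQ : IsQuenchedLaw ω Q) (n : ℕ) (y : ℕ → ℤ) : P (cyl n y) = Q (cyl n y) := by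
  have hPp : IsProbabilityMeasure P := ⟨hP.prob⟩
  have hQp : IsProbabilityMeasure Q := ⟨hQ.prob⟩
  induction n with
  | zero =>
    have key : ∀ {R : Measure (ℕ → ℤ)}, IsQuenchedLaw ω R →
        R (cyl 0 y) = if y 0 = 0 then 1 else 0 := by
      intro R hR
      split_ifs with h0
      · rw [← hR.prob]
        refine measure_congr ?_
        filter_upwards [hR.start] with x hx
        refine propext ?_
        change (x ∈ cyl 0 y) ↔ (x ∈ Set.univ)
        simp [cyl, hx, h0]
      · have : R (cyl 0 y) = R ∅ := by
          refine measure_congr ?_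
          filter_upwards [hR.start] with x hx
          refine propext ?_
          change (x ∈ cyl 0 y) ↔ (x ∈ (∅ : Set (ℕ → ℤ)))
          simp [cyl, hx, Ne.symm h0]
        rw [this, measure_empty]
    rw [key hP, key hQ]
  | succ n ih =>
    have hm1 : MeasurableSet {x : ℕ → ℤ | x (n + 1) = y n + 1} := by
      have hm : Measurable (fun x : ℕ → ℤ => x (n + 1)) := measurable_pi_apply (n + 1)
      exact hm (measurableSet_singleton (y n + 1))
    by_cases h1 : y (n + 1) = y n + 1
    · have key : ∀ {R : Measure (ℕ → ℤ)}, IsQuenchedLaw ω R →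
          R (cyl (n + 1) y) = ENNReal.ofReal (ω (y n) (visits y n)) * R (cyl n y) := by
        intro R hR
        rw [cyl, cyl, ← hR.step n y]
        congr 1
        ext x
        simp only [Set.mem_ofPred_eq]
        constructor
        · intro hx
          exact ⟨fun i hi => hx i (by omega), by rw [hx (n + 1) le_rfl, h1]⟩
        · rintro ⟨hx1, hx2⟩ i hi
          rcases Nat.lt_or_ge i (n + 1) with h | h
          · exact hx1 i (by omega)
          · have : i = n + 1 := by omega
            rw [this, hx2, h1]
      rw [key hP, key hQ, ih]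
    · by_cases h2 : y (n + 1) = y n - 1
      · have key : ∀ {R : Measure (ℕ → ℤ)}, IsQuenchedLaw ω R →
            R (cyl (n + 1) y) = R (cyl n y)
              - ENNReal.ofReal (ω (y n) (visits y n)) * R (cyl n y) := by
          intro R hR
          have hRp : IsProbabilityMeasure R := ⟨hR.prob⟩
          have e1 : {x : ℕ → ℤ | (∀ i ≤ n, x i = y i) ∧ x (n + 1) = y n + 1}
              = cyl n y ∩ {x | x (n + 1) = y n + 1} := rfl
          have e2 : R (cyl (n + 1) y) = R (cyl n y \ (cyl n y ∩ {x | x (n + 1) = y n + 1})) := by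
            refine measure_congr ?_
            filter_upwards [hR.nearest] with x hx
            refine propext ?_
            change (x ∈ cyl (n + 1) y) ↔ (x ∈ cyl n y \ (cyl n y ∩ {x | x (n + 1) = y n + 1}))
            simp only [cyl, Set.mem_ofPred_eq, Set.mem_sdiff, Set.mem_inter_iff, not_and]
            constructor
            · intro hx1
              refine ⟨fun i hi => hx1 i (by omega), fun _ h3 => ?_⟩
              rw [hx1 (n + 1) le_rfl] at h3
              exact h1 h3
            · rintro ⟨hx1, hx2⟩ i hi
              rcases Nat.lt_or_ge i (n + 1) with h | h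
              · exact hx1 i (by omega)
              · have : i = n + 1 := by omega
                rw [this, h2]
                have h4 := hx2 hx1
                rcases hx n with h5 | h5
                · exact absurd (by rw [h5, hx1 n le_rfl]) h4
                · rw [h5, hx1 n le_rfl]
          rw [e2, measure_sdiff Set.inter_subset_left
            ((measurableSet_cyl n y).inter hm1).nullMeasurableSet (measure_ne_top _ _), ← e1,
            hR.step n y]
          rfl
        rw [key hP, key hQ, ih]
      · have key : ∀ {R : Measure (ℕ → ℤ)}, IsQuenchedLaw ω R → R (cyl (n + 1) y) = 0 := by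
          intro R hR
          have : R (cyl (n + 1) y) = R ∅ := by
            refine measure_congr ?_
            filter_upwards [hR.nearest] with x hx
            refine propext ?_
            change (x ∈ cyl (n + 1) y) ↔ (x ∈ (∅ : Set (ℕ → ℤ)))
            simp only [cyl, Set.mem_ofPred_eq, Set.mem_empty_iff_false, iff_false]
            intro hx1
            rcases hx n with h5 | h5
            · rw [hx1 (n + 1) le_rfl, hx1 n (by omega)] at h5
              exact h1 h5
            · rw [hx1 (n + 1) le_rfl, hx1 n (by omega)] at h5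
              exact h2 h5
          rw [this, measure_empty]
        rw [key hP, key hQ]

/-! ### The quenched law from coins -/

/-- Uniform variables indexed by `ℤ × ℕ`. -/
noncomputable def UUU : Measure (ℤ → ℕ → ℝ) := infinitePi (fun _ : ℤ => UU)

instance : IsProbabilityMeasure UUU := by unfold UUU; infer_instance

/-- Coins of the whole environment. -/
noncomputable def coinZ (ω u : ℤ → ℕ → ℝ) : Cfg := fun z => coin (ω z) (u z)

theorem measurable_coinZ : Measurable (fun q : (ℤ → ℕ → ℝ) × (ℤ → ℕ → ℝ) => coinZ q.1 q.2) := by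
  rw [measurable_pi_iff]
  intro z
  have h1 : Measurable (fun q : (ℤ → ℕ → ℝ) × (ℤ → ℕ → ℝ) => q.1 z) :=
    (measurable_pi_apply z).comp measurable_fst
  have h2 : Measurable (fun q : (ℤ → ℕ → ℝ) × (ℤ → ℕ → ℝ) => q.2 z) :=
    (measurable_pi_apply z).comp measurable_snd
  exact measurable_coin.comp (h1.prodMk h2)

theorem measurable_coinZ_right (ω : ℤ → ℕ → ℝ) : Measurable (coinZ ω) :=
  measurable_coinZ.comp (measurable_const.prodMk measurable_id)

theorem measurable_pos_N (t : ℕ) : Measurable (fun ξ : Cfg => pos ξ t) ∧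
    ∀ z, Measurable (fun ξ : Cfg => N ξ t z) := by
  induction t with
  | zero => exact ⟨measurable_const, fun z => measurable_const⟩
  | succ t ih =>
    obtain ⟨ih1, ih2⟩ := ih
    have hcoin : MeasurableSet {ξ : Cfg | ξ (pos ξ t) (N ξ t (pos ξ t)) = true} := by
      have : {ξ : Cfg | ξ (pos ξ t) (N ξ t (pos ξ t)) = true}
          = ⋃ a : ℤ, ⋃ b : ℕ, ({ξ | pos ξ t = a} ∩ {ξ | N ξ t a = b}) ∩ {ξ | ξ a b = true} := by
        ext ξ
        simp only [Set.mem_ofPred_eq, Set.mem_iUnion, Set.mem_inter_iff]
        constructor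
        · intro h
          exact ⟨pos ξ t, N ξ t (pos ξ t), ⟨rfl, rfl⟩, h⟩
        · rintro ⟨a, b, ⟨h1, h2⟩, h3⟩
          rw [h1, h2, h3]
      rw [this]
      refine MeasurableSet.iUnion (fun a => MeasurableSet.iUnion (fun b => ?_))
      have h1 : MeasurableSet {ξ : Cfg | pos ξ t = a} := ih1 (measurableSet_singleton a)
      have h2 : MeasurableSet {ξ : Cfg | N ξ t a = b} := ih2 a (measurableSet_singleton b)
      have h3 : Measurable (fun ξ : Cfg => ξ a b) :=
        (measurable_pi_apply b).comp (measurable_pi_apply a)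
      exact (h1.inter h2).inter (h3 (measurableSet_singleton true))
    refine ⟨?_, fun z => ?_⟩
    · have : (fun ξ : Cfg => pos ξ (t + 1))
          = fun ξ => if ξ (pos ξ t) (N ξ t (pos ξ t)) = true then pos ξ t + 1 else pos ξ t - 1 := by
        ext ξ
        exact pos_succ ξ t
      rw [this]
      exact Measurable.ite hcoin (ih1.add_const 1) (ih1.sub_const 1)
    · have : (fun ξ : Cfg => N ξ (t + 1) z) = fun ξ => N ξ t z + if z = pos ξ t then 1 else 0 := by
        ext ξ
        exact N_succ ξ t z
      rw [this]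
      refine (ih2 z).add (Measurable.ite ?_ measurable_const measurable_const)
      have h1 : {a : Cfg | z = pos a t} = {a | pos a t = z} := by
        ext a
        exact eq_comm
      rw [h1]
      exact ih1 (measurableSet_singleton z)

theorem measurable_pos (t : ℕ) : Measurable (fun ξ : Cfg => pos ξ t) := (measurable_pos_N t).1

theorem measurable_path : Measurable (fun ξ : Cfg => pos ξ) :=
  measurable_pi_iff.2 (fun t => measurable_pos t)

theorem N_eq_card (ξ : Cfg) (t : ℕ) (z : ℤ) :
    N ξ t z = ((Finset.range t).filter (fun j => pos ξ j = z)).card := by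
  induction t with
  | zero => simp [N_zero]
  | succ t ih =>
    rw [N_succ, ih, Finset.range_add_one, Finset.filter_insert]
    by_cases h : z = pos ξ t
    · rw [if_pos h, if_pos h.symm, Finset.card_insert_of_notMem (by simp)]
    · rw [if_neg h, if_neg (Ne.symm h), add_zero]

theorem N_pos_eq_visits (ξ : Cfg) (t : ℕ) : N ξ t (pos ξ t) = visits (pos ξ) t := by
  rw [N_eq_card]
  rfl

theorem visits_congr {x y : ℕ → ℤ} {n : ℕ} (h : ∀ i ≤ n, x i = y i) : visits x n = visits y n := by
  unfold visits
  congr 1
  refine Finset.filter_congr (fun j hj => ?_)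
  rw [h j (by have := Finset.mem_range.1 hj; omega), h n le_rfl]

/-- The state at time `≤ n` does not change if we change coins which are not used before `n`. -/
theorem st_congr (ξ ξ' : Cfg) (n : ℕ)
    (h : ∀ k < n, ξ' (pos ξ k) (N ξ k (pos ξ k)) = ξ (pos ξ k) (N ξ k (pos ξ k))) :
    ∀ k ≤ n, st ξ' k = st ξ k := by
  intro k hk
  induction k with
  | zero => rfl
  | succ k ih =>
    have ih' := ih (by omega)
    rw [st, st, ih']
    have := h k (by omega)
    unfold pos N at this
    rw [this]

/-- Path event at time `n` is not affected by the coin used at time `n`. -/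
theorem cyl_update (ξ ξ' : Cfg) (n : ℕ) (y : ℕ → ℤ) (hξ : pos ξ ∈ cyl n y)
    (h : ∀ z i, (z, i) ≠ (y n, visits y n) → ξ' z i = ξ z i) : pos ξ' ∈ cyl n y := by
  have hst := st_congr ξ ξ' n (fun k hk => by
    refine h _ _ (fun he => ?_)
    have h1 : pos ξ k = y n := (Prod.ext_iff.1 he).1
    have h2 : N ξ k (pos ξ k) = visits y n := (Prod.ext_iff.1 he).2
    have h3 : visits y n = N ξ n (pos ξ n) := by
      rw [N_pos_eq_visits]
      exact visits_congr (fun i hi => (hξ i hi).symm)
    have h4 : pos ξ n = y n := hξ n le_rfl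
    have h5 : N ξ (k + 1) (pos ξ k) ≤ N ξ n (pos ξ k) := N_mono ξ _ (by omega)
    rw [N_succ, if_pos rfl] at h5
    rw [h1, ← h4] at h5
    rw [h1, ← h4] at h2
    omega)
  intro i hi
  rw [← hξ i hi]
  unfold pos
  rw [hst i hi]

theorem measure_inter_coordZ (z : ℤ) (v : ℕ) {S : Set (ℤ → ℕ → ℝ)} (hS : MeasurableSet S)
    (hinv : ∀ (u : ℤ → ℕ → ℝ) (x : ℝ),
      Function.update u z (Function.update (u z) v x) ∈ S ↔ u ∈ S)
    {B : Set ℝ} (hB : MeasurableSet B) :
    UUU (S ∩ {u | u z v ∈ B}) = UUU S * U B := by
  have hmB : MeasurableSet {u : ℤ → ℕ → ℝ | u z v ∈ B} := by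
    have : Measurable (fun u : ℤ → ℕ → ℝ => u z v) :=
      (measurable_pi_apply v).comp (measurable_pi_apply z)
    exact this hB
  unfold UUU
  rw [measure_resample (fun _ : ℤ => UU) z (hS.inter hmB), measure_resample (fun _ : ℤ => UU) z hS,
    ← lintegral_mul_const]
  · refine lintegral_congr (fun u => ?_)
    have e : {r : ℕ → ℝ | Function.update u z r ∈ S ∩ {u : ℤ → ℕ → ℝ | u z v ∈ B}}
        = {r | Function.update u z r ∈ S} ∩ {r | r v ∈ B} := by
      ext r
      simp
    rw [e]
    refine measure_inter_coord (fun _ : ℕ => U) v ((measurable_update u) hS) (fun r x => ?_) hB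
    simp only [Set.mem_preimage]
    have := hinv (Function.update u z r) x
    rw [Function.update_self, Function.update_idem] at this
    exact this
  · have hm := measurable_measure_prodMk_left (ν := UU)
      (s := (fun q : (ℤ → ℕ → ℝ) × (ℕ → ℝ) => Function.update q.1 z q.2) ⁻¹' S)
      (((measurable_update_pair (X := fun _ : ℤ => ℕ → ℝ) z).comp measurable_swap) hS)
    exact hm

/-- The path of the coins has the quenched law. -/
theorem isQuenchedLaw_coins (ω : ℤ → ℕ → ℝ) (hω : ∀ z i, 0 ≤ ω z i ∧ ω z i ≤ 1) :
    IsQuenchedLaw ω (UUU.map (fun u => pos (coinZ ω u))) := by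
  have hmeas : Measurable (fun u => pos (coinZ ω u)) :=
    measurable_path.comp (measurable_coinZ_right ω)
  refine ⟨?_, ?_, ?_, ?_⟩
  · rw [Measure.map_apply hmeas MeasurableSet.univ]
    simp
  · have : MeasurableSet {x : ℕ → ℤ | x 0 = 0} := by
      have hm : Measurable (fun x : ℕ → ℤ => x 0) := measurable_pi_apply 0
      exact hm (measurableSet_singleton 0)
    rw [ae_map_iff hmeas.aemeasurable this]
    exact Filter.Eventually.of_forall (fun u => rfl)
  · have : MeasurableSet {x : ℕ → ℤ | ∀ n, x (n + 1) = x n + 1 ∨ x (n + 1) = x n - 1} := by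
      have e : {x : ℕ → ℤ | ∀ n, x (n + 1) = x n + 1 ∨ x (n + 1) = x n - 1}
          = ⋂ n, ({x | x (n + 1) = x n + 1} ∪ {x | x (n + 1) = x n - 1}) := by
        ext x
        simp
      rw [e]
      refine MeasurableSet.iInter (fun n => ?_)
      have h0 : Measurable (fun x : ℕ → ℤ => x n) := measurable_pi_apply n
      have h1 : Measurable (fun x : ℕ → ℤ => x (n + 1)) := measurable_pi_apply (n + 1)
      exact (measurableSet_eq_fun h1 (h0.add_const 1)).union
        (measurableSet_eq_fun h1 (h0.sub_const 1))
    rw [ae_map_iff hmeas.aemeasurable this]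
    refine Filter.Eventually.of_forall (fun u n => ?_)
    rcases step_cases (coinZ ω u) n with ⟨_, h, _⟩ | ⟨_, h, _⟩
    · left; exact h
    · right; exact h
  · intro n y
    have hm1 : MeasurableSet {x : ℕ → ℤ | (∀ i ≤ n, x i = y i) ∧ x (n + 1) = y n + 1} := by
      have hm : Measurable (fun x : ℕ → ℤ => x (n + 1)) := measurable_pi_apply (n + 1)
      exact (measurableSet_cyl n y).inter (hm (measurableSet_singleton (y n + 1)))
    rw [Measure.map_apply hmeas hm1]
    have e2 : (UUU.map (fun u => pos (coinZ ω u))) {x | ∀ i ≤ n, x i = y i}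
        = UUU {u | pos (coinZ ω u) ∈ cyl n y} :=
      Measure.map_apply hmeas (measurableSet_cyl n y)
    rw [e2]
    have e1 : (fun u => pos (coinZ ω u)) ⁻¹' {x : ℕ → ℤ | (∀ i ≤ n, x i = y i) ∧ x (n + 1) = y n + 1}
        = {u | pos (coinZ ω u) ∈ cyl n y}
          ∩ {u | u (y n) (visits y n) ∈ {r | r < ω (y n) (visits y n)}} := by
      ext u
      simp only [Set.mem_preimage, Set.mem_ofPred_eq, Set.mem_inter_iff]
      constructor
      · rintro ⟨h1, h2⟩
        refine ⟨h1, ?_⟩
        have h3 : pos (coinZ ω u) n = y n := h1 n le_rfl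
        have h4 : N (coinZ ω u) n (pos (coinZ ω u) n) = visits y n := by
          rw [N_pos_eq_visits]
          exact visits_congr h1
        rcases step_cases (coinZ ω u) n with ⟨hc, _⟩ | ⟨_, h, _⟩
        · rw [h4, h3] at hc
          simpa [coinZ, coin] using hc
        · omega
      · rintro ⟨h1, h2⟩
        refine ⟨h1, ?_⟩
        have h3 : pos (coinZ ω u) n = y n := h1 n le_rfl
        have h4 : N (coinZ ω u) n (pos (coinZ ω u) n) = visits y n := by
          rw [N_pos_eq_visits]
          exact visits_congr h1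
        rcases step_cases (coinZ ω u) n with ⟨_, h, _⟩ | ⟨hc, _⟩
        · rw [h, h3]
        · rw [h4, h3] at hc
          simp [coinZ, coin] at hc
          linarith
    rw [e1, measure_inter_coordZ (y n) (visits y n)]
    · rw [U_lt (hω _ _).2, mul_comm]
    · exact hmeas (measurableSet_cyl n y)
    · intro u x
      simp only [Set.mem_ofPred_eq]
      have hagree : ∀ z i, (z, i) ≠ (y n, visits y n) →
          coinZ ω (Function.update u (y n) (Function.update (u (y n)) (visits y n) x)) z i
            = coinZ ω u z i := by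
        intro z i hne
        unfold coinZ coin
        by_cases hz : z = y n
        · subst hz
          have hi : i ≠ visits y n := fun h => hne (by rw [h])
          rw [Function.update_self, Function.update_of_ne hi]
        · rw [Function.update_of_ne hz]
      constructor
      · intro h
        exact cyl_update _ _ n y h (fun z i hne => (hagree z i hne).symm)
      · intro h
        exact cyl_update _ _ n y h hagree
    · exact measurableSet_lt measurable_id measurable_const

/-! ### The annealed law -/

variable {μ : Measure (ℕ → ℝ)} [IsProbabilityMeasure μ]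

/-- The law of the environment. -/
noncomputable def Env (μ : Measure (ℕ → ℝ)) [IsProbabilityMeasure μ] : Measure (ℤ → ℕ → ℝ) :=
  infinitePi (fun _ : ℤ => μ)

instance : IsProbabilityMeasure (Env μ) := by unfold Env; infer_instance

theorem map_coinZ : ((Env μ).prod UUU).map (fun q => coinZ q.1 q.2) = Lam μ := by
  unfold Lam
  refine eq_infinitePi _ (fun s t ht => ?_)
  rw [Measure.map_apply measurable_coinZ (MeasurableSet.pi s.countable_toSet (fun z _ => ht z)),
    Measure.prod_apply (measurable_coinZ (MeasurableSet.pi s.countable_toSet (fun z _ => ht z)))]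
  have h1 : ∀ ω : ℤ → ℕ → ℝ, UUU (Prod.mk ω ⁻¹' ((fun q : (ℤ → ℕ → ℝ) × (ℤ → ℕ → ℝ) =>
      coinZ q.1 q.2) ⁻¹' (Set.pi s t))) = ∏ z ∈ s, UU {v | coin (ω z) v ∈ t z} := by
    intro ω
    have e : Prod.mk ω ⁻¹' ((fun q : (ℤ → ℕ → ℝ) × (ℤ → ℕ → ℝ) =>
        coinZ q.1 q.2) ⁻¹' (Set.pi s t)) = Set.pi s (fun z => {v | coin (ω z) v ∈ t z}) := by
      ext u
      simp [coinZ, Set.mem_pi]
    rw [e]
    unfold UUU
    rw [infinitePi_pi]
    intro z _
    exact measurable_coin_right (ω z) (ht z)
  simp_rw [h1]
  have hX : ∀ z : ℤ, Measurable (fun w : ℕ → ℝ => UU {v | coin w v ∈ t z}) := fun z =>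
    measurable_measure_prodMk_left (measurable_coin (ht z))
  unfold Env
  rw [lintegral_prod_eq_prod_lintegral_of_indepFun s
    (fun z (ω : ℤ → ℕ → ℝ) => UU {v | coin (ω z) v ∈ t z})
    (iIndepFun_infinitePi (P := fun _ : ℤ => μ) (X := fun z w => UU {v | coin w v ∈ t z}) hX)
    (fun z => (hX z).comp (measurable_pi_apply z))]
  refine Finset.prod_congr rfl (fun z _ => ?_)
  rw [rho_apply μ (ht z)]
  have h2 := lintegral_map (μ := infinitePi (fun _ : ℤ => μ)) (hX z) (measurable_pi_apply z)
  rw [← h2]
  have h3 := infinitePi_map_eval (fun _ : ℤ => μ) z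
  rw [h3]

theorem ae_adm_env (hμ : PosLaw μ) : ∀ᵐ ω ∂(Env μ), ∀ z, Adm (ω z) := by
  rw [ae_all_iff]
  intro z
  exact (measurePreserving_eval_infinitePi (fun _ : ℤ => μ) z).quasiMeasurePreserving.ae hμ

/-- The averaged law `P_0` is the law of the path driven by the annealed coins. -/
theorem averaged_eq (hμ : PosLaw μ) (Q : Kernel (ℤ → ℕ → ℝ) (ℕ → ℤ))
    (hQ : ∀ᵐ ω ∂(Env μ), IsQuenchedLaw ω (Q ω)) :
    (Env μ).bind Q = (Lam μ).map (fun ξ => pos ξ) := by
  have hmp : IsProbabilityMeasure ((Lam μ).map (fun ξ => pos ξ)) :=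
    isProbabilityMeasure_map measurable_path.aemeasurable
  have hcyl : ∀ n y, ((Env μ).bind Q) (cyl n y) = ((Lam μ).map (fun ξ => pos ξ)) (cyl n y) := by
    intro n y
    rw [Measure.bind_apply (measurableSet_cyl n y) Q.aemeasurable,
      Measure.map_apply measurable_path (measurableSet_cyl n y), ← map_coinZ,
      Measure.map_apply measurable_coinZ (measurable_path (measurableSet_cyl n y)),
      Measure.prod_apply (measurable_coinZ (measurable_path (measurableSet_cyl n y)))]
    refine lintegral_congr_ae ?_
    filter_upwards [ae_adm_env hμ, hQ] with ω hω hQω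
    have h1 := hQω.cyl_eq (isQuenchedLaw_coins ω (fun z i =>
      ⟨by linarith [(hω z i).1], (hω z i).2⟩)) n y
    rw [h1]
    exact Measure.map_apply (measurable_path.comp (measurable_coinZ_right ω))
      (measurableSet_cyl n y)
  have hbp : IsFiniteMeasure ((Env μ).bind Q) := by
    constructor
    rw [Measure.bind_apply MeasurableSet.univ Q.aemeasurable]
    rw [lintegral_congr_ae (g := fun _ => (1 : ℝ≥0∞))]
    · simp
    · filter_upwards [hQ] with ω hω
      exact hω.prob
  exact ext_cyl hcyl

end Pool.Agent.Work.MP_7ca543_pr
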