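import Mathlib

/-!
# Resampling one coordinate of an infinite product measure
-/

namespace Pool.Agent.Work.MP_7ca543_pr

open MeasureTheory Measure ProbabilityTheory Finset
open scoped ENNReal

section

variable {ι : Type*} [DecidableEq ι] {X : ι → Type*} [∀ i, MeasurableSpace (X i)]

theorem measurable_update_pair (i : ι) :
    Measurable (fun q : X i × (∀ j, X j) => Function.update q.2 i q.1) := by
  rw [measurable_pi_iff]
  intro j
  by_cases h : j = i
  · subst h
    simp only [Function.update_self]
    exact measurable_fst
  · simp only [Function.update_of_ne h]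
    exact (measurable_pi_apply j).comp measurable_snd

variable (μ : ∀ i, Measure (X i)) [∀ i, IsProbabilityMeasure (μ i)]

theorem resample (i : ι) :
    ((μ i).prod (infinitePi μ)).map (fun q => Function.update q.2 i q.1) = infinitePi μ := by
  refine eq_infinitePi μ (fun s t ht => ?_)
  rw [Measure.map_apply (measurable_update_pair i)
    (MeasurableSet.pi s.countable_toSet (fun j _ => ht j))]
  by_cases hi : i ∈ s
  · have h1 : (fun q : X i × (∀ j, X j) => Function.update q.2 i q.1) ⁻¹' (Set.pi s t)
        = (t i) ×ˢ (Set.pi (s.erase i : Finset ι) t) := by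
      ext q
      simp only [Set.mem_preimage, Set.mem_pi, Set.mem_prod, Finset.mem_coe, Finset.mem_erase]
      constructor
      · intro h
        refine ⟨by simpa using h i hi, fun j hj => ?_⟩
        have := h j hj.2
        rwa [Function.update_of_ne hj.1] at this
      · rintro ⟨h1, h2⟩ j hj
        by_cases h : j = i
        · subst h
          simpa using h1
        · rw [Function.update_of_ne h]
          exact h2 j ⟨h, hj⟩
    rw [h1, Measure.prod_prod, infinitePi_pi μ (fun j _ => ht j), ← Finset.mul_prod_erase s _ hi]
  · have h1 : (fun q : X i × (∀ j, X j) => Function.update q.2 i q.1) ⁻¹' (Set.pi s t)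
        = Set.univ ×ˢ (Set.pi s t) := by
      ext q
      simp only [Set.mem_preimage, Set.mem_pi, Set.mem_prod, Finset.mem_coe, Set.mem_univ, true_and]
      constructor
      · intro h j hj
        have := h j hj
        have hne : j ≠ i := fun e => hi (e ▸ Finset.mem_coe.1 hj)
        rwa [Function.update_of_ne hne] at this
      · intro h j hj
        have hne : j ≠ i := fun e => hi (e ▸ Finset.mem_coe.1 hj)
        rw [Function.update_of_ne hne]
        exact h j hj
    rw [h1, Measure.prod_prod, infinitePi_pi μ (fun j _ => ht j)]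
    simp

theorem lintegral_resample (i : ι) {f : (∀ j, X j) → ℝ≥0∞} (hf : Measurable f) :
    ∫⁻ x, f x ∂(infinitePi μ)
      = ∫⁻ x, ∫⁻ r, f (Function.update x i r) ∂(μ i) ∂(infinitePi μ) := by
  conv_lhs => rw [← resample μ i]
  rw [lintegral_map hf (measurable_update_pair i)]
  exact lintegral_prod_symm _ (hf.comp (measurable_update_pair i)).aemeasurable

theorem measure_resample (i : ι) {S : Set (∀ j, X j)} (hS : MeasurableSet S) :
    infinitePi μ S = ∫⁻ x, μ i {r | Function.update x i r ∈ S} ∂(infinitePi μ) := by
  rw [← lintegral_indicator_one hS, lintegral_resample μ i (measurable_one.indicator hS)]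
  refine lintegral_congr (fun x => ?_)
  have hm : MeasurableSet {r | Function.update x i r ∈ S} :=
    (measurable_update x) hS
  rw [← lintegral_indicator_one hm]
  rfl

theorem measure_inter_coord (i : ι) {S : Set (∀ j, X j)} (hS : MeasurableSet S)
    (hinv : ∀ x r, Function.update x i r ∈ S ↔ x ∈ S) {B : Set (X i)} (hB : MeasurableSet B) :
    infinitePi μ (S ∩ {x | x i ∈ B}) = infinitePi μ S * μ i B := by
  have hm : MeasurableSet (S ∩ {x : ∀ j, X j | x i ∈ B}) := hS.inter ((measurable_pi_apply i) hB)
  rw [measure_resample μ i hm]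
  have h : ∀ x : (∀ j, X j), μ i {r | Function.update x i r ∈ S ∩ {x | x i ∈ B}}
      = S.indicator (fun _ => μ i B) x := by
    intro x
    by_cases hx : x ∈ S
    · rw [Set.indicator_of_mem hx]
      congr 1
      ext r
      simp [hinv, hx]
    · rw [Set.indicator_of_notMem hx]
      have : {r | Function.update x i r ∈ S ∩ {x | x i ∈ B}} = ∅ := by
        ext r
        simp [hinv, hx]
      rw [this, measure_empty]
  simp_rw [h]
  rw [lintegral_indicator hS, lintegral_const, Measure.restrict_apply MeasurableSet.univ,
    Set.univ_inter, mul_comm]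

end

/-- Uniform measure on `[0,1)`. -/
noncomputable def U : Measure ℝ := volume.restrict (Set.Ico 0 1)

instance : IsProbabilityMeasure U := ⟨by simp [U]⟩

theorem U_lt {a : ℝ} (h1 : a ≤ 1) : U {r | r < a} = ENNReal.ofReal a := by
  have h : MeasurableSet {r : ℝ | r < a} := measurableSet_lt measurable_id measurable_const
  unfold U
  rw [Measure.restrict_apply h]
  have : {r : ℝ | r < a} ∩ Set.Ico 0 1 = Set.Ico 0 a := by
    ext r
    simp only [Set.mem_inter_iff, Set.mem_ofPred_eq, Set.mem_Ico]
    constructor
    · rintro ⟨h1, h2, h3⟩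
      exact ⟨h2, h1⟩
    · rintro ⟨h2, h3⟩
      exact ⟨h3, h2, by linarith⟩
  rw [this, Real.volume_Ico, sub_zero]

theorem U_not_lt {a : ℝ} (h0 : 0 ≤ a) (h1 : a ≤ 1) :
    U {r | ¬ r < a} = ENNReal.ofReal (1 - a) := by
  have h : MeasurableSet {r : ℝ | r < a} := measurableSet_lt measurable_id measurable_const
  have h2 : {r : ℝ | ¬ r < a} = {r | r < a}ᶜ := rfl
  rw [h2, prob_compl_eq_one_sub h, U_lt h1, ← ENNReal.ofReal_one,
    ENNReal.ofReal_sub _ h0]

end Pool.Agent.Work.MP_7ca543_pr
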