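import Pool.Agent.Work.MP_7ca543_pr.Stack
import Pool.Agent.Work.MP_7ca543_pr.Resample

/-!
# Rows of coins
-/

set_option linter.unusedSectionVars false

namespace Pool.Agent.Work.MP_7ca543_pr

open MeasureTheory Measure ProbabilityTheory Finset Filter Topology
open scoped ENNReal

/-- Number of successes among the first `l` coins of a row. -/
def cnt (r : ℕ → Bool) : ℕ → ℕ
  | 0 => 0
  | l + 1 => cnt r l + if r l then 1 else 0

/-- There are exactly `g` failures before the `(j+1)`-st success. -/
def IsG (r : ℕ → Bool) (j g : ℕ) : Prop := cnt r (j + g) = j ∧ r (j + g) = true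

theorem cnt_le (r : ℕ → Bool) (l : ℕ) : cnt r l ≤ l := by
  induction l with
  | zero => simp [cnt]
  | succ l ih =>
    rw [cnt]
    split_ifs <;> omega

theorem cnt_mono_succ (r : ℕ → Bool) (l : ℕ) : cnt r l ≤ cnt r (l + 1) := by
  rw [cnt]
  omega

theorem cnt_mono (r : ℕ → Bool) : Monotone (cnt r) := monotone_nat_of_le_succ (cnt_mono_succ r)

theorem fl_mono (r : ℕ → Bool) : Monotone (fun l => l - cnt r l) := by
  refine monotone_nat_of_le_succ (fun l => ?_)
  have := cnt_le r l
  rw [cnt]
  split_ifs <;> omega

theorem IsG.lt_of_lt {r : ℕ → Bool} {j g j' g' : ℕ} (h : IsG r j g) (h' : IsG r j' g')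
    (hj : j < j') : j + g < j' + g' := by
  by_contra hc
  have := cnt_mono r (not_lt.1 hc)
  rw [h.1, h'.1] at this
  omega

theorem IsG.unique {r : ℕ → Bool} {j g g' : ℕ} (h : IsG r j g) (h' : IsG r j g') : g = g' := by
  have key : ∀ a b, IsG r j a → IsG r j b → ¬ a < b := by
    intro a b ha hb hab
    have h1 := cnt_mono r (show j + a + 1 ≤ j + b by omega)
    rw [cnt, ha.1, hb.1, ha.2] at h1
    simp at h1
  exact le_antisymm (not_lt.1 (key _ _ h' h)) (not_lt.1 (key _ _ h h'))

theorem IsG.mono {r : ℕ → Bool} {j g j' g' : ℕ} (h : IsG r j g) (h' : IsG r j' g')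
    (hj : j ≤ j') : g ≤ g' := by
  rcases hj.lt_or_eq with hlt | heq
  · have h1 := h.lt_of_lt h' hlt
    have h2 := fl_mono r h1.le
    have h3 := h.1
    have h4 := h'.1
    simp only at h2
    omega
  · subst heq
    rw [h.unique h']

/-- A row is good if it has infinitely many successes. -/
def Good (r : ℕ → Bool) : Prop := ∀ j, ∃ g, IsG r j g

open Classical in
/-- Number of failures before the `(j+1)`-st success (junk value `0` if there is none). -/
noncomputable def F (r : ℕ → Bool) (j : ℕ) : ℕ := if h : ∃ g, IsG r j g then h.choose else 0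

theorem IsG.F_eq {r : ℕ → Bool} {j g : ℕ} (h : IsG r j g) : F r j = g := by
  have h1 : ∃ g, IsG r j g := ⟨g, h⟩
  unfold F
  rw [dif_pos h1]
  exact h1.choose_spec.unique h

theorem Good.isG {r : ℕ → Bool} (h : Good r) (j : ℕ) : IsG r j (F r j) := by
  obtain ⟨g, hg⟩ := h j
  rw [hg.F_eq]
  exact hg

theorem Good.F_mono {r : ℕ → Bool} (h : Good r) : Monotone (F r) :=
  fun a b hab => (h.isG a).mono (h.isG b) hab

/-! ### Measurability -/

theorem measurableSet_row_true (l : ℕ) : MeasurableSet {r : ℕ → Bool | r l = true} := by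
  have h : Measurable (fun r : ℕ → Bool => r l) := measurable_pi_apply l
  exact h (measurableSet_singleton true)

theorem measurable_cnt (l : ℕ) : Measurable (fun r : ℕ → Bool => cnt r l) := by
  induction l with
  | zero =>
    simp only [cnt]
    exact measurable_const
  | succ l ih =>
    simp only [cnt]
    refine ih.add ?_
    refine Measurable.ite ?_ measurable_const measurable_const
    exact measurableSet_row_true l

theorem measurableSet_isG (j g : ℕ) : MeasurableSet {r : ℕ → Bool | IsG r j g} := by
  have h1 : MeasurableSet {r : ℕ → Bool | cnt r (j + g) = j} :=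
    (measurable_cnt (j + g)) (measurableSet_singleton j)
  have h2 : MeasurableSet {r : ℕ → Bool | r (j + g) = true} := measurableSet_row_true (j + g)
  exact h1.inter h2

theorem measurable_F (j : ℕ) : Measurable (fun r : ℕ → Bool => F r j) := by
  refine measurable_to_countable' (fun g => ?_)
  have h : (fun r : ℕ → Bool => F r j) ⁻¹' {g}
      = {r | IsG r j g} ∪ ((⋃ g', {r | IsG r j g'})ᶜ ∩ {_r | g = 0}) := by
    ext r
    simp only [Set.mem_preimage, Set.mem_singleton_iff, Set.mem_union, Set.mem_ofPred_eq,
      Set.mem_inter_iff, Set.mem_compl_iff, Set.mem_iUnion, not_exists]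
    constructor
    · intro h
      by_cases he : ∃ g', IsG r j g'
      · obtain ⟨g', hg'⟩ := he
        left
        rw [hg'.F_eq] at h
        rwa [h] at hg'
      · right
        refine ⟨fun g' hg' => he ⟨g', hg'⟩, ?_⟩
        unfold F at h
        rw [dif_neg he] at h
        exact h.symm
    · rintro (h | ⟨h1, h2⟩)
      · exact h.F_eq
      · have he : ¬ ∃ g', IsG r j g' := fun ⟨g', hg'⟩ => h1 g' hg'
        unfold F
        rw [dif_neg he, h2]
  rw [h]
  refine (measurableSet_isG j g).union ((MeasurableSet.iUnion fun g' => measurableSet_isG j g').compl.inter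
    (MeasurableSet.const _))

theorem measurable_F2 : Measurable (fun q : (ℕ → Bool) × ℕ => F q.1 q.2) :=
  measurable_from_prod_countable_left (fun j => measurable_F j)

/-! ### The coins -/

/-- Coins produced by a stack and a sequence of uniform variables. -/
noncomputable def coin (w u : ℕ → ℝ) : ℕ → Bool := fun i => decide (u i < w i)

/-- Sequence of uniform variables. -/
noncomputable def UU : Measure (ℕ → ℝ) := infinitePi (fun _ => U)

instance : IsProbabilityMeasure UU := by unfold UU; infer_instance

theorem measurable_coin : Measurable (fun q : (ℕ → ℝ) × (ℕ → ℝ) => coin q.1 q.2) := by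
  rw [measurable_pi_iff]
  intro i
  refine measurable_to_bool ?_
  have : (fun q : (ℕ → ℝ) × (ℕ → ℝ) => coin q.1 q.2 i) ⁻¹' {true} = {q | q.2 i < q.1 i} := by
    ext q
    simp [coin]
  rw [this]
  exact measurableSet_lt ((measurable_pi_apply i).comp measurable_snd)
    ((measurable_pi_apply i).comp measurable_fst)

theorem measurable_coin_right (w : ℕ → ℝ) : Measurable (coin w) :=
  measurable_coin.comp (measurable_const.prodMk measurable_id)

theorem cnt_coin_update (w u : ℕ → ℝ) (l i : ℕ) (hi : i ≤ l) (x : ℝ) :
    cnt (coin w (Function.update u l x)) i = cnt (coin w u) i := by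
  induction i with
  | zero => simp [cnt]
  | succ i ih =>
    rw [cnt, cnt, ih (by omega)]
    have : coin w (Function.update u l x) i = coin w u i := by
      unfold coin
      rw [Function.update_of_ne (by omega)]
    rw [this]

theorem UU_cnt_lt (w : ℕ → ℝ) (hw : Adm w) (l s : ℕ) :
    UU {u | cnt (coin w u) l = s ∧ u l < w l}
      = ENNReal.ofReal (w l) * UU {u | cnt (coin w u) l = s} := by
  have h1 : MeasurableSet {u | cnt (coin w u) l = s} :=
    ((measurable_cnt l).comp (measurable_coin_right w)) (measurableSet_singleton s)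
  have h2 := measure_inter_coord (fun _ : ℕ => U) l h1 (fun u x => by
    simp only [Set.mem_ofPred_eq]
    rw [cnt_coin_update w u l l le_rfl x]) (B := {r | r < w l})
    (measurableSet_lt measurable_id measurable_const)
  rw [U_lt (hw l).2] at h2
  rw [mul_comm]
  exact h2

theorem UU_cnt_not_lt (w : ℕ → ℝ) (hw : Adm w) (l s : ℕ) :
    UU {u | cnt (coin w u) l = s ∧ ¬ u l < w l}
      = ENNReal.ofReal (1 - w l) * UU {u | cnt (coin w u) l = s} := by
  have h1 : MeasurableSet {u | cnt (coin w u) l = s} :=
    ((measurable_cnt l).comp (measurable_coin_right w)) (measurableSet_singleton s)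
  have h2 := measure_inter_coord (fun _ : ℕ => U) l h1 (fun u x => by
    simp only [Set.mem_ofPred_eq]
    rw [cnt_coin_update w u l l le_rfl x]) (B := {r | ¬ r < w l})
    (measurableSet_lt measurable_id measurable_const).compl
  rw [U_not_lt (by linarith [(hw l).1]) (hw l).2] at h2
  rw [mul_comm]
  exact h2

theorem UU_cnt (w : ℕ → ℝ) (hw : Adm w) (l s : ℕ) :
    UU {u | cnt (coin w u) l = s} = ENNReal.ofReal (W w l s) := by
  induction l generalizing s with
  | zero =>
    by_cases h : s = 0
    · subst h
      simp [cnt, W]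
    · have : {u : ℕ → ℝ | cnt (coin w u) 0 = s} = ∅ := by
        ext u
        simp [cnt, Ne.symm h]
      rw [this]
      simp [W, h]
  | succ l ih =>
    have hw1 := (hw l).1
    have hw2 := (hw l).2
    cases s with
    | zero =>
      have h1 : {u | cnt (coin w u) (l + 1) = 0} = {u | cnt (coin w u) l = 0 ∧ ¬ u l < w l} := by
        ext u
        simp only [Set.mem_ofPred_eq, cnt, coin, decide_eq_true_eq]
        split_ifs with h <;> simp [h]
      rw [h1, UU_cnt_not_lt w hw, ih, W, ENNReal.ofReal_mul (by linarith)]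
    | succ s =>
      have h1 : {u | cnt (coin w u) (l + 1) = s + 1}
          = {u | cnt (coin w u) l = s ∧ u l < w l} ∪ {u | cnt (coin w u) l = s + 1 ∧ ¬ u l < w l} := by
        ext u
        simp only [Set.mem_ofPred_eq, cnt, coin, decide_eq_true_eq, Set.mem_union]
        split_ifs with h <;> simp [h]
      rw [h1, measure_union, UU_cnt_lt w hw, UU_cnt_not_lt w hw, ih, ih, W,
        ENNReal.ofReal_add (mul_nonneg (by linarith) (W_nonneg hw _ _))
          (mul_nonneg (by linarith) (W_nonneg hw _ _)),
        ENNReal.ofReal_mul (by linarith), ENNReal.ofReal_mul (by linarith)]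
      · rw [Set.disjoint_left]
        rintro u ⟨_, h3⟩ ⟨_, h4⟩
        exact h4 h3
      · have h2 : MeasurableSet {u | cnt (coin w u) l = s + 1} :=
          ((measurable_cnt l).comp (measurable_coin_right w)) (measurableSet_singleton (s + 1))
        have h3 : MeasurableSet {u : ℕ → ℝ | u l < w l} :=
          measurableSet_lt (measurable_pi_apply l) measurable_const
        exact h2.inter h3.compl

theorem UU_isG (w : ℕ → ℝ) (hw : Adm w) (j g : ℕ) :
    UU {u | IsG (coin w u) j g} = ENNReal.ofReal (p w j g) := by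
  have h1 : {u | IsG (coin w u) j g}
      = {u | cnt (coin w u) (j + g) = j ∧ u (j + g) < w (j + g)} := by
    ext u
    simp [IsG, coin]
  rw [h1, UU_cnt_lt w hw, UU_cnt w hw, p, ENNReal.ofReal_mul (by linarith [(hw (j + g)).1])]

/-! ### The annealed row law -/

variable (μ : Measure (ℕ → ℝ))

/-- The annealed law of a row of coins. -/
noncomputable def rho : Measure (ℕ → Bool) := (μ.prod UU).map (fun q => coin q.1 q.2)

instance [IsProbabilityMeasure μ] : IsProbabilityMeasure (rho μ) := by
  unfold rho
  exact isProbabilityMeasure_map measurable_coin.aemeasurable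

theorem rho_apply {S : Set (ℕ → Bool)} (hS : MeasurableSet S) :
    rho μ S = ∫⁻ w, UU {u | coin w u ∈ S} ∂μ := by
  unfold rho
  rw [Measure.map_apply measurable_coin hS, Measure.prod_apply (measurable_coin hS)]
  rfl

variable [IsProbabilityMeasure μ]

/-- Real-valued version of (POS). -/
def PosLaw : Prop := ∀ᵐ w ∂μ, Adm w

variable {μ}

theorem rho_isG (hμ : PosLaw μ) (j g : ℕ) :
    rho μ {r | IsG r j g} = ∫⁻ w, ENNReal.ofReal (p w j g) ∂μ := by
  rw [rho_apply μ (measurableSet_isG j g)]
  refine lintegral_congr_ae ?_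
  filter_upwards [hμ] with w hw
  exact UU_isG w hw j g

theorem measurable_W (l s : ℕ) : Measurable (fun w : ℕ → ℝ => W w l s) := by
  induction l generalizing s with
  | zero => simp only [W]; exact measurable_const
  | succ l ih =>
    cases s with
    | zero =>
      simp only [W]
      exact (measurable_const.sub (measurable_pi_apply l)).mul (ih 0)
    | succ s =>
      simp only [W]
      exact ((measurable_pi_apply l).mul (ih s)).add
        ((measurable_const.sub (measurable_pi_apply l)).mul (ih (s + 1)))

theorem measurable_p (j g : ℕ) : Measurable (fun w : ℕ → ℝ => p w j g) := by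
  unfold p
  exact (measurable_pi_apply _).mul (measurable_W _ _)

theorem tsum_p (w : ℕ → ℝ) (hw : Adm w) (j : ℕ) : ∑' g, ENNReal.ofReal (p w j g) = 1 := by
  rw [← ENNReal.ofReal_tsum_of_nonneg (fun g => p_nonneg hw j g) (hasSum_p hw j).summable,
    (hasSum_p hw j).tsum_eq, ENNReal.ofReal_one]

theorem disjoint_isG (j : ℕ) :
    Pairwise (Function.onFun Disjoint (fun g => {r : ℕ → Bool | IsG r j g})) := by
  intro g g' hne
  rw [Function.onFun, Set.disjoint_left]
  intro r h h'
  exact hne (IsG.unique h h')

theorem ae_good (hμ : PosLaw μ) : ∀ᵐ r ∂(rho μ), Good r := by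
  unfold Good
  rw [ae_all_iff]
  intro j
  have hm : MeasurableSet (⋃ g, {r : ℕ → Bool | IsG r j g}) :=
    MeasurableSet.iUnion (fun g => measurableSet_isG j g)
  have h1 : rho μ (⋃ g, {r : ℕ → Bool | IsG r j g}) = 1 := by
    rw [measure_iUnion (disjoint_isG j) (fun g => measurableSet_isG j g)]
    simp_rw [rho_isG hμ j]
    rw [← lintegral_tsum (fun g => (measurable_p j g).ennreal_ofReal.aemeasurable)]
    rw [lintegral_congr_ae (g := fun _ => (1 : ℝ≥0∞))]
    · simp
    · filter_upwards [hμ] with w hw
      exact tsum_p w hw j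
  have h2 : ∀ᵐ r ∂(rho μ), r ∈ (⋃ g, {r : ℕ → Bool | IsG r j g}) := by
    exact (mem_ae_iff_prob_eq_one hm).2 h1
  filter_upwards [h2] with r hr
  simpa using hr

/-- One step of the (annealed) branching kernel. -/
noncomputable def PP (μ : Measure (ℕ → ℝ)) (φ : ℕ → ℝ≥0∞) (j : ℕ) : ℝ≥0∞ :=
  ∫⁻ r, φ (F r j) ∂(rho μ)

theorem PP_eq (hμ : PosLaw μ) (φ : ℕ → ℝ≥0∞) (j : ℕ) :
    PP μ φ j = ∫⁻ w, ∑' g, ENNReal.ofReal (p w j g) * φ g ∂μ := by
  have h1 : PP μ φ j = ∫⁻ r, ∑' g, ({r | IsG r j g} : Set (ℕ → Bool)).indicator (fun _ => φ g) r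
      ∂(rho μ) := by
    unfold PP
    refine lintegral_congr_ae ?_
    filter_upwards [ae_good hμ] with r hr
    rw [tsum_eq_single (F r j)]
    · rw [Set.indicator_of_mem]
      exact hr.isG j
    · intro g hg
      rw [Set.indicator_of_notMem]
      intro h
      exact hg (IsG.F_eq h).symm
  rw [h1, lintegral_tsum (fun g => (measurable_const.indicator (measurableSet_isG j g)).aemeasurable)]
  have h2 : ∀ g, ∫⁻ r, ({r | IsG r j g} : Set (ℕ → Bool)).indicator (fun _ => φ g) r ∂(rho μ)
      = ∫⁻ w, ENNReal.ofReal (p w j g) * φ g ∂μ := by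
    intro g
    rw [lintegral_indicator (measurableSet_isG j g), lintegral_const,
      Measure.restrict_apply MeasurableSet.univ, Set.univ_inter, rho_isG hμ,
      lintegral_mul_const _ (measurable_p j g).ennreal_ofReal, mul_comm]
  simp_rw [h2]
  rw [lintegral_tsum (fun g => ((measurable_p j g).ennreal_ofReal.mul_const _).aemeasurable)]

end Pool.Agent.Work.MP_7ca543_pr
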