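import Mathlib

/-!
# One stack of cookies

`w : ℕ → ℝ` is a stack of cookies with values in `[1/2, 1]`: the `l`-th trial (counting from `0`)
is a success with probability `w l`. `W w l s` is the probability of `s` successes in the first `l`
trials. `p w j g` is the probability that there are exactly `g` failures before the `(j+1)`-st
success.
-/

namespace Pool.Agent.Work.MP_7ca543_pr

open Finset Filter Topology

/-- Probability of `s` successes in the first `l` trials. -/
def W (w : ℕ → ℝ) : ℕ → ℕ → ℝ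
  | 0, s => if s = 0 then 1 else 0
  | l + 1, 0 => (1 - w l) * W w l 0
  | l + 1, s + 1 => w l * W w l s + (1 - w l) * W w l (s + 1)

/-- Probability of at most `j` successes in the first `l` trials. -/
def A (w : ℕ → ℝ) (l j : ℕ) : ℝ := ∑ s ∈ range (j + 1), W w l s

/-- Probability of exactly `g` failures before the `(j+1)`-st success. -/
def p (w : ℕ → ℝ) (j g : ℕ) : ℝ := w (j + g) * W w (j + g) j

/-- Admissible stacks. -/
def Adm (w : ℕ → ℝ) : Prop := ∀ i, 1 / 2 ≤ w i ∧ w i ≤ 1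

variable {w : ℕ → ℝ}

theorem W_nonneg (hw : Adm w) (l s : ℕ) : 0 ≤ W w l s := by
  induction l generalizing s with
  | zero =>
    unfold W
    split_ifs <;> norm_num
  | succ l ih =>
    have h1 := (hw l).1
    have h2 := (hw l).2
    cases s with
    | zero =>
      unfold W
      exact mul_nonneg (by linarith) (ih 0)
    | succ s =>
      unfold W
      exact add_nonneg (mul_nonneg (by linarith) (ih s)) (mul_nonneg (by linarith) (ih (s + 1)))

theorem W_eq_zero (w : ℕ → ℝ) (l s : ℕ) (h : l < s) : W w l s = 0 := by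
  induction l generalizing s with
  | zero =>
    unfold W
    rw [if_neg (by omega)]
  | succ l ih =>
    cases s with
    | zero => omega
    | succ s =>
      unfold W
      rw [ih s (by omega), ih (s + 1) (by omega)]
      ring

theorem W_le (hw : Adm w) (l s : ℕ) : W w l s ≤ 4 ^ s * (3 / 4) ^ l := by
  induction l generalizing s with
  | zero =>
    unfold W
    rw [pow_zero, mul_one]
    split_ifs with h
    · rw [h, pow_zero]
    · positivity
  | succ l ih =>
    have h1 := (hw l).1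
    have h2 := (hw l).2
    have hpos : (0 : ℝ) < (3 / 4) ^ l := by positivity
    cases s with
    | zero =>
      unfold W
      have h3 := ih 0
      have h4 := W_nonneg hw l 0
      rw [pow_zero, one_mul] at h3 ⊢
      rw [pow_succ]
      nlinarith
    | succ s =>
      unfold W
      have h3 := ih s
      have h4 := ih (s + 1)
      have h5 := W_nonneg hw l s
      have h6 := W_nonneg hw l (s + 1)
      have e1 : w l * W w l s ≤ 4 ^ s * (3 / 4) ^ l := by
        calc w l * W w l s ≤ 1 * W w l s := mul_le_mul_of_nonneg_right h2 h5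
          _ ≤ _ := by rw [one_mul]; exact h3
      have e2 : (1 - w l) * W w l (s + 1) ≤ 1 / 2 * (4 ^ (s + 1) * (3 / 4) ^ l) := by
        calc (1 - w l) * W w l (s + 1) ≤ 1 / 2 * W w l (s + 1) :=
              mul_le_mul_of_nonneg_right (by linarith) h6
          _ ≤ _ := mul_le_mul_of_nonneg_left h4 (by norm_num)
      calc w l * W w l s + (1 - w l) * W w l (s + 1)
          ≤ 4 ^ s * (3 / 4) ^ l + 1 / 2 * (4 ^ (s + 1) * (3 / 4) ^ l) := add_le_add e1 e2
        _ = 4 ^ (s + 1) * (3 / 4) ^ (l + 1) := by ring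

/-- One step of the recursion, summed against a function. -/
theorem sum_step (w : ℕ → ℝ) (l j : ℕ) (φ : ℕ → ℝ) :
    ∑ s ∈ range (j + 1), W w (l + 1) s * φ s
      = (1 - w l) * ∑ s ∈ range (j + 1), W w l s * φ s
        + w l * ∑ s ∈ range j, W w l s * φ (s + 1) := by
  induction j with
  | zero =>
    simp [W]
    ring
  | succ j ih =>
    rw [Finset.sum_range_succ, ih, Finset.sum_range_succ (fun s => W w l s * φ s) (j + 1),
      Finset.sum_range_succ (fun s => W w l s * φ (s + 1)) j]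
    have : W w (l + 1) (j + 1) = w l * W w l j + (1 - w l) * W w l (j + 1) := by
      rw [W]
    rw [this]
    ring

/-- The fundamental identity. -/
theorem dynkin (w : ℕ → ℝ) (φ : ℕ → ℕ → ℝ) (j n : ℕ) :
    ∑ l ∈ range n, w l * W w l j * φ (l + 1) (j + 1) + ∑ s ∈ range (j + 1), W w n s * φ n s
      = φ 0 0 + ∑ l ∈ range n, ∑ s ∈ range (j + 1),
        W w l s * (w l * φ (l + 1) (s + 1) + (1 - w l) * φ (l + 1) s - φ l s) := by
  induction n with
  | zero =>
    simp only [Finset.range_zero, Finset.sum_empty, zero_add, add_zero]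
    rw [Finset.sum_range_succ']
    simp [W]
  | succ n ih =>
    rw [Finset.sum_range_succ, Finset.sum_range_succ (fun l => ∑ s ∈ range (j + 1),
        W w l s * (w l * φ (l + 1) (s + 1) + (1 - w l) * φ (l + 1) s - φ l s)), sum_step]
    have e1 : ∑ s ∈ range (j + 1),
        W w n s * (w n * φ (n + 1) (s + 1) + (1 - w n) * φ (n + 1) s - φ n s)
        = w n * ∑ s ∈ range (j + 1), W w n s * φ (n + 1) (s + 1)
          + (1 - w n) * ∑ s ∈ range (j + 1), W w n s * φ (n + 1) s
          - ∑ s ∈ range (j + 1), W w n s * φ n s := by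
      rw [Finset.mul_sum, Finset.mul_sum, ← Finset.sum_add_distrib, ← Finset.sum_sub_distrib]
      refine Finset.sum_congr rfl (fun s _ => ?_)
      ring
    rw [e1, Finset.sum_range_succ (fun s => W w n s * φ (n + 1) (s + 1)) j]
    linarith

theorem A_nonneg (hw : Adm w) (l j : ℕ) : 0 ≤ A w l j :=
  Finset.sum_nonneg (fun s _ => W_nonneg hw l s)

theorem p_nonneg (hw : Adm w) (j g : ℕ) : 0 ≤ p w j g :=
  mul_nonneg (by linarith [(hw (j + g)).1]) (W_nonneg hw _ _)

/-- The sum over `l < j + m` as a sum over the number of failures. -/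
theorem sum_eq_sum_p (w : ℕ → ℝ) (ψ : ℕ → ℝ) (j m : ℕ) :
    ∑ l ∈ range (j + m), w l * W w l j * ψ l = ∑ g ∈ range m, p w j g * ψ (j + g) := by
  rw [Finset.sum_range_add]
  have : ∑ l ∈ range j, w l * W w l j * ψ l = 0 := by
    refine Finset.sum_eq_zero (fun l hl => ?_)
    rw [W_eq_zero w l j (Finset.mem_range.1 hl)]
    ring
  rw [this, zero_add]
  rfl

theorem A_add_sum (w : ℕ → ℝ) (j m : ℕ) : ∑ g ∈ range m, p w j g + A w (j + m) j = 1 := by
  have h := dynkin w (fun _ _ => 1) j (j + m)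
  have e : ∑ l ∈ range (j + m), w l * W w l j * 1 = ∑ g ∈ range m, p w j g * 1 :=
    sum_eq_sum_p w (fun _ => 1) j m
  rw [e] at h
  have e2 : ∑ l ∈ range (j + m), ∑ s ∈ range (j + 1),
      W w l s * (w l * 1 + (1 - w l) * 1 - 1) = 0 := by
    refine Finset.sum_eq_zero (fun l _ => Finset.sum_eq_zero (fun s _ => ?_))
    ring
  rw [e2] at h
  unfold A
  simpa using h

theorem A_le_one (hw : Adm w) (l j : ℕ) : A w l j ≤ 1 := by
  have h := dynkin w (fun _ _ => 1) j l
  have e2 : ∑ l ∈ range l, ∑ s ∈ range (j + 1),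
      W w l s * (w l * 1 + (1 - w l) * 1 - 1) = 0 := by
    refine Finset.sum_eq_zero (fun l _ => Finset.sum_eq_zero (fun s _ => ?_))
    ring
  rw [e2] at h
  have e3 : 0 ≤ ∑ l ∈ range l, w l * W w l j * 1 := by
    refine Finset.sum_nonneg (fun l _ => ?_)
    have := W_nonneg hw l j
    have := (hw l).1
    positivity
  unfold A
  simp only [mul_one, add_zero] at h e3 ⊢
  linarith

theorem A_eq_one (w : ℕ → ℝ) (l j : ℕ) (h : l ≤ j) : A w l j = 1 := by
  have h1 := dynkin w (fun _ _ => 1) j l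
  have e2 : ∑ l ∈ range l, ∑ s ∈ range (j + 1),
      W w l s * (w l * 1 + (1 - w l) * 1 - 1) = 0 := by
    refine Finset.sum_eq_zero (fun l _ => Finset.sum_eq_zero (fun s _ => ?_))
    ring
  have e3 : ∑ l ∈ range l, w l * W w l j * 1 = 0 := by
    refine Finset.sum_eq_zero (fun l' hl' => ?_)
    rw [W_eq_zero w l' j (by have := Finset.mem_range.1 hl'; omega)]
    ring
  rw [e2, e3] at h1
  unfold A
  simpa using h1

theorem A_succ (w : ℕ → ℝ) (l j : ℕ) :
    A w (l + 1) (j + 1) = w l * A w l j + (1 - w l) * A w l (j + 1) := by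
  have h := sum_step w l (j + 1) (fun _ => 1)
  simp only [mul_one] at h
  unfold A
  rw [h]
  ring

theorem A_mono_right (hw : Adm w) (l j : ℕ) : A w l j ≤ A w l (j + 1) := by
  unfold A
  rw [Finset.sum_range_succ (fun s => W w l s) (j + 1)]
  linarith [W_nonneg hw l (j + 1)]

theorem A_diag (hw : Adm w) (l j : ℕ) : A w l j ≤ A w (l + 1) (j + 1) := by
  rw [A_succ]
  have h1 := A_mono_right hw l j
  have h2 := (hw l).2
  nlinarith

theorem A_ge (hw : Adm w) (m j : ℕ) : W w m 0 ≤ A w (j + m) j := by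
  induction j with
  | zero =>
    rw [zero_add]
    unfold A
    simp
  | succ j ih =>
    refine ih.trans ?_
    have := A_diag hw (j + m) j
    rw [show j + 1 + m = j + m + 1 by ring]
    exact this

theorem W_zero_pos (h : ∀ i, w i < 1) (m : ℕ) : 0 < W w m 0 := by
  induction m with
  | zero => simp [W]
  | succ m ih =>
    rw [W]
    exact mul_pos (by linarith [h m]) ih

/-- The alive part decays exponentially. -/
theorem alive_tendsto (hw : Adm w) (j : ℕ) (φ : ℕ → ℕ → ℝ) (C : ℝ)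
    (hφ : ∀ n s, s ≤ j → |φ n s| ≤ C * ((n : ℝ) + 1) ^ 2) :
    Tendsto (fun n => ∑ s ∈ range (j + 1), W w n s * φ n s) atTop (𝓝 0) := by
  have h1 : Tendsto (fun n : ℕ => ((n : ℝ) + 1) ^ 2 * (3 / 4 : ℝ) ^ n) atTop (𝓝 0) := by
    have h2 : Tendsto (fun n : ℕ => (n : ℝ) ^ 2 * (3 / 4 : ℝ) ^ n) atTop (𝓝 0) :=
      tendsto_pow_const_mul_const_pow_of_abs_lt_one 2 (by rw [abs_of_pos] <;> norm_num)
    have h3 := h2.comp (tendsto_add_atTop_nat 1)
    have h4 := h3.const_mul (4 / 3 : ℝ)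
    rw [mul_zero] at h4
    refine h4.congr (fun n => ?_)
    simp only [Function.comp]
    push_cast
    rw [pow_succ (3 / 4 : ℝ) n]
    ring
  have h2 := h1.const_mul (C * ∑ s ∈ range (j + 1), (4 : ℝ) ^ s)
  rw [mul_zero] at h2
  refine squeeze_zero_norm (fun n => ?_) h2
  rw [Real.norm_eq_abs]
  calc |∑ s ∈ range (j + 1), W w n s * φ n s|
      ≤ ∑ s ∈ range (j + 1), |W w n s * φ n s| := Finset.abs_sum_le_sum_abs _ _
    _ ≤ ∑ s ∈ range (j + 1), (4 : ℝ) ^ s * (3 / 4) ^ n * (C * ((n : ℝ) + 1) ^ 2) := by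
      refine Finset.sum_le_sum (fun s hs => ?_)
      rw [abs_mul, abs_of_nonneg (W_nonneg hw n s)]
      apply mul_le_mul (W_le hw n s) (hφ n s (by have := Finset.mem_range.1 hs; omega))
        (abs_nonneg _)
      positivity
    _ = C * (∑ s ∈ range (j + 1), (4 : ℝ) ^ s) * (((n : ℝ) + 1) ^ 2 * (3 / 4) ^ n) := by
      rw [← Finset.sum_mul, ← Finset.sum_mul]
      ring

theorem hasSum_p (hw : Adm w) (j : ℕ) : HasSum (fun g => p w j g) 1 := by
  rw [hasSum_iff_tendsto_nat_of_nonneg (fun g => p_nonneg hw j g)]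
  have h1 := alive_tendsto hw j (fun _ _ => 1) 1 (by
    intro n s _
    rw [abs_one]
    have : (0 : ℝ) ≤ n := Nat.cast_nonneg n
    nlinarith)
  have h2 : Tendsto (fun m => A w (j + m) j) atTop (𝓝 0) := by
    have h3 := h1.comp (tendsto_add_atTop_nat j)
    refine h3.congr (fun m => ?_)
    simp [A, Function.comp, add_comm]
  have h3 : Tendsto (fun m => 1 - A w (j + m) j) atTop (𝓝 (1 - 0)) := h2.const_sub 1
  rw [sub_zero] at h3
  refine h3.congr (fun m => ?_)
  have := A_add_sum w j m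
  linarith

/-! ### First moment -/

theorem first_moment_fin (w : ℕ → ℝ) (j m : ℕ) :
    ∑ g ∈ range m, p w j g * g
      + ∑ s ∈ range (j + 1), W w (j + m) s * (((j + m : ℕ) : ℝ) + j + 1 - 2 * s)
      = (j + 1) - ∑ l ∈ range (j + m), (2 * w l - 1) * A w l j := by
  have h := dynkin w (fun l s => (l : ℝ) + j + 1 - 2 * s) j (j + m)
  have e1 : ∑ l ∈ range (j + m), w l * W w l j * (((l + 1 : ℕ) : ℝ) + j + 1 - 2 * ((j + 1 : ℕ) : ℝ))
      = ∑ g ∈ range m, p w j g * g := by
    rw [sum_eq_sum_p w (fun l => ((l + 1 : ℕ) : ℝ) + j + 1 - 2 * ((j + 1 : ℕ) : ℝ)) j m]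
    refine Finset.sum_congr rfl (fun g _ => ?_)
    push_cast
    ring
  have e2 : ∑ l ∈ range (j + m), ∑ s ∈ range (j + 1), W w l s *
      (w l * (((l + 1 : ℕ) : ℝ) + j + 1 - 2 * ((s + 1 : ℕ) : ℝ)) +
        (1 - w l) * (((l + 1 : ℕ) : ℝ) + j + 1 - 2 * (s : ℝ)) - ((l : ℝ) + j + 1 - 2 * s))
      = - ∑ l ∈ range (j + m), (2 * w l - 1) * A w l j := by
    rw [← Finset.sum_neg_distrib]
    refine Finset.sum_congr rfl (fun l _ => ?_)
    unfold A
    rw [Finset.mul_sum, ← Finset.sum_neg_distrib]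
    refine Finset.sum_congr rfl (fun s _ => ?_)
    push_cast
    ring
  rw [e1, e2] at h
  rw [h]
  push_cast
  ring

/-- The alive part of the first moment is at most `j + 1`. -/
theorem alive_first_le (hw : Adm w) (j n : ℕ) :
    ∑ s ∈ range (j + 1), W w n s * ((n : ℝ) + j + 1 - 2 * s) ≤ j + 1 := by
  have h := dynkin w (fun l s => (l : ℝ) + j + 1 - 2 * s) j n
  have e1 : 0 ≤ ∑ l ∈ range n, w l * W w l j *
      (((l + 1 : ℕ) : ℝ) + j + 1 - 2 * ((j + 1 : ℕ) : ℝ)) := by
    refine Finset.sum_nonneg (fun l _ => ?_)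
    by_cases hl : l < j
    · rw [W_eq_zero w l j hl]
      simp
    · have h1 := W_nonneg hw l j
      have h2 := (hw l).1
      have h3 : (j : ℝ) ≤ l := by exact_mod_cast not_lt.1 hl
      apply mul_nonneg (by positivity)
      push_cast
      linarith
  have e2 : ∑ l ∈ range n, ∑ s ∈ range (j + 1), W w l s *
      (w l * (((l + 1 : ℕ) : ℝ) + j + 1 - 2 * ((s + 1 : ℕ) : ℝ)) +
        (1 - w l) * (((l + 1 : ℕ) : ℝ) + j + 1 - 2 * (s : ℝ)) - ((l : ℝ) + j + 1 - 2 * s)) ≤ 0 := by
    refine Finset.sum_nonpos (fun l _ => Finset.sum_nonpos (fun s _ => ?_))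
    have h1 := W_nonneg hw l s
    have h2 := (hw l).1
    have : w l * (((l + 1 : ℕ) : ℝ) + j + 1 - 2 * ((s + 1 : ℕ) : ℝ)) +
        (1 - w l) * (((l + 1 : ℕ) : ℝ) + j + 1 - 2 * (s : ℝ)) - ((l : ℝ) + j + 1 - 2 * s)
        = -(2 * w l - 1) := by
      push_cast
      ring
    rw [this]
    nlinarith
  push_cast at h e1 e2 ⊢
  linarith

theorem alive_first_nonneg (hw : Adm w) (j n s : ℕ) (hs : s ≤ j) :
    0 ≤ W w n s * ((n : ℝ) + j + 1 - 2 * s) := by
  by_cases h : n < s
  · rw [W_eq_zero w n s h]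
    simp
  · have h1 := W_nonneg hw n s
    have h2 : (s : ℝ) ≤ n := by exact_mod_cast not_lt.1 h
    have h3 : (s : ℝ) ≤ j := by exact_mod_cast hs
    apply mul_nonneg h1
    linarith


theorem first_fin_le (hw : Adm w) (j M m : ℕ) (hM : M ≤ j + 1) (hm : M ≤ j + m) :
    ∑ g ∈ range m, p w j g * g + ∑ l ∈ range M, (2 * w l - 1) ≤ j + 1 := by
  have h := first_moment_fin w j m
  have h1 : 0 ≤ ∑ s ∈ range (j + 1), W w (j + m) s * (((j + m : ℕ) : ℝ) + j + 1 - 2 * s) :=
    Finset.sum_nonneg (fun s hs =>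
      alive_first_nonneg hw j (j + m) s (by have := Finset.mem_range.1 hs; omega))
  have h2 : ∑ l ∈ range M, (2 * w l - 1) ≤ ∑ l ∈ range (j + m), (2 * w l - 1) * A w l j := by
    calc ∑ l ∈ range M, (2 * w l - 1) = ∑ l ∈ range M, (2 * w l - 1) * A w l j := by
          refine Finset.sum_congr rfl (fun l hl => ?_)
          rw [A_eq_one w l j (by have := Finset.mem_range.1 hl; omega), mul_one]
      _ ≤ ∑ l ∈ range (j + m), (2 * w l - 1) * A w l j := by
          refine Finset.sum_le_sum_of_subset_of_nonneg ?_ (fun l _ _ => ?_)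
          · intro l hl
            have := Finset.mem_range.1 hl
            exact Finset.mem_range.2 (by omega)
          · exact mul_nonneg (by linarith [(hw l).1]) (A_nonneg hw l j)
  linarith

theorem summable_first (hw : Adm w) (j : ℕ) : Summable (fun g : ℕ => p w j g * g) := by
  refine summable_of_sum_range_le (c := (j : ℝ) + 1) (fun g => ?_) (fun m => ?_)
  · exact mul_nonneg (p_nonneg hw j g) (Nat.cast_nonneg g)
  · have := first_fin_le hw j 0 m (by omega) (by omega)
    simpa using this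

theorem first_le (hw : Adm w) (j M : ℕ) (hM : M ≤ j + 1) :
    ∑' g : ℕ, p w j g * g + ∑ l ∈ range M, (2 * w l - 1) ≤ j + 1 := by
  have h1 := (summable_first hw j).hasSum.tendsto_sum_nat
  have h2 := h1.add_const (∑ l ∈ range M, (2 * w l - 1))
  refine le_of_tendsto h2 ?_
  filter_upwards [eventually_ge_atTop M] with m hm
  exact first_fin_le hw j M m hM (by omega)

theorem first_ge (hw : Adm w) (j : ℕ) (D : ℝ) (hD : ∀ n, ∑ l ∈ range n, (2 * w l - 1) ≤ D) :
    (j : ℝ) + 1 ≤ ∑' g : ℕ, p w j g * g + D := by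
  have h1 := (summable_first hw j).hasSum.tendsto_sum_nat
  have h2 := alive_tendsto hw j (fun n s => (n : ℝ) + j + 1 - 2 * s) (3 * (j + 1)) (by
    intro n s hs
    have h3 : (s : ℝ) ≤ j := by exact_mod_cast hs
    have h4 : (0 : ℝ) ≤ n := Nat.cast_nonneg n
    have h5 : (0 : ℝ) ≤ j := Nat.cast_nonneg j
    have h6 : (0 : ℝ) ≤ s := Nat.cast_nonneg s
    have h7 : (0 : ℝ) ≤ (n : ℝ) * j := mul_nonneg h4 h5
    have h8 : (0 : ℝ) ≤ (n : ℝ) ^ 2 * j := mul_nonneg (sq_nonneg _) h5
    rw [abs_le]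
    constructor <;> nlinarith [sq_nonneg (n : ℝ)])
  have h3 : Tendsto (fun m => ∑ s ∈ range (j + 1), W w (j + m) s *
      (((j + m : ℕ) : ℝ) + j + 1 - 2 * s)) atTop (𝓝 0) := by
    have h4 := h2.comp (tendsto_add_atTop_nat j)
    refine h4.congr (fun m => ?_)
    simp only [Function.comp]
    rw [Nat.add_comm m j]
  have h5 := (h1.add h3).add_const D
  rw [add_zero] at h5
  refine ge_of_tendsto' h5 (fun m => ?_)
  rw [first_moment_fin w j m]
  have h6 : ∑ l ∈ range (j + m), (2 * w l - 1) * A w l j ≤ D := by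
    refine le_trans (Finset.sum_le_sum (fun l _ => ?_)) (hD (j + m))
    have := A_le_one hw l j
    have := (hw l).1
    nlinarith [A_nonneg hw l j]
  linarith

/-! ### Second moment -/

theorem second_moment_fin (w : ℕ → ℝ) (j m : ℕ) :
    ∑ g ∈ range m, p w j g * (g : ℝ) ^ 2
      + ∑ s ∈ range (j + 1), W w (j + m) s *
        ((((j + m : ℕ) : ℝ) + j + 1 - 2 * s) ^ 2 + 2 * ((j : ℝ) + 1 - s))
      = ((j : ℝ) + 1) ^ 2 + 2 * (j + 1) - ∑ l ∈ range (j + m), (2 * w l - 1) *
        ∑ s ∈ range (j + 1), W w l s * (2 * ((l : ℝ) + j + 1 - 2 * s) + 1) := by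
  have h := dynkin w (fun l s => ((l : ℝ) + j + 1 - 2 * s) ^ 2 + 2 * ((j : ℝ) + 1 - s)) j (j + m)
  have e1 : ∑ l ∈ range (j + m), w l * W w l j *
      ((((l + 1 : ℕ) : ℝ) + j + 1 - 2 * ((j + 1 : ℕ) : ℝ)) ^ 2
        + 2 * ((j : ℝ) + 1 - ((j + 1 : ℕ) : ℝ)))
      = ∑ g ∈ range m, p w j g * (g : ℝ) ^ 2 := by
    rw [sum_eq_sum_p w (fun l => ((((l + 1 : ℕ) : ℝ) + j + 1 - 2 * ((j + 1 : ℕ) : ℝ)) ^ 2
        + 2 * ((j : ℝ) + 1 - ((j + 1 : ℕ) : ℝ)))) j m]
    refine Finset.sum_congr rfl (fun g _ => ?_)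
    push_cast
    ring
  have e2 : ∑ l ∈ range (j + m), ∑ s ∈ range (j + 1), W w l s *
      (w l * ((((l + 1 : ℕ) : ℝ) + j + 1 - 2 * ((s + 1 : ℕ) : ℝ)) ^ 2
          + 2 * ((j : ℝ) + 1 - ((s + 1 : ℕ) : ℝ))) +
        (1 - w l) * ((((l + 1 : ℕ) : ℝ) + j + 1 - 2 * (s : ℝ)) ^ 2 + 2 * ((j : ℝ) + 1 - s)) -
          (((l : ℝ) + j + 1 - 2 * s) ^ 2 + 2 * ((j : ℝ) + 1 - s)))
      = - ∑ l ∈ range (j + m), (2 * w l - 1) *
        ∑ s ∈ range (j + 1), W w l s * (2 * ((l : ℝ) + j + 1 - 2 * s) + 1) := by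
    rw [← Finset.sum_neg_distrib]
    refine Finset.sum_congr rfl (fun l _ => ?_)
    rw [Finset.mul_sum, ← Finset.sum_neg_distrib]
    refine Finset.sum_congr rfl (fun s _ => ?_)
    push_cast
    ring
  rw [e1, e2] at h
  rw [h]
  push_cast
  ring

theorem second_fin_le (hw : Adm w) (j M m : ℕ) (hM : M ≤ j + 1) (hm : M ≤ j + m) :
    ∑ g ∈ range m, p w j g * (g : ℝ) ^ 2
      + (2 * ((j : ℝ) + 1 - M) + 1) * ∑ l ∈ range M, (2 * w l - 1)
      ≤ ((j : ℝ) + 1) ^ 2 + 2 * (j + 1) := by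
  have h := second_moment_fin w j m
  have h1 : 0 ≤ ∑ s ∈ range (j + 1), W w (j + m) s *
        ((((j + m : ℕ) : ℝ) + j + 1 - 2 * s) ^ 2 + 2 * ((j : ℝ) + 1 - s)) := by
    refine Finset.sum_nonneg (fun s hs => mul_nonneg (W_nonneg hw _ _) ?_)
    have h3 : (s : ℝ) ≤ j := by exact_mod_cast (by have := Finset.mem_range.1 hs; omega)
    have := sq_nonneg (((j + m : ℕ) : ℝ) + j + 1 - 2 * s)
    linarith
  have hB : ∀ l, 0 ≤ ∑ s ∈ range (j + 1), W w l s * (2 * ((l : ℝ) + j + 1 - 2 * s) + 1) := by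
    intro l
    refine Finset.sum_nonneg (fun s hs => ?_)
    have h3 := alive_first_nonneg hw j l s (by have := Finset.mem_range.1 hs; omega)
    have h4 := W_nonneg hw l s
    nlinarith
  have h2 : (2 * ((j : ℝ) + 1 - M) + 1) * ∑ l ∈ range M, (2 * w l - 1)
      ≤ ∑ l ∈ range (j + m), (2 * w l - 1) *
        ∑ s ∈ range (j + 1), W w l s * (2 * ((l : ℝ) + j + 1 - 2 * s) + 1) := by
    calc (2 * ((j : ℝ) + 1 - M) + 1) * ∑ l ∈ range M, (2 * w l - 1)
        = ∑ l ∈ range M, (2 * w l - 1) * ((2 * ((j : ℝ) + 1 - M) + 1) * A w l j) := by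
          rw [Finset.mul_sum]
          refine Finset.sum_congr rfl (fun l hl => ?_)
          rw [A_eq_one w l j (by have := Finset.mem_range.1 hl; omega)]
          ring
      _ ≤ ∑ l ∈ range M, (2 * w l - 1) *
          ∑ s ∈ range (j + 1), W w l s * (2 * ((l : ℝ) + j + 1 - 2 * s) + 1) := by
          refine Finset.sum_le_sum (fun l hl => mul_le_mul_of_nonneg_left ?_
            (by linarith [(hw l).1]))
          unfold A
          rw [Finset.mul_sum]
          refine Finset.sum_le_sum (fun s _ => ?_)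
          by_cases hs : l < s
          · rw [W_eq_zero w l s hs]
            simp
          · have h5 := W_nonneg hw l s
            rw [mul_comm]
            refine mul_le_mul_of_nonneg_left ?_ h5
            have h6 : (s : ℝ) ≤ l := by exact_mod_cast not_lt.1 hs
            have h7 : (l : ℝ) ≤ M := by exact_mod_cast (Finset.mem_range.1 hl).le
            linarith
      _ ≤ _ := by
          refine Finset.sum_le_sum_of_subset_of_nonneg ?_ (fun l _ _ => ?_)
          · intro l hl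
            have := Finset.mem_range.1 hl
            exact Finset.mem_range.2 (by omega)
          · exact mul_nonneg (by linarith [(hw l).1]) (hB l)
  linarith

theorem summable_second (hw : Adm w) (j : ℕ) : Summable (fun g : ℕ => p w j g * (g : ℝ) ^ 2) := by
  refine summable_of_sum_range_le (c := ((j : ℝ) + 1) ^ 2 + 2 * (j + 1)) (fun g => ?_)
    (fun m => ?_)
  · exact mul_nonneg (p_nonneg hw j g) (sq_nonneg _)
  · have := second_fin_le hw j 0 m (by omega) (by omega)
    simpa using this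

theorem second_le (hw : Adm w) (j M : ℕ) (hM : M ≤ j + 1) :
    ∑' g : ℕ, p w j g * (g : ℝ) ^ 2 + (2 * ((j : ℝ) + 1 - M) + 1) * ∑ l ∈ range M, (2 * w l - 1)
      ≤ ((j : ℝ) + 1) ^ 2 + 2 * (j + 1) := by
  have h1 := (summable_second hw j).hasSum.tendsto_sum_nat
  have h2 := h1.add_const ((2 * ((j : ℝ) + 1 - M) + 1) * ∑ l ∈ range M, (2 * w l - 1))
  refine le_of_tendsto h2 ?_
  filter_upwards [eventually_ge_atTop M] with m hm
  exact second_fin_le hw j M m hM (by omega)

theorem second_ge (hw : Adm w) (j : ℕ) (D : ℝ) (hD : ∀ n, ∑ l ∈ range n, (2 * w l - 1) ≤ D) :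
    ((j : ℝ) + 1) ^ 2 + 2 * (j + 1) ≤ ∑' g : ℕ, p w j g * (g : ℝ) ^ 2 + (2 * j + 3) * D := by
  have h1 := (summable_second hw j).hasSum.tendsto_sum_nat
  have h2 := alive_tendsto hw j (fun n s => ((n : ℝ) + j + 1 - 2 * s) ^ 2 + 2 * ((j : ℝ) + 1 - s))
    (6 * (j + 1) ^ 2) (by
    intro n s hs
    have h3 : (s : ℝ) ≤ j := by exact_mod_cast hs
    have h4 : (0 : ℝ) ≤ n := Nat.cast_nonneg n
    have h5 : (0 : ℝ) ≤ j := Nat.cast_nonneg j
    have h6 : (0 : ℝ) ≤ s := Nat.cast_nonneg s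
    have h7 : ((n : ℝ) + j + 1 - 2 * s) ^ 2 ≤ ((n + 1) * (j + 1)) ^ 2 * 4 := by
      have h8 : (0 : ℝ) ≤ (n : ℝ) * j := mul_nonneg h4 h5
      rw [show ((n + 1) * ((j : ℝ) + 1)) ^ 2 * 4 = (2 * ((n + 1) * ((j : ℝ) + 1))) ^ 2 by ring]
      apply sq_le_sq'
      · nlinarith
      · nlinarith
    have h8 : 2 * ((j : ℝ) + 1 - s) ≤ 2 * ((n + 1) ^ 2 * (j + 1) ^ 2) := by
      have h9 : (1 : ℝ) ≤ (n + 1) ^ 2 := by nlinarith
      have h10 : (j : ℝ) + 1 ≤ (j + 1) ^ 2 := by nlinarith
      have h11 : (j : ℝ) + 1 ≤ (n + 1) ^ 2 * (j + 1) ^ 2 := by nlinarith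
      linarith
    rw [abs_of_nonneg (by have := sq_nonneg ((n : ℝ) + j + 1 - 2 * s); linarith)]
    nlinarith)
  have h3 : Tendsto (fun m => ∑ s ∈ range (j + 1), W w (j + m) s *
      ((((j + m : ℕ) : ℝ) + j + 1 - 2 * s) ^ 2 + 2 * ((j : ℝ) + 1 - s))) atTop (𝓝 0) := by
    have h4 := h2.comp (tendsto_add_atTop_nat j)
    refine h4.congr (fun m => ?_)
    simp only [Function.comp]
    rw [Nat.add_comm m j]
  have h5 := (h1.add h3).add_const ((2 * (j : ℝ) + 3) * D)
  rw [add_zero] at h5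
  refine ge_of_tendsto' h5 (fun m => ?_)
  rw [second_moment_fin w j m]
  have h6 : ∑ l ∈ range (j + m), (2 * w l - 1) *
        ∑ s ∈ range (j + 1), W w l s * (2 * ((l : ℝ) + j + 1 - 2 * s) + 1) ≤ (2 * j + 3) * D := by
    calc ∑ l ∈ range (j + m), (2 * w l - 1) *
        ∑ s ∈ range (j + 1), W w l s * (2 * ((l : ℝ) + j + 1 - 2 * s) + 1)
        ≤ ∑ l ∈ range (j + m), (2 * w l - 1) * (2 * j + 3) := by
          refine Finset.sum_le_sum (fun l _ => mul_le_mul_of_nonneg_left ?_
            (by linarith [(hw l).1]))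
          have h7 := alive_first_le hw j l
          have h8 := A_le_one hw l j
          have h9 : ∑ s ∈ range (j + 1), W w l s * (2 * ((l : ℝ) + j + 1 - 2 * s) + 1)
              = 2 * (∑ s ∈ range (j + 1), W w l s * ((l : ℝ) + j + 1 - 2 * s)) + A w l j := by
            unfold A
            rw [Finset.mul_sum, ← Finset.sum_add_distrib]
            refine Finset.sum_congr rfl (fun s _ => ?_)
            ring
          rw [h9]
          linarith
      _ = (2 * j + 3) * ∑ l ∈ range (j + m), (2 * w l - 1) := by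
          rw [← Finset.sum_mul]
          ring
      _ ≤ (2 * j + 3) * D := mul_le_mul_of_nonneg_left (hD _) (by positivity)
  linarith

/-! ### Point masses and tails -/

theorem p_zero_ge (hw : Adm w) (j : ℕ) : (1 / 2 : ℝ) ^ (j + 1) ≤ p w j 0 := by
  have h : ∀ l, (1 / 2 : ℝ) ^ l ≤ W w l l := by
    intro l
    induction l with
    | zero => simp [W]
    | succ l ih =>
      rw [W, W_eq_zero w l (l + 1) (by omega), mul_zero, add_zero, pow_succ, mul_comm]
      exact mul_le_mul (hw l).1 ih (by positivity) (by linarith [(hw l).1])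
  unfold p
  rw [add_zero, pow_succ, mul_comm]
  exact mul_le_mul (hw j).1 (h j) (by positivity) (by linarith [(hw j).1])

theorem tail_eq (w : ℕ → ℝ) (j m : ℕ) :
    1 - ∑ g ∈ range m, p w j g = A w (j + m) j := by
  linarith [A_add_sum w j m]

theorem tail_pos (hw : Adm w) (h : ∀ i, w i < 1) (j m : ℕ) :
    0 < 1 - ∑ g ∈ range m, p w j g := by
  rw [tail_eq w]
  exact lt_of_lt_of_le (W_zero_pos h m) (A_ge hw m j)

end Pool.Agent.Work.MP_7ca543_pr
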